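import Pool.Agent.Lib.MP_c6e9f4_al.Exp.Defs
import Pool.Agent.Lib.MP_c6e9f4_al.Basic

/-!
Z4. Index of permutability at most `2 D`: swap adjacent pairs. For a `2 N`-tuple put
`u_i = x_(2i) x_(2i+1)`, `c_i = u_i⁻¹ x_(2i+1) x_(2i)`, `U_i` = product of the later `u_j`,
`e_i = U_i⁻¹ c_i U_i`; swapping the pairs in `I` gives `P ∏_(i ∈ I) e_i` (increasing order). As the list
`(e_i)` of length `N` is not bad, some nonempty `I` gives the same product.
-/

set_option autoImplicit false

namespace Pool.Agent.Lib.MP_c6e9f4_al.Exp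

open Equiv (Perm)
open Pool.Agent.Lib.MP_c6e9f4_al

theorem swap_pairs {G : Type*} [Group G] (N : ℕ) (a b : Fin N → G) :
    ∃ e : List G, e.length = N ∧ ∀ s : List G, s.Sublist e → ∃ m : Fin N → Bool,
      (s ≠ [] → ∃ i, m i = true) ∧
      (List.ofFn fun i => if m i = true then b i * a i else a i * b i).prod =
        (List.ofFn fun i => a i * b i).prod * s.prod := by
  induction N with
  | zero =>
    refine ⟨[], rfl, ?_⟩
    intro s hs
    have hs' : s = [] := List.eq_nil_of_sublist_nil hs
    subst hs'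
    exact ⟨fun i => false, fun h => absurd rfl h, by simp⟩
  | succ N ih =>
    obtain ⟨e, he, hmask⟩ := ih (fun i => a i.succ) (fun i => b i.succ)
    set U : G := (List.ofFn fun i : Fin N => a i.succ * b i.succ).prod with hU
    refine ⟨(U⁻¹ * ((a 0 * b 0)⁻¹ * (b 0 * a 0)) * U) :: e, by simp [he], ?_⟩
    intro s hs
    rcases List.sublist_cons_iff.mp hs with h | ⟨s', rfl, h⟩
    · obtain ⟨m, hm1, hm2⟩ := hmask s h
      refine ⟨Fin.cons false m, ?_, ?_⟩
      · intro hne
        obtain ⟨i, hi⟩ := hm1 hne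
        exact ⟨i.succ, by simpa using hi⟩
      · rw [List.ofFn_succ, List.ofFn_succ (f := fun i => a i * b i), List.prod_cons, List.prod_cons]
        simp only [Fin.cons_zero, Fin.cons_succ, Bool.false_eq_true, if_false]
        rw [hm2, ← hU]
        simp only [mul_assoc]
    · obtain ⟨m, hm1, hm2⟩ := hmask s' h
      refine ⟨Fin.cons true m, ?_, ?_⟩
      · intro _
        exact ⟨0, by simp⟩
      · rw [List.ofFn_succ, List.ofFn_succ (f := fun i => a i * b i), List.prod_cons, List.prod_cons,
          List.prod_cons]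
        simp only [Fin.cons_zero, Fin.cons_succ, if_true]
        rw [hm2, ← hU]
        group

theorem ofFn_pairs {G : Type*} [Group G] (N : ℕ) (f : Fin (N * 2) → G) :
    (List.ofFn f).prod =
      (List.ofFn fun i : Fin N => f (finProdFinEquiv (i, 0)) * f (finProdFinEquiv (i, 1))).prod := by
  rw [List.ofFn_mul, List.prod_flatten, List.map_ofFn]
  congr 2
  funext i
  simp only [Function.comp]
  rw [List.ofFn_succ, List.ofFn_succ, List.ofFn_zero, List.prod_cons, List.prod_cons, List.prod_nil,
    mul_one]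
  congr 2
  · apply Fin.ext
    simp [finProdFinEquiv, mul_comm]
  · apply Fin.ext
    simp [finProdFinEquiv, mul_comm, add_comm]

theorem permIndex_le_of_DB {G : Type*} [Group G] [Finite G] (N : ℕ) (hN : 1 ≤ N)
    (h : DB (Set.univ : Set G) (N : ℝ)) : permIndex G ≤ 2 * N := by
  rw [mul_comm]
  refine permIndex_le (by omega) ?_
  intro x
  obtain ⟨e, he, hmask⟩ := swap_pairs N (fun i => x (finProdFinEquiv (i, 0)))
    (fun i => x (finProdFinEquiv (i, 1)))
  have hnb : ¬ Bad e := by
    intro hb
    have := h e (fun _ _ => Set.mem_univ _) hb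
    rw [he] at this
    linarith
  unfold Bad at hnb
  push Not at hnb
  obtain ⟨s, hs, hne, hprod⟩ := hnb
  obtain ⟨m, hm1, hm2⟩ := hmask s hs
  obtain ⟨i0, hi0⟩ := hm1 hne
  set τ : Perm (Fin N × Fin 2) :=
    Equiv.prodCongrRight (fun i => if m i = true then Equiv.swap (0 : Fin 2) 1 else Equiv.refl _) with hτ
  refine ⟨finProdFinEquiv.permCongr τ, ?_, ?_⟩
  · intro h1
    have h2 := congrArg (fun g : Perm (Fin (N * 2)) => g (finProdFinEquiv (i0, 0))) h1
    simp only [Equiv.permCongr_apply, Equiv.symm_apply_apply, Equiv.Perm.one_apply,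
      EmbeddingLike.apply_eq_iff_eq] at h2
    have h3 : τ (i0, 0) = (i0, 1) := by
      simp [hτ, hi0]
    rw [h3] at h2
    have := congrArg Prod.snd h2
    simp at this
  · rw [ofFn_pairs, ofFn_pairs]
    have h4 : ∀ i : Fin N, ∀ j : Fin 2, (finProdFinEquiv.permCongr τ) (finProdFinEquiv (i, j)) =
        finProdFinEquiv (i, if m i = true then Equiv.swap (0 : Fin 2) 1 j else j) := by
      intro i j
      rw [Equiv.permCongr_apply, Equiv.symm_apply_apply]
      congr 1
      by_cases hmi : m i = true <;> simp [hτ, hmi]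
    simp only [h4]
    rw [hprod, mul_one] at hm2
    rw [← hm2]
    congr 2
    funext i
    by_cases hmi : m i = true <;> simp [hmi]

end Pool.Agent.Lib.MP_c6e9f4_al.Exp
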