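import Pool.Agent.Lib.MP_c6e9f4_al.Exp.Defs

/-!
A1. Elementary facts on bad and derived lists. `S.flatten` sublists: a sublist of `S.map prod` is
`S'.map prod` with `S'` a sublist of `S` (`List.sublist_map_iff`), and `S'.flatten` is a sublist of
`S.flatten` (`List.Sublist.flatten`).
-/

set_option autoImplicit false

namespace Pool.Agent.Lib.MP_c6e9f4_al.Exp

open Equiv (Perm)

variable {G : Type*} [Group G]

theorem Bad.sublist {l l' : List G} (h : Bad l) (hs : l'.Sublist l) : Bad l' :=
  fun s hsl hne => h s (hsl.trans hs) hne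

theorem A1_flatten_ne_nil {S : List (List G)} (h : ∀ s ∈ S, s ≠ []) (hS : S ≠ []) :
    S.flatten ≠ [] := by
  cases S with
  | nil => exact absurd rfl hS
  | cons a S =>
    intro hc
    rw [List.flatten_cons, List.append_eq_nil_iff] at hc
    exact h a (by simp) hc.1

theorem A1_sublist_flatten {S T : List (List G)} (h : S.Sublist T) :
    S.flatten.Sublist T.flatten := by
  induction h with
  | slnil => exact List.Sublist.refl _
  | cons a _ ih =>
    rw [List.flatten_cons]
    exact ih.trans (List.sublist_append_right _ _)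
  | cons_cons a _ ih =>
    rw [List.flatten_cons, List.flatten_cons]
    exact List.Sublist.append (List.Sublist.refl _) ih

theorem A1_prod_map (S : List (List G)) : (S.map List.prod).prod = S.flatten.prod :=
  (List.prod_flatten).symm

theorem Der.bad {z l : List G} (h : Der z l) (hl : Bad l) : Bad z := by
  obtain ⟨S, hS, hSl, rfl⟩ := h
  intro s hs hne
  obtain ⟨T, hT, rfl⟩ := List.sublist_map_iff.1 hs
  rw [A1_prod_map]
  have hTne : T ≠ [] := by
    rintro rfl
    exact hne rfl
  exact hl _ ((A1_sublist_flatten hT).trans hSl)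
    (A1_flatten_ne_nil (fun s hs => hS s (hT.subset hs)) hTne)

theorem Der.pi_subset {z l : List G} (h : Der z l) : Pi z ⊆ Pi l := by
  obtain ⟨S, hS, hSl, rfl⟩ := h
  rintro g ⟨s, hs, rfl⟩
  obtain ⟨T, hT, rfl⟩ := List.sublist_map_iff.1 hs
  exact ⟨T.flatten, (A1_sublist_flatten hT).trans hSl, (A1_prod_map T).symm⟩

theorem Der.of_sublist {y l : List G} (h : y.Sublist l) : Der y l := by
  refine ⟨y.map (fun x => [x]), ?_, ?_, ?_⟩
  · intro s hs
    obtain ⟨x, _, rfl⟩ := List.mem_map.1 hs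
    simp
  · have : (y.map (fun x => [x])).flatten = y := by
      induction y with
      | nil => rfl
      | cons a y ih =>
        rw [List.map_cons, List.flatten_cons, ih (List.Sublist.trans (List.sublist_cons_self a y) h)]
        rfl
    rw [this]
    exact h
  · rw [List.map_map]
    have : (List.prod ∘ fun x : G => [x]) = id := by
      funext x
      simp
    rw [this, List.map_id]

theorem Der.refl (l : List G) : Der l l := Der.of_sublist (List.Sublist.refl l)

/-- nested grouping: `Z` groups sublists of `S.map prod` -/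
theorem Der.trans {z y l : List G} (h : Der z y) (h' : Der y l) : Der z l := by
  obtain ⟨S, hS, hSl, rfl⟩ := h'
  obtain ⟨Z, hZ, hZl, rfl⟩ := h
  obtain ⟨T, hT, hTe⟩ := List.sublist_map_iff.1 hZl
  -- `Z.flatten = T.map prod`; split `T` along `Z`
  have key : ∀ (Z : List (List G)) (T : List (List G)), (∀ s ∈ Z, s ≠ []) → (∀ s ∈ T, s ≠ []) →
      Z.flatten = T.map List.prod →
      ∃ W : List (List (List G)), W.flatten = T ∧ (∀ w ∈ W, w ≠ []) ∧
        Z = W.map (fun w => w.map List.prod) := by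
    intro Z
    induction Z with
    | nil =>
      intro T _ _ hT
      refine ⟨[], ?_, by simp, rfl⟩
      rw [List.flatten_nil] at hT ⊢
      exact (List.map_eq_nil_iff.1 hT.symm).symm
    | cons a Z ih =>
      intro T hZ hTn hT
      rw [List.flatten_cons] at hT
      obtain ⟨T1, T2, rfl, h1, h2⟩ := List.map_eq_append_iff.1 hT.symm
      obtain ⟨W, hW1, hW2, hW3⟩ := ih T2 (fun s hs => hZ s (List.mem_cons_of_mem _ hs))
        (fun s hs => hTn s (List.mem_append_right _ hs)) h2.symm
      refine ⟨T1 :: W, by rw [List.flatten_cons, hW1], ?_, by rw [List.map_cons, h1, hW3]⟩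
      intro w hw
      rcases List.mem_cons.1 hw with rfl | hw
      · rintro rfl
        exact hZ a (by simp) h1.symm
      · exact hW2 w hw
  obtain ⟨W, hW1, hW2, hW3⟩ := key Z T hZ (fun s hs => hS s (hT.subset hs)) hTe
  have hTn : ∀ s ∈ T, s ≠ [] := fun s hs => hS s (hT.subset hs)
  refine ⟨W.map List.flatten, ?_, ?_, ?_⟩
  · intro s hs
    obtain ⟨w, hw, rfl⟩ := List.mem_map.1 hs
    refine A1_flatten_ne_nil (fun t ht => hTn t ?_) (hW2 w hw)
    rw [← hW1]
    exact List.mem_flatten.2 ⟨w, hw, ht⟩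
  · have e : (W.map List.flatten).flatten = W.flatten.flatten := by
      rw [List.flatten_flatten]
    rw [e, hW1]
    exact (A1_sublist_flatten hT).trans hSl
  · rw [hW3, List.map_map, List.map_map]
    refine List.map_congr_left fun w _ => ?_
    exact A1_prod_map w

theorem Der.mem {z l : List G} (h : Der z l) (H : Subgroup G) (hl : ∀ g ∈ l, g ∈ H) :
    ∀ g ∈ z, g ∈ H := by
  obtain ⟨S, hS, hSl, rfl⟩ := h
  intro g hg
  obtain ⟨s, hs, rfl⟩ := List.mem_map.1 hg
  refine H.list_prod_mem fun x hx => hl x (hSl.subset ?_)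
  exact List.mem_flatten.2 ⟨s, hs, hx⟩

theorem mem_Pi_of_mem {l : List G} {g : G} (h : g ∈ l) : g ∈ Pi l :=
  ⟨[g], List.singleton_sublist.2 h, by simp⟩

theorem Der.mem_Pi {z l : List G} (h : Der z l) {g : G} (hg : g ∈ z) : g ∈ Pi l :=
  h.pi_subset (mem_Pi_of_mem hg)

theorem one_mem_Pi (l : List G) : (1 : G) ∈ Pi l := ⟨[], List.nil_sublist l, rfl⟩

theorem Pi_mono {l l' : List G} (h : l.Sublist l') : Pi l ⊆ Pi l' := by
  rintro g ⟨s, hs, rfl⟩
  exact ⟨s, hs.trans h, rfl⟩

theorem mem_Pi_append {l l' : List G} {g : G} :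
    g ∈ Pi (l ++ l') ↔ ∃ a ∈ Pi l, ∃ b ∈ Pi l', a * b = g := by
  constructor
  · rintro ⟨s, hs, rfl⟩
    obtain ⟨s1, s2, rfl, h1, h2⟩ := List.sublist_append_iff.1 hs
    exact ⟨s1.prod, ⟨s1, h1, rfl⟩, s2.prod, ⟨s2, h2, rfl⟩, (List.prod_append).symm⟩
  · rintro ⟨a, ⟨s1, h1, rfl⟩, b, ⟨s2, h2, rfl⟩, rfl⟩
    exact ⟨s1 ++ s2, List.Sublist.append h1 h2, List.prod_append⟩

theorem A1_rev_prod (s : List G) : ((s.map (fun x => x⁻¹)).reverse).prod = s.prod⁻¹ :=
  (List.prod_inv_reverse s).symm

theorem A1_rev_rev (l : List G) :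
    ((l.map (fun x => x⁻¹)).reverse.map (fun x => x⁻¹)).reverse = l := by
  rw [List.map_reverse, List.reverse_reverse, List.map_map]
  have : ((fun x : G => x⁻¹) ∘ fun x => x⁻¹) = id := by
    funext x
    simp
  rw [this, List.map_id]

theorem A1_rev_sub {s l : List G} (h : s.Sublist l) :
    ((s.map (fun x => x⁻¹)).reverse).Sublist ((l.map (fun x => x⁻¹)).reverse) :=
  (h.map _).reverse

theorem mem_Pi_reverse_inv {l : List G} {g : G} :
    g ∈ Pi (l.map (fun x => x⁻¹)).reverse ↔ g⁻¹ ∈ Pi l := by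
  constructor
  · rintro ⟨s, hs, rfl⟩
    refine ⟨(s.map (fun x => x⁻¹)).reverse, ?_, A1_rev_prod s⟩
    have := A1_rev_sub hs
    rwa [A1_rev_rev] at this
  · rintro ⟨s, hs, hg⟩
    refine ⟨(s.map (fun x => x⁻¹)).reverse, A1_rev_sub hs, ?_⟩
    rw [A1_rev_prod, hg, inv_inv]

theorem Bad.reverse_inv {l : List G} (h : Bad l) : Bad (l.map (fun x => x⁻¹)).reverse := by
  intro s hs hne hprod
  have h1 := A1_rev_sub hs
  rw [A1_rev_rev] at h1
  refine h _ h1 ?_ ?_
  · intro hc
    rw [List.reverse_eq_nil_iff, List.map_eq_nil_iff] at hc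
    exact hne hc
  · rw [A1_rev_prod, hprod, inv_one]

end Pool.Agent.Lib.MP_c6e9f4_al.Exp
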