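import Pool.Agent.Lib.MP_c6e9f4_al.Exp.A1

/-!
A2. The basic derivation lemma. Strong induction on the length of `l`: take the longest prefix `p`
without a nonempty sublist product in `Q` (so `|p| + 1 ≤ d`); if `p = l` take `z = []`; otherwise
the block `p ++ [g]` has a nonempty sublist with product in `Q`; recurse on the rest.
-/

set_option autoImplicit false

namespace Pool.Agent.Lib.MP_c6e9f4_al.Exp

open Equiv (Perm)

theorem A2_aux {G : Type*} [Group G] (H : Subgroup G) (Q : Set G) (d : ℝ)
    (h : ∀ p : List G, (∀ g ∈ p, g ∈ H) →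
      (∀ s : List G, s.Sublist p → s ≠ [] → s.prod ∉ Q) → (p.length : ℝ) + 1 ≤ d) :
    ∀ (n : ℕ) (l : List G), l.length = n → (∀ g ∈ l, g ∈ H) →
    ∃ z : List G, Der z l ∧ (∀ g ∈ z, g ∈ H ∧ g ∈ Q) ∧
      (l.length : ℝ) + 1 ≤ d * ((z.length : ℝ) + 1) := by
  classical
  intro n
  induction n using Nat.strong_induction_on with
  | _ n ih =>
    intro l hn hl
    by_cases hQ : ∀ s : List G, s.Sublist l → s ≠ [] → s.prod ∉ Q
    · refine ⟨[], ⟨[], by simp, by simp, rfl⟩, by simp, ?_⟩
      have := h l hl hQ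
      simpa using this
    · push Not at hQ
      have hex : ∃ k : ℕ, ∃ s : List G, s.Sublist (l.take k) ∧ s ≠ [] ∧ s.prod ∈ Q := by
        obtain ⟨s, h1, h2, h3⟩ := hQ
        exact ⟨l.length, s, by rwa [List.take_length], h2, h3⟩
      obtain ⟨k, hk⟩ : ∃ k, k = Nat.find hex := ⟨_, rfl⟩
      have hspec : ∃ s : List G, s.Sublist (l.take k) ∧ s ≠ [] ∧ s.prod ∈ Q := by
        rw [hk]; exact Nat.find_spec hex
      have hmin : ∀ j < k, ¬ ∃ s : List G, s.Sublist (l.take j) ∧ s ≠ [] ∧ s.prod ∈ Q := by
        intro j hj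
        rw [hk] at hj
        exact Nat.find_min hex hj
      have hk0 : k ≠ 0 := by
        rintro h0
        obtain ⟨s, h1, h2, _⟩ := hspec
        rw [h0, List.take_zero] at h1
        exact h2 (List.sublist_nil.1 h1)
      have hkl : k ≤ l.length := by
        rw [hk]
        refine Nat.find_min' hex ?_
        obtain ⟨s, h1, h2, h3⟩ := hQ
        exact ⟨s, by rwa [List.take_length], h2, h3⟩
      have hkd : (k : ℝ) ≤ d := by
        have h1 := h (l.take (k - 1)) (fun g hg => hl g (List.mem_of_mem_take hg)) (by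
          intro s hs hne hQs
          exact hmin (k - 1) (by omega) ⟨s, hs, hne, hQs⟩)
        have h2 : (l.take (k - 1)).length + 1 = k := by
          rw [List.length_take]; omega
        have h3 : ((l.take (k - 1)).length : ℝ) + 1 = k := by exact_mod_cast h2
        rwa [h3] at h1
      obtain ⟨s, hs1, hs2, hs3⟩ := hspec
      obtain ⟨z, ⟨S, hS1, hS2, hS3⟩, hz1, hz2⟩ := ih (l.drop k).length (by
        rw [List.length_drop]; omega) (l.drop k) rfl
        (fun g hg => hl g (List.mem_of_mem_drop hg))
      refine ⟨s.prod :: z, ⟨s :: S, ?_, ?_, ?_⟩, ?_, ?_⟩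
      · intro t ht
        rcases List.mem_cons.1 ht with rfl | ht
        · exact hs2
        · exact hS1 t ht
      · rw [List.flatten_cons]
        have := List.Sublist.append hs1 hS2
        rwa [List.take_append_drop] at this
      · rw [List.map_cons, hS3]
      · intro g hg
        rcases List.mem_cons.1 hg with rfl | hg
        · refine ⟨H.list_prod_mem fun x hx => hl x ?_, hs3⟩
          exact List.mem_of_mem_take (hs1.subset hx)
        · exact hz1 g hg
      · have h1 : (l.length : ℝ) = k + ((l.drop k).length : ℝ) := by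
          have : l.length = k + (l.drop k).length := by rw [List.length_drop]; omega
          exact_mod_cast this
        rw [List.length_cons]
        push_cast
        rw [h1]
        linarith

theorem derive {G : Type*} [Group G] (H : Subgroup G) (Q : Set G) (d : ℝ)
    (h : ∀ p : List G, (∀ g ∈ p, g ∈ H) →
      (∀ s : List G, s.Sublist p → s ≠ [] → s.prod ∉ Q) → (p.length : ℝ) + 1 ≤ d)
    (l : List G) (hl : ∀ g ∈ l, g ∈ H) :
    ∃ z : List G, Der z l ∧ (∀ g ∈ z, g ∈ H ∧ g ∈ Q) ∧
      (l.length : ℝ) + 1 ≤ d * ((z.length : ℝ) + 1) :=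
  A2_aux H Q d h l.length l rfl hl

end Pool.Agent.Lib.MP_c6e9f4_al.Exp
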