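import Pool.Agent.Lib.MP_c6e9f4_al.Exp.A2

/-!
A3. Killing an invariant set `R`: apply `derive` with `Q` = pointwise stabiliser of `R`; a list `p`
in `H` without a nonempty sublist product in `Q` is mapped by `g ↦ g.subtypePerm _ : Perm R` to a bad
list (lift `p` to `List H`).
-/

set_option autoImplicit false

namespace Pool.Agent.Lib.MP_c6e9f4_al.Exp

open Equiv (Perm)

/-- the restriction to `R` of the members of `H` -/
noncomputable def A3_res {α : Type} [Fintype α] [DecidableEq α] (H : Subgroup (Perm α))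
    (R : Finset α) (hR : ∀ g ∈ H, ∀ x ∈ R, g x ∈ R) : H →* Perm {x // x ∈ R} where
  toFun g := (g : Perm α).subtypePerm fun x => by
    constructor
    · intro hx
      have := hR _ (H.inv_mem g.2) _ hx
      have e : ((g : Perm α)⁻¹) ((g : Perm α) x) = x := (g : Perm α).symm_apply_apply x
      rwa [e] at this
    · intro hx
      exact hR _ g.2 _ hx
  map_one' := by
    ext x
    rfl
  map_mul' a b := by
    ext x
    rfl

theorem A3_res_one {α : Type} [Fintype α] [DecidableEq α] (H : Subgroup (Perm α))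
    (R : Finset α) (hR : ∀ g ∈ H, ∀ x ∈ R, g x ∈ R) (g : H) (hg : A3_res H R hR g = 1) :
    ∀ x ∈ R, (g : Perm α) x = x := by
  intro x hx
  have := congrArg (fun f : Perm {x // x ∈ R} => ((f ⟨x, hx⟩ : {x // x ∈ R}) : α)) hg
  exact this

theorem derive_fix {α : Type} [Fintype α] [DecidableEq α] (H : Subgroup (Perm α)) (R : Finset α)
    (hR : ∀ g ∈ H, ∀ x ∈ R, g x ∈ R) {d : ℝ} (hd : DN R.card d)
    (l : List (Perm α)) (hl : ∀ g ∈ l, g ∈ H) :
    ∃ z : List (Perm α), Der z l ∧ (∀ g ∈ z, g ∈ H ∧ ∀ x ∈ R, g x = x) ∧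
      (l.length : ℝ) + 1 ≤ d * ((z.length : ℝ) + 1) := by
  refine derive H {g | ∀ x ∈ R, g x = x} d ?_ l hl
  intro p hp hQ
  -- lift `p` to a list in `H`
  obtain ⟨q, hq⟩ : ∃ q : List H, q.map (fun g : H => (g : Perm α)) = p :=
    ⟨p.attach.map (fun g => (⟨g.1, hp g.1 g.2⟩ : H)), by
      rw [List.map_map]
      exact p.attach_map_subtype_val⟩
  have hbad : Bad (q.map (A3_res H R hR)) := by
    intro s hs hne hprod
    obtain ⟨t, ht, rfl⟩ := List.sublist_map_iff.1 hs
    have h1 : A3_res H R hR t.prod = 1 := by rw [map_list_prod]; exact hprod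
    have h2 := A3_res_one H R hR _ h1
    refine hQ (t.map (fun g : H => (g : Perm α))) ?_ ?_ ?_
    · rw [← hq]; exact ht.map _
    · intro hc
      rw [List.map_eq_nil_iff] at hc
      rw [hc] at hne
      exact hne rfl
    · have h3 : (t.map (fun g : H => (g : Perm α))).prod = ((t.prod : H) : Perm α) := by
        have := map_list_prod H.subtype t
        rw [Subgroup.coe_subtype] at this
        exact this.symm
      show ∀ x ∈ R, _ = x
      rw [h3]
      exact h2
  have h4 := hd {x // x ∈ R} (by simp) (q.map (A3_res H R hR)) (fun _ _ => Set.mem_univ _) hbad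
  rw [List.length_map] at h4
  have h5 : p.length = q.length := by rw [← hq, List.length_map]
  rw [h5]
  exact h4

end Pool.Agent.Lib.MP_c6e9f4_al.Exp
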