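import Pool.Agent.Lib.MP_c6e9f4_al.Exp.A2

/-!
A4. Fixing a point `p` of an invariant set `B` costs a factor `|B|`: `derive` with `Q` = stabiliser of
`p`. For a list `q = g :: q'` in `H` without a nonempty sublist product fixing `p`, the sets
`R(q) = {s.prod p : s sublist of q}` satisfy `R(q) = R(q') ∪ g R(q')`, strictly larger than `R(q')`
(otherwise `p ∈ g R(q')`), so `|q| + 1 ≤ |R(q)| ≤ |B|`.
-/

set_option autoImplicit false

namespace Pool.Agent.Lib.MP_c6e9f4_al.Exp

open Equiv (Perm)

theorem reach_grow {α : Type} [DecidableEq α] (p : α) (q : List (Perm α))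
    (hq : ∀ s : List (Perm α), s.Sublist q → s ≠ [] → s.prod p ≠ p) :
    ∃ R : Finset α, (∀ x ∈ R, ∃ s : List (Perm α), s.Sublist q ∧ s.prod p = x) ∧ p ∈ R ∧
      q.length + 1 ≤ R.card := by
  induction q with
  | nil =>
    refine ⟨{p}, ?_, Finset.mem_singleton_self p, by simp⟩
    intro x hx
    rw [Finset.mem_singleton] at hx
    exact ⟨[], List.Sublist.refl _, by simp [hx]⟩
  | cons g q' ih =>
    obtain ⟨R, hR, hpR, hcard⟩ := ih (fun s hs hne => hq s (hs.trans (List.sublist_cons_self g q')) hne)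
    refine ⟨R ∪ R.image g, ?_, Finset.mem_union_left _ hpR, ?_⟩
    · intro x hx
      rcases Finset.mem_union.mp hx with hx | hx
      · obtain ⟨s, hs, hsx⟩ := hR x hx
        exact ⟨s, hs.trans (List.sublist_cons_self g q'), hsx⟩
      · obtain ⟨y, hy, rfl⟩ := Finset.mem_image.mp hx
        obtain ⟨s, hs, hsy⟩ := hR y hy
        refine ⟨g :: s, hs.cons_cons g, ?_⟩
        rw [List.prod_cons, Equiv.Perm.mul_apply, hsy]
    · rw [List.length_cons]
      by_contra hcon
      have hle : (R ∪ R.image g).card ≤ R.card := by omega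
      have h1 : R = R ∪ R.image g := Finset.eq_of_subset_of_card_le Finset.subset_union_left hle
      have h2 : R.image g ⊆ R := by
        intro x hx
        rw [h1]
        exact Finset.mem_union_right _ hx
      have h3 : R.image g = R := Finset.eq_of_subset_of_card_le h2
        (by rw [Finset.card_image_of_injective _ g.injective])
      have h4 : p ∈ R.image g := by rw [h3]; exact hpR
      obtain ⟨y, hy, hyp⟩ := Finset.mem_image.mp h4
      obtain ⟨s, hs, hsy⟩ := hR y hy
      refine hq (g :: s) (hs.cons_cons g) (List.cons_ne_nil _ _) ?_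
      rw [List.prod_cons, Equiv.Perm.mul_apply, hsy, hyp]

theorem derive_point {α : Type} [Fintype α] [DecidableEq α] (H : Subgroup (Perm α))
    (B : Finset α) (hB : ∀ g ∈ H, ∀ x ∈ B, g x ∈ B) (p : α) (hp : p ∈ B)
    (l : List (Perm α)) (hl : ∀ g ∈ l, g ∈ H) :
    ∃ z : List (Perm α), Der z l ∧ (∀ g ∈ z, g ∈ H ∧ g p = p) ∧
      (l.length : ℝ) + 1 ≤ (B.card : ℝ) * ((z.length : ℝ) + 1) := by
  refine derive H {g | g p = p} (B.card : ℝ) ?_ l hl
  intro q hqH hq
  obtain ⟨R, hR, -, hcard⟩ := reach_grow p q hq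
  have hRB : R ⊆ B := by
    intro x hx
    obtain ⟨s, hs, rfl⟩ := hR x hx
    have hsH : s.prod ∈ H := Subgroup.list_prod_mem H (fun g hg => hqH g (hs.subset hg))
    exact hB _ hsH p hp
  have := hcard.trans (Finset.card_le_card hRB)
  exact_mod_cast this

end Pool.Agent.Lib.MP_c6e9f4_al.Exp
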