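import Pool.Agent.Lib.MP_c6e9f4_al.Exp.A3
import Pool.Agent.Lib.MP_c6e9f4_al.Exp.A4

/-!
A5. Davenport bounds. `DN_factorial`: a bad list has fewer than `n!` entries (the products of the
prefixes are distinct).
-/

set_option autoImplicit false

namespace Pool.Agent.Lib.MP_c6e9f4_al.Exp

open Equiv (Perm)

theorem A5_prefix_ne {G : Type*} [Group G] {l : List G} (hb : Bad l) {i j : ℕ} (hij : i < j)
    (hj : j ≤ l.length) : (l.take i).prod ≠ (l.take j).prod := by
  intro h
  have h1 : (l.take j).take i ++ (l.take j).drop i = l.take j := List.take_append_drop i _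
  have h2 : (l.take j).take i = l.take i := by
    rw [List.take_take, min_eq_left hij.le]
  rw [h2] at h1
  rw [← h1, List.prod_append] at h
  have h3 : ((l.take j).drop i).prod = 1 := by
    have h4 : (l.take i).prod * 1 = (l.take i).prod * ((l.take j).drop i).prod := by
      rw [mul_one]
      exact h
    exact (mul_left_cancel h4).symm
  refine hb ((l.take j).drop i) ((List.drop_sublist i _).trans (List.take_sublist j l)) ?_ h3
  intro hc
  have h5 := congrArg List.length hc
  rw [List.length_drop, List.length_take, List.length_nil] at h5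
  omega

theorem DN_factorial (n : ℕ) : DN n (n.factorial : ℝ) := by
  intro α _ _ hα l _ hb
  have hinj : Function.Injective (fun i : Fin (l.length + 1) => (l.take i).prod) := by
    intro i j hij
    by_contra hne
    rcases lt_or_gt_of_ne hne with h | h
    · exact A5_prefix_ne hb (Fin.lt_def.1 h) (Nat.le_of_lt_succ j.2) hij
    · exact A5_prefix_ne hb (Fin.lt_def.1 h) (Nat.le_of_lt_succ i.2) hij.symm
  have hcard := Fintype.card_le_of_injective _ hinj
  rw [Fintype.card_fin, Fintype.card_perm, hα] at hcard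
  exact_mod_cast hcard

theorem DN.mono {n : ℕ} {d d' : ℝ} (h : DN n d) (hd : d ≤ d') : DN n d' :=
  fun α _ _ hα l hl hb => (h α hα l hl hb).trans hd

theorem A5_bad_nil {G : Type*} [Group G] : Bad ([] : List G) :=
  fun _ hs hne => absurd (List.sublist_nil.1 hs) hne

theorem DN.one_le {n : ℕ} {d : ℝ} (h : DN n d) : 1 ≤ d := by
  have h1 := h (Fin n) (Fintype.card_fin n) [] (fun _ _ => Set.mem_univ _) A5_bad_nil
  simpa using h1

theorem DB.mono {G : Type*} [Group G] {H : Set G} {d d' : ℝ} (h : DB H d) (hd : d ≤ d') :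
    DB H d' :=
  fun l hl hb => (h l hl hb).trans hd

/-- A bad list whose entries are all `1` is empty. -/
theorem A5_eq_nil {G : Type*} [Group G] {l : List G} (hb : Bad l) (h : ∀ g ∈ l, g = 1) :
    l = [] := by
  cases l with
  | nil => rfl
  | cons a t =>
    exfalso
    refine hb [a] (List.singleton_sublist.2 List.mem_cons_self) (List.cons_ne_nil _ _) ?_
    rw [List.prod_singleton]
    exact h a List.mem_cons_self

/-- the permutations fixing all points outside `B` -/
def A5_sup {α : Type} (B : Finset α) : Subgroup (Perm α) where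
  carrier := {g | ∀ x, x ∉ B → g x = x}
  mul_mem' := by
    intro a b ha hb x hx
    rw [Equiv.Perm.mul_apply, hb x hx, ha x hx]
  one_mem' := fun x _ => rfl
  inv_mem' := by
    intro a ha x hx
    rw [Equiv.Perm.inv_eq_iff_eq]
    exact (ha x hx).symm

theorem A5_sup_mem {α : Type} {B : Finset α} {g : Perm α} :
    g ∈ A5_sup B ↔ ∀ x, x ∉ B → g x = x := Iff.rfl

/-- Bad lists of permutations supported in `B`. -/
theorem DN.supp {α : Type} [Fintype α] [DecidableEq α] (B : Finset α) {d : ℝ}
    (hd : DN B.card d) (l : List (Perm α)) (hl : ∀ g ∈ l, ∀ x, x ∉ B → g x = x) (hb : Bad l) :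
    (l.length : ℝ) + 1 ≤ d := by
  have hR : ∀ g ∈ A5_sup B, ∀ x ∈ B, g x ∈ B := by
    intro g hg x hx
    by_contra hc
    have h1 := A5_sup_mem.1 hg (g x) hc
    have h2 : g x = x := g.injective h1
    rw [h2] at hc
    exact hc hx
  obtain ⟨z, hz, hzm, hlen⟩ := derive_fix (A5_sup B) B hR hd l (fun g hg => A5_sup_mem.2 (hl g hg))
  have hz1 : z = [] := by
    refine A5_eq_nil (hz.bad hb) (fun g hg => ?_)
    obtain ⟨h1, h2⟩ := hzm g hg
    ext x
    by_cases hx : x ∈ B
    · rw [h2 x hx, Equiv.Perm.one_apply]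
    · rw [A5_sup_mem.1 h1 x hx, Equiv.Perm.one_apply]
  rw [hz1, List.length_nil, Nat.cast_zero, zero_add, mul_one] at hlen
  exact hlen

theorem DB.of_fix {α : Type} [Fintype α] [DecidableEq α] (H : Subgroup (Perm α)) (R : Finset α)
    (hR : ∀ g ∈ H, ∀ x ∈ R, g x ∈ R) {d d' : ℝ} (hd : DN R.card d)
    (hd' : DB (fixS H R : Set (Perm α)) d') : DB (H : Set (Perm α)) (d * d') := by
  intro l hl hb
  obtain ⟨z, hz, hzm, hlen⟩ := derive_fix H R hR hd l hl
  refine hlen.trans (mul_le_mul_of_nonneg_left ?_ (zero_le_one.trans hd.one_le))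
  exact hd' z (fun g hg => hzm g hg) (hz.bad hb)

theorem DB.of_point {α : Type} [Fintype α] [DecidableEq α] (H : Subgroup (Perm α))
    (B : Finset α) (hB : ∀ g ∈ H, ∀ x ∈ B, g x ∈ B) (p : α) (hp : p ∈ B) {d : ℝ}
    (hd : DB (fixS H {p} : Set (Perm α)) d) : DB (H : Set (Perm α)) ((B.card : ℝ) * d) := by
  intro l hl hb
  obtain ⟨z, hz, hzm, hlen⟩ := derive_point H B hB p hp l hl
  refine hlen.trans (mul_le_mul_of_nonneg_left ?_ (Nat.cast_nonneg _))
  refine hd z (fun g hg => ?_) (hz.bad hb)
  obtain ⟨h1, h2⟩ := hzm g hg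
  refine ⟨h1, fun x hx => ?_⟩
  rw [Finset.mem_singleton] at hx
  rw [hx]
  exact h2

/-- The trivial group. -/
theorem DB.trivial {α : Type} [Fintype α] [DecidableEq α] (H : Subgroup (Perm α))
    (hH : ∀ g ∈ H, g = 1) : DB (H : Set (Perm α)) 1 := by
  intro l hl hb
  have h1 := A5_eq_nil hb (fun g hg => hH g (hl g hg))
  rw [h1, List.length_nil, Nat.cast_zero, zero_add]

theorem IH.mono {C : ℝ} {n m : ℕ} (h : IH C n) (hm : m ≤ n) : IH C m :=
  fun k hk => h k (hk.trans_le hm)

end Pool.Agent.Lib.MP_c6e9f4_al.Exp
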