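import Pool.Agent.Lib.MP_c6e9f4_al.Exp.Defs

/-!
N1. Numerical facts on `E x = x - x^(4/5)`. Write `b = 4/5`.
`E_room`: `m^b + (n-m)^b - n^b ≥ (2 - 2^b) m^b` for `2 m ≤ n`: concavity of `x^b`
(`Real.concaveOn_rpow`): the increment over `[n-m, n]` is at most the one over `[m, 2m]`.
`E_block`: `E(st) - E s - s E t = (t^b - 1)(s - s^b)`, and `t^b - 1 ≥ (1 - 2^(-b)) t^b`,
`s - s^b = s^b (s^(1/5) - 1) ≥ (2^(1/5) - 1) s^b`.
-/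

set_option autoImplicit false

namespace Pool.Agent.Lib.MP_c6e9f4_al.Exp

open Equiv (Perm)

theorem N1_two_rpow_four_fifths_pow : ((2 : ℝ) ^ (4 / 5 : ℝ)) ^ (5 : ℕ) = 16 := by
  rw [← Real.rpow_natCast, ← Real.rpow_mul (by norm_num)]
  norm_num

theorem N1_two_rpow_one_fifth_pow : ((2 : ℝ) ^ (1 / 5 : ℝ)) ^ (5 : ℕ) = 2 := by
  rw [← Real.rpow_natCast, ← Real.rpow_mul (by norm_num)]
  norm_num

theorem N1_two_ge : 1.74 ≤ (2 : ℝ) ^ (4 / 5 : ℝ) := by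
  have h0 : (0 : ℝ) ≤ (2 : ℝ) ^ (4 / 5 : ℝ) := by positivity
  have h1 : (1.74 : ℝ) ^ 5 ≤ ((2 : ℝ) ^ (4 / 5 : ℝ)) ^ (5 : ℕ) := by
    rw [N1_two_rpow_four_fifths_pow]; norm_num
  exact le_of_pow_le_pow_left₀ (by norm_num) h0 h1

theorem N1_fifth_ge : 1.148 ≤ (2 : ℝ) ^ (1 / 5 : ℝ) := by
  have h0 : (0 : ℝ) ≤ (2 : ℝ) ^ (1 / 5 : ℝ) := by positivity
  have h1 : (1.148 : ℝ) ^ 5 ≤ ((2 : ℝ) ^ (1 / 5 : ℝ)) ^ (5 : ℕ) := by
    rw [N1_two_rpow_one_fifth_pow]; norm_num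
  exact le_of_pow_le_pow_left₀ (by norm_num) h0 h1

theorem N1_neg_le : (2 : ℝ) ^ (-(4 / 5) : ℝ) ≤ 1 / 1.74 := by
  rw [Real.rpow_neg (by norm_num), ← one_div]
  exact one_div_le_one_div_of_le (by norm_num) N1_two_ge

theorem kap_pos : 0 < kap := by
  have h : (2 : ℝ) ^ (4 / 5 : ℝ) < (2 : ℝ) ^ (1 : ℝ) :=
    Real.rpow_lt_rpow_of_exponent_lt (by norm_num) (by norm_num)
  rw [Real.rpow_one] at h
  unfold kap
  linarith

theorem kap_le : kap ≤ 0.26 := by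
  have h := N1_two_ge
  unfold kap
  linarith

theorem c3_ge : 0.06 ≤ c3 := by
  have h1 := N1_fifth_ge
  have h2 := N1_neg_le
  unfold c3
  have h3 : (0.148 : ℝ) ≤ 2 ^ (1 / 5 : ℝ) - 1 := by linarith
  have h4 : (1 - 1 / 1.74 : ℝ) ≤ 1 - 2 ^ (-(4 / 5) : ℝ) := by linarith
  calc (0.06 : ℝ) ≤ 0.148 * (1 - 1 / 1.74) := by norm_num
    _ ≤ _ := mul_le_mul h3 h4 (by norm_num) (by linarith)

theorem c3_pos : 0 < c3 := lt_of_lt_of_le (by norm_num) c3_ge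

theorem c3_le : c3 ≤ 2 ^ (1 / 5 : ℝ) - 1 := by
  have h1 := N1_fifth_ge
  have h2 : (0 : ℝ) ≤ 2 ^ (-(4 / 5) : ℝ) := by positivity
  unfold c3
  have h3 : (0 : ℝ) ≤ 2 ^ (1 / 5 : ℝ) - 1 := by linarith
  nlinarith [mul_nonneg h3 h2]

theorem E_nonneg (n : ℕ) : 0 ≤ E n := by
  unfold E
  rcases Nat.eq_zero_or_pos n with h | h
  · subst h
    norm_num
  · have h1 : (1 : ℝ) ≤ n := by exact_mod_cast h
    have h2 : (n : ℝ) ^ (4 / 5 : ℝ) ≤ (n : ℝ) ^ (1 : ℝ) :=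
      Real.rpow_le_rpow_of_exponent_le h1 (by norm_num)
    rw [Real.rpow_one] at h2
    linarith

theorem E_le (n : ℕ) : E n ≤ n := by
  unfold E
  have : (0 : ℝ) ≤ (n : ℝ) ^ (4 / 5 : ℝ) := by positivity
  linarith

theorem E_mono {m n : ℕ} (h : m ≤ n) : E m ≤ E n := by
  rcases Nat.eq_zero_or_pos m with h0 | h0
  · subst h0
    have : E ((0 : ℕ) : ℝ) = 0 := by unfold E; norm_num
    rw [this]
    exact E_nonneg n
  · have h1 : (1 : ℝ) ≤ m := by exact_mod_cast h0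
    have h2 : (m : ℝ) ≤ n := by exact_mod_cast h
    have hm : (0 : ℝ) < m := by linarith
    have h3 : (1 : ℝ) ≤ n / m := by rwa [le_div_iff₀ hm, one_mul]
    have h4 : ((n : ℝ) / m) ^ (4 / 5 : ℝ) ≤ (n : ℝ) / m := by
      have := Real.rpow_le_rpow_of_exponent_le h3 (show (4 / 5 : ℝ) ≤ 1 by norm_num)
      rwa [Real.rpow_one] at this
    have h5 : (n : ℝ) ^ (4 / 5 : ℝ) = (m : ℝ) ^ (4 / 5 : ℝ) * ((n : ℝ) / m) ^ (4 / 5 : ℝ) := by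
      rw [← Real.mul_rpow hm.le (by positivity), mul_div_cancel₀ _ hm.ne']
    have h6 : (m : ℝ) ^ (4 / 5 : ℝ) ≤ m := by
      have := Real.rpow_le_rpow_of_exponent_le h1 (show (4 / 5 : ℝ) ≤ 1 by norm_num)
      rwa [Real.rpow_one] at this
    have h7 : (0 : ℝ) ≤ (m : ℝ) ^ (4 / 5 : ℝ) := by positivity
    unfold E
    have h8 : (n : ℝ) ^ (4 / 5 : ℝ) ≤ (m : ℝ) ^ (4 / 5 : ℝ) * ((n : ℝ) / m) := by
      rw [h5]; exact mul_le_mul_of_nonneg_left h4 h7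
    have h9 : (m : ℝ) ^ (4 / 5 : ℝ) * ((n : ℝ) / m - 1) ≤ m * ((n : ℝ) / m - 1) :=
      mul_le_mul_of_nonneg_right h6 (by linarith)
    have h10 : (m : ℝ) * ((n : ℝ) / m - 1) = n - m := by
      field_simp
    nlinarith

theorem E_two : E (2 : ℕ) = kap := by
  unfold E kap
  norm_num

theorem N1_concave {x y h : ℝ} (hx : 0 ≤ x) (hxy : x ≤ y) (hh : 0 < h) :
    (y + h) ^ (4 / 5 : ℝ) + x ^ (4 / 5 : ℝ) ≤ (x + h) ^ (4 / 5 : ℝ) + y ^ (4 / 5 : ℝ) := by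
  have hc := Real.concaveOn_rpow (p := 4 / 5) (by norm_num) (by norm_num)
  have hD : 0 < y + h - x := by linarith
  have hx' : x ∈ Set.Ici (0 : ℝ) := hx
  have hy' : y + h ∈ Set.Ici (0 : ℝ) := by
    show (0 : ℝ) ≤ y + h
    linarith
  have e1 : (y - x) / (y + h - x) + h / (y + h - x) = 1 := by
    rw [← add_div, div_eq_one_iff_eq hD.ne']; ring
  have e2 : h / (y + h - x) + (y - x) / (y + h - x) = 1 := by rw [add_comm]; exact e1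
  have n1 : 0 ≤ (y - x) / (y + h - x) := div_nonneg (by linarith) hD.le
  have n2 : 0 ≤ h / (y + h - x) := div_nonneg hh.le hD.le
  have k1 := hc.2 hx' hy' n1 n2 e1
  have k2 := hc.2 hx' hy' n2 n1 e2
  simp only [smul_eq_mul] at k1 k2
  have p1 : (y - x) / (y + h - x) * x + h / (y + h - x) * (y + h) = x + h := by
    field_simp; ring
  have p2 : h / (y + h - x) * x + (y - x) / (y + h - x) * (y + h) = y := by
    field_simp; ring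
  rw [p1] at k1
  rw [p2] at k2
  have q : ((y - x) / (y + h - x) * x ^ (4 / 5 : ℝ) + h / (y + h - x) * (y + h) ^ (4 / 5 : ℝ))
      + (h / (y + h - x) * x ^ (4 / 5 : ℝ) + (y - x) / (y + h - x) * (y + h) ^ (4 / 5 : ℝ))
      = (y + h) ^ (4 / 5 : ℝ) + x ^ (4 / 5 : ℝ) := by
    have : ((y - x) / (y + h - x) * x ^ (4 / 5 : ℝ) + h / (y + h - x) * (y + h) ^ (4 / 5 : ℝ))
      + (h / (y + h - x) * x ^ (4 / 5 : ℝ) + (y - x) / (y + h - x) * (y + h) ^ (4 / 5 : ℝ))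
      = ((y - x) / (y + h - x) + h / (y + h - x)) * (x ^ (4 / 5 : ℝ) + (y + h) ^ (4 / 5 : ℝ)) := by
      ring
    rw [this, e1]; ring
  linarith

theorem E_room {m n : ℕ} (h1 : 1 ≤ m) (h2 : 2 * m ≤ n) :
    E m + E (n - m : ℕ) ≤ E n - kap * (m : ℝ) ^ (4 / 5 : ℝ) := by
  have hm : (0 : ℝ) < m := by exact_mod_cast h1
  have h2' : (2 : ℝ) * m ≤ n := by exact_mod_cast h2
  have hsub : ((n - m : ℕ) : ℝ) = (n : ℝ) - m := by
    rw [Nat.cast_sub (by omega)]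
  have hc := N1_concave (x := m) (y := (n : ℝ) - m) (h := m) hm.le (by linarith) hm
  rw [sub_add_cancel] at hc
  have h3 : ((m : ℝ) + m) ^ (4 / 5 : ℝ) = (2 : ℝ) ^ (4 / 5 : ℝ) * (m : ℝ) ^ (4 / 5 : ℝ) := by
    rw [← Real.mul_rpow (by norm_num) hm.le]; ring_nf
  rw [h3] at hc
  unfold E kap
  rw [hsub]
  linarith

theorem E_block {s t : ℕ} (hs : 2 ≤ s) (ht : 2 ≤ t) :
    E s + s * E t ≤ E (s * t : ℕ) - c3 * ((s * t : ℕ) : ℝ) ^ (4 / 5 : ℝ) := by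
  have hs' : (2 : ℝ) ≤ s := by exact_mod_cast hs
  have ht' : (2 : ℝ) ≤ t := by exact_mod_cast ht
  have hs0 : (0 : ℝ) < s := by linarith
  have ht0 : (0 : ℝ) < t := by linarith
  have hst : ((s * t : ℕ) : ℝ) = (s : ℝ) * t := by push_cast; ring
  have hmul : ((s : ℝ) * t) ^ (4 / 5 : ℝ) = (s : ℝ) ^ (4 / 5 : ℝ) * (t : ℝ) ^ (4 / 5 : ℝ) :=
    Real.mul_rpow hs0.le ht0.le
  have hsp : (0 : ℝ) < (s : ℝ) ^ (4 / 5 : ℝ) := by positivity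
  have htp : (0 : ℝ) < (t : ℝ) ^ (4 / 5 : ℝ) := by positivity
  have a1 : (1 - 2 ^ (-(4 / 5) : ℝ)) * (t : ℝ) ^ (4 / 5 : ℝ) ≤ (t : ℝ) ^ (4 / 5 : ℝ) - 1 := by
    have h1 : (1 : ℝ) ≤ 2 ^ (-(4 / 5) : ℝ) * (t : ℝ) ^ (4 / 5 : ℝ) := by
      rw [Real.rpow_neg (by norm_num), ← Real.inv_rpow (by norm_num),
        ← Real.mul_rpow (by norm_num) ht0.le]
      exact Real.one_le_rpow (by linarith) (by norm_num)
    linarith
  have a2 : (2 ^ (1 / 5 : ℝ) - 1) * (s : ℝ) ^ (4 / 5 : ℝ) ≤ (s : ℝ) - (s : ℝ) ^ (4 / 5 : ℝ) := by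
    have h1 : (2 : ℝ) ^ (1 / 5 : ℝ) ≤ (s : ℝ) ^ (1 / 5 : ℝ) :=
      Real.rpow_le_rpow (by norm_num) hs' (by norm_num)
    have h2 : (s : ℝ) ^ (1 / 5 : ℝ) * (s : ℝ) ^ (4 / 5 : ℝ) = s := by
      rw [← Real.rpow_add hs0]; norm_num
    have h3 := mul_le_mul_of_nonneg_right h1 hsp.le
    rw [h2] at h3
    linarith
  have b1 : (0 : ℝ) ≤ (1 - 2 ^ (-(4 / 5) : ℝ)) * (t : ℝ) ^ (4 / 5 : ℝ) := by
    have := N1_neg_le
    have h : (0 : ℝ) ≤ 1 - 2 ^ (-(4 / 5) : ℝ) := by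
      have h' : (1 / 1.74 : ℝ) ≤ 1 := by norm_num
      linarith
    positivity
  have b2 : (0 : ℝ) ≤ (2 ^ (1 / 5 : ℝ) - 1) * (s : ℝ) ^ (4 / 5 : ℝ) := by
    have := N1_fifth_ge
    have h : (0 : ℝ) ≤ 2 ^ (1 / 5 : ℝ) - 1 := by linarith
    positivity
  have key := mul_le_mul a2 a1 b1 (b2.trans a2)
  have e : E (s * t : ℕ) - E s - s * E t
      = ((s : ℝ) - (s : ℝ) ^ (4 / 5 : ℝ)) * ((t : ℝ) ^ (4 / 5 : ℝ) - 1) := by
    unfold E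
    rw [hst, hmul]
    ring
  have f : c3 * ((s * t : ℕ) : ℝ) ^ (4 / 5 : ℝ)
      = (2 ^ (1 / 5 : ℝ) - 1) * (s : ℝ) ^ (4 / 5 : ℝ)
        * ((1 - 2 ^ (-(4 / 5) : ℝ)) * (t : ℝ) ^ (4 / 5 : ℝ)) := by
    unfold c3
    rw [hst, hmul]
    ring
  rw [f]
  linarith

/-- The slope for sets of size at most `c/2`. -/
noncomputable def lam (c : ℕ) : ℝ := 1 - ((c : ℝ) / 2) ^ (-(1 / 5) : ℝ)

theorem lam_nonneg {c : ℕ} (hc : 2 ≤ c) : 0 ≤ lam c := by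
  have hc' : (2 : ℝ) ≤ c := by exact_mod_cast hc
  unfold lam
  have h1 : ((c : ℝ) / 2) ^ (-(1 / 5) : ℝ) ≤ 1 :=
    Real.rpow_le_one_of_one_le_of_nonpos (by linarith) (by norm_num)
  linarith

theorem E_le_lam {c m : ℕ} (h1 : 1 ≤ m) (h : 2 * m ≤ c) : E m ≤ lam c * m := by
  have hm : (0 : ℝ) < m := by exact_mod_cast h1
  have h' : (2 : ℝ) * m ≤ c := by exact_mod_cast h
  have h2 : ((c : ℝ) / 2) ^ (-(1 / 5) : ℝ) ≤ (m : ℝ) ^ (-(1 / 5) : ℝ) :=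
    Real.rpow_le_rpow_of_nonpos hm (by linarith) (by norm_num)
  have h3 : (m : ℝ) ^ (-(1 / 5) : ℝ) * m = (m : ℝ) ^ (4 / 5 : ℝ) := by
    nth_rewrite 2 [← Real.rpow_one (m : ℝ)]
    rw [← Real.rpow_add hm]; norm_num
  have h4 := mul_le_mul_of_nonneg_right h2 hm.le
  rw [h3] at h4
  unfold E lam
  linarith

theorem lam_le {c : ℕ} (hc : 2 ≤ c) :
    lam c * ((c : ℝ) - 1) ≤ E c - c3 * (c : ℝ) ^ (4 / 5 : ℝ) := by
  have hc' : (2 : ℝ) ≤ c := by exact_mod_cast hc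
  have hc0 : (0 : ℝ) < c := by linarith
  have h0 := lam_nonneg hc
  have h1 : ((c : ℝ) / 2) ^ (-(1 / 5) : ℝ) * c = 2 ^ (1 / 5 : ℝ) * (c : ℝ) ^ (4 / 5 : ℝ) := by
    rw [Real.div_rpow hc0.le (by norm_num), Real.rpow_neg (by norm_num : (0 : ℝ) ≤ 2)]
    have h3 : (c : ℝ) ^ (-(1 / 5) : ℝ) * c = (c : ℝ) ^ (4 / 5 : ℝ) := by
      nth_rewrite 2 [← Real.rpow_one (c : ℝ)]
      rw [← Real.rpow_add hc0]; norm_num
    rw [div_inv_eq_mul, mul_right_comm, h3, mul_comm]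
  have h2 := c3_le
  have h3 : (0 : ℝ) ≤ (c : ℝ) ^ (4 / 5 : ℝ) := by positivity
  have h4 := mul_le_mul_of_nonneg_right h2 h3
  unfold lam at h0 ⊢
  unfold E
  have e : (1 - ((c : ℝ) / 2) ^ (-(1 / 5) : ℝ)) * ((c : ℝ) - 1)
      = c - ((c : ℝ) / 2) ^ (-(1 / 5) : ℝ) * c - (1 - ((c : ℝ) / 2) ^ (-(1 / 5) : ℝ)) := by ring
  rw [e, h1]
  linarith

theorem rpow_add_le {x y : ℝ} (hx : 0 ≤ x) (hy : 0 ≤ y) :
    (x + y) ^ (4 / 5 : ℝ) ≤ x ^ (4 / 5 : ℝ) + y ^ (4 / 5 : ℝ) := by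
  rcases hx.eq_or_lt with h | h
  · rw [← h, zero_add, Real.zero_rpow (by norm_num), zero_add]
  · have := N1_concave (x := 0) (y := y) (h := x) le_rfl hy h
    rw [Real.zero_rpow (by norm_num), add_zero, zero_add, add_comm y x] at this
    exact this

end Pool.Agent.Lib.MP_c6e9f4_al.Exp
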