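import Pool.Agent.Lib.MP_c6e9f4_al.Exp.A5
import Pool.Agent.Lib.MP_c6e9f4_al.Exp.N1

/-!
A6. The interval lemma: a bad list preserving a set `R` of `m` points has
`|l| + 1 ≤ D(m) D(n-m) ≤ C^(E m + E (n-m))`. Kill `R` (`derive_fix` with `H` = the subgroup
preserving `R`), then `DN.supp` for the complement of `R`.
-/

set_option autoImplicit false

namespace Pool.Agent.Lib.MP_c6e9f4_al.Exp

open Equiv (Perm)

/-- the permutations preserving the finite set `R` -/
def A6_pres {α : Type} (R : Finset α) : Subgroup (Perm α) where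
  carrier := {g | ∀ x ∈ R, g x ∈ R}
  mul_mem' := by
    intro a b ha hb x hx
    rw [Equiv.Perm.mul_apply]
    exact ha _ (hb x hx)
  one_mem' := fun x hx => hx
  inv_mem' := by
    intro a ha x hx
    obtain ⟨y, hy, hyx⟩ := Finset.surj_on_of_inj_on_of_card_le (s := R) (t := R)
      (fun y _ => a y) (fun y hy => ha y hy) (fun y z _ _ h => a.injective h) le_rfl x hx
    have h1 : a⁻¹ x = y := by
      rw [Equiv.Perm.inv_eq_iff_eq]
      exact hyx
    rw [h1]
    exact hy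

theorem interval_lemma {C : ℝ} (hC : 1 ≤ C) {n : ℕ} (ih : IH C n) {α : Type} [Fintype α]
    [DecidableEq α] (hα : Fintype.card α = n) (l : List (Perm α)) (hl : Bad l) (R : Finset α)
    (hR : ∀ g ∈ l, ∀ x ∈ R, g x ∈ R) (h1 : 1 ≤ R.card) (h2 : 2 * R.card ≤ n) :
    (l.length : ℝ) + 1 ≤ C ^ (E n - kap * (R.card : ℝ) ^ (4 / 5 : ℝ)) := by
  have hC0 : 0 < C := lt_of_lt_of_le one_pos hC
  have hm : DN R.card (C ^ E R.card) := ih R.card (by omega)
  have hc : Rᶜ.card = n - R.card := by rw [Finset.card_compl, hα]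
  have hm' : DN Rᶜ.card (C ^ E (n - R.card : ℕ)) := by
    rw [hc]
    exact ih (n - R.card) (by omega)
  obtain ⟨z, hz, hzm, hlen⟩ := derive_fix (A6_pres R) R (fun g hg => hg) hm l hR
  have hz1 : (z.length : ℝ) + 1 ≤ C ^ E (n - R.card : ℕ) := by
    refine DN.supp Rᶜ hm' z (fun g hg x hx => ?_) (hz.bad hl)
    obtain ⟨_, h4⟩ := hzm g hg
    refine h4 x ?_
    rw [Finset.mem_compl, not_not] at hx
    exact hx
  calc (l.length : ℝ) + 1 ≤ C ^ E R.card * ((z.length : ℝ) + 1) := hlen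
    _ ≤ C ^ E R.card * C ^ E (n - R.card : ℕ) :=
        mul_le_mul_of_nonneg_left hz1 (Real.rpow_nonneg hC0.le _)
    _ = C ^ (E R.card + E (n - R.card : ℕ)) := (Real.rpow_add hC0 _ _).symm
    _ ≤ _ := Real.rpow_le_rpow_of_exponent_le hC (E_room h1 h2)

end Pool.Agent.Lib.MP_c6e9f4_al.Exp
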