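import Mathlib

/-!
# Definitions for the exponential upper bound (ordered Davenport constant of symmetric groups)
-/

set_option autoImplicit false

namespace Pool.Agent.Lib.MP_c6e9f4_al.Exp

open Equiv (Perm)

/-- A list is *bad* if no nonempty sublist has product one. -/
def Bad {G : Type*} [Group G] (l : List G) : Prop :=
  ∀ s : List G, s.Sublist l → s ≠ [] → s.prod ≠ 1

/-- `z` is *derived* from `l`: its entries are products of nonempty lists whose concatenation is a
sublist of `l`. -/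
def Der {G : Type*} [Group G] (z l : List G) : Prop :=
  ∃ S : List (List G), (∀ s ∈ S, s ≠ []) ∧ S.flatten.Sublist l ∧ z = S.map List.prod

/-- The set of products of sublists of `l`. -/
def Pi {G : Type*} [Group G] (l : List G) : Set G := {g | ∃ s : List G, s.Sublist l ∧ s.prod = g}

/-- Every bad list with entries in `H` has length at most `d - 1`. -/
def DB {G : Type*} [Group G] (H : Set G) (d : ℝ) : Prop :=
  ∀ l : List G, (∀ g ∈ l, g ∈ H) → Bad l → (l.length : ℝ) + 1 ≤ d

/-- The ordered Davenport constant of the symmetric group of degree `n` is at most `d`. -/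
def DN (n : ℕ) (d : ℝ) : Prop :=
  ∀ (α : Type) [Fintype α] [DecidableEq α], Fintype.card α = n →
    DB (Set.univ : Set (Perm α)) d

/-- The exponent `E x = x - x ^ (4/5)`. -/
noncomputable def E (x : ℝ) : ℝ := x - x ^ (4 / 5 : ℝ)

/-- The constant `κ = 2 - 2 ^ (4/5)`. -/
noncomputable def kap : ℝ := 2 - 2 ^ (4 / 5 : ℝ)

/-- The constant of the orbital lemma. -/
noncomputable def c3 : ℝ := (2 ^ (1 / 5 : ℝ) - 1) * (1 - 2 ^ (-(4 / 5) : ℝ))

/-- The deficiency `r n = κ (n/20)^(4/5)`. -/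
noncomputable def rr (n : ℕ) : ℝ := kap * ((n : ℝ) / 20) ^ (4 / 5 : ℝ)

/-- The transitivity degree `k n = ⌊n^(3/4)⌋`. -/
noncomputable def kk (n : ℕ) : ℕ := ⌊(n : ℝ) ^ (3 / 4 : ℝ)⌋₊

/-- The induction hypothesis: `D(m) ≤ C ^ E m` for all `m < n`. -/
def IH (C : ℝ) (n : ℕ) : Prop := ∀ m : ℕ, m < n → DN m (C ^ E m)

/-- All permutations in `H` fix the points outside `B`. -/
def SuppIn {α : Type} (H : Set (Perm α)) (B : Finset α) : Prop :=
  ∀ g ∈ H, ∀ x, x ∉ B → g x = x

/-- `H` is transitive on `B`. -/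
def TransOn {α : Type} (H : Subgroup (Perm α)) (B : Finset α) : Prop :=
  ∀ x ∈ B, ∀ y ∈ B, ∃ h ∈ H, h x = y

/-- `H` is `k`-transitive on `B`, in the form: every injective tuple in `B` of length at most `k`
can be moved to every other one. -/
def KT {α : Type} (H : Subgroup (Perm α)) (B : Finset α) (k : ℕ) : Prop :=
  ∀ (m : ℕ) (f g : Fin m → α), m ≤ k → Function.Injective f → Function.Injective g →
    (∀ i, f i ∈ B) → (∀ i, g i ∈ B) → ∃ h ∈ H, ∀ i, h (f i) = g i

/-- The pointwise stabiliser of `F` in `H`. -/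
def fixS {α : Type} (H : Subgroup (Perm α)) (F : Finset α) : Subgroup (Perm α) where
  carrier := {g | g ∈ H ∧ ∀ x ∈ F, g x = x}
  mul_mem' := by
    rintro a b ⟨ha, ha'⟩ ⟨hb, hb'⟩
    exact ⟨H.mul_mem ha hb, fun x hx => by rw [Equiv.Perm.mul_apply, hb' x hx, ha' x hx]⟩
  one_mem' := ⟨H.one_mem, fun x _ => rfl⟩
  inv_mem' := by
    rintro a ⟨ha, ha'⟩
    refine ⟨H.inv_mem ha, fun x hx => ?_⟩
    rw [Equiv.Perm.inv_eq_iff_eq]
    exact (ha' x hx).symm

/-- The even permutations of `B` (fixing all points outside `B`). -/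
def AltB {α : Type} [Fintype α] [DecidableEq α] (B : Finset α) : Set (Perm α) :=
  {h | Equiv.Perm.sign h = 1 ∧ ∀ x, x ∉ B → h x = x}

/-- A length function on a group. -/
structure LenFun {G : Type*} [Group G] (ρ : G → ℝ) : Prop where
  nonneg : ∀ g, 0 ≤ ρ g
  one : ρ 1 = 0
  mul_le : ∀ g h, ρ (g * h) ≤ ρ g + ρ h
  inv : ∀ g, ρ g⁻¹ = ρ g

end Pool.Agent.Lib.MP_c6e9f4_al.Exp
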