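import Pool.Agent.Lib.MP_c6e9f4_al.Exp.Defs

/-!
F1. A partial injection of `B` defined on `D`, `|D| + 2 ≤ |B|`, extends to a permutation of `B` of given
sign (`Equiv.extendSubtype`, then multiply with a transposition of two points of `B \ D`).
-/

set_option autoImplicit false

namespace Pool.Agent.Lib.MP_c6e9f4_al.Exp

open Equiv (Perm)

theorem exists_ext {α : Type} [Fintype α] [DecidableEq α] (B D : Finset α) (hD : D ⊆ B)
    (t : α → α) (ht : Set.InjOn t D) (htB : ∀ x ∈ D, t x ∈ B) (hcard : D.card + 2 ≤ B.card)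
    (ε : ℤˣ) : ∃ κ : Perm α, Equiv.Perm.sign κ = ε ∧ (∀ x, x ∉ B → κ x = x) ∧
      ∀ x ∈ D, κ x = t x := by
  -- extension without the sign
  obtain ⟨κ, h1, h2⟩ : ∃ κ : Perm α, (∀ x, x ∉ B → κ x = x) ∧ ∀ x ∈ D, κ x = t x := by
    let f : α → α := fun x => if x ∈ D then t x else x
    have hf : Set.InjOn f ((D ∪ Bᶜ : Finset α) : Set α) := by
      intro x hx y hy hxy
      simp only [Finset.coe_union, Set.mem_union, Finset.mem_coe, Finset.mem_compl] at hx hy
      by_cases hxD : x ∈ D
      · by_cases hyD : y ∈ D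
        · simp only [f, if_pos hxD, if_pos hyD] at hxy
          exact ht hxD hyD hxy
        · have hyB : y ∉ B := by tauto
          simp only [f, if_pos hxD, if_neg hyD] at hxy
          exact absurd (hxy ▸ htB x hxD) hyB
      · have hxB : x ∉ B := by tauto
        by_cases hyD : y ∈ D
        · simp only [f, if_neg hxD, if_pos hyD] at hxy
          exact absurd (hxy ▸ htB y hyD) hxB
        · simpa only [f, if_neg hxD, if_neg hyD] using hxy
    obtain ⟨g, hg⟩ := Finset.exists_equiv_extend_of_card_eq (α := α) (β := α)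
      (t := Finset.univ) (by simp) (s := D ∪ Bᶜ) (f := f) (Finset.subset_univ _) hf
    let κ : Perm α := g.trans (Equiv.subtypeUnivEquiv (fun x => Finset.mem_univ x))
    have hκ : ∀ x, κ x = (g x : α) := fun x => rfl
    refine ⟨κ, fun x hx => ?_, fun x hx => ?_⟩
    · rw [hκ, hg x (Finset.mem_union_right _ (Finset.mem_compl.2 hx))]
      have hxD : x ∉ D := fun h => hx (hD h)
      simp only [f, if_neg hxD]
    · rw [hκ, hg x (Finset.mem_union_left _ hx)]
      simp only [f, if_pos hx]
  by_cases hs : Equiv.Perm.sign κ = ε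
  · exact ⟨κ, hs, h1, h2⟩
  · have h3 : 1 < (B \ D).card := by
      rw [Finset.card_sdiff_of_subset hD]
      omega
    obtain ⟨a, ha, b, hb, hab⟩ := Finset.one_lt_card.1 h3
    rw [Finset.mem_sdiff] at ha hb
    have hne : ∀ x, x ≠ a → x ≠ b → (κ * Equiv.swap a b) x = κ x := by
      intro x hxa hxb
      rw [Equiv.Perm.mul_apply, Equiv.swap_apply_of_ne_of_ne hxa hxb]
    refine ⟨κ * Equiv.swap a b, ?_, fun x hx => ?_, fun x hx => ?_⟩
    · rw [Equiv.Perm.sign_mul, Equiv.Perm.sign_swap hab]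
      rcases Int.units_eq_one_or (Equiv.Perm.sign κ) with h | h <;>
        rcases Int.units_eq_one_or ε with h' | h' <;> simp_all
    · rw [hne x (fun h => hx (h ▸ ha.1)) (fun h => hx (h ▸ hb.1)), h1 x hx]
    · rw [hne x (fun h => ha.2 (h ▸ hx)) (fun h => hb.2 (h ▸ hx)), h2 x hx]

end Pool.Agent.Lib.MP_c6e9f4_al.Exp
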