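import Pool.Agent.Lib.MP_c6e9f4_al.Exp.F1

/-!
F2. States of the freeing argument and their transition (see the proof text, step 6).
`Inv P ε F Γ S c0`: `P` contains every `σ` of sign `ε` with `σ = c0` on `S` and `σ (Γ \ S) ⊆ F`.
Transition: given `σ'` for the new data choose `κ'` with `κ'⁻¹` extending: for `q ∈ Γ` with
`q' = ψ⁻¹ q ∈ B`: `q' ↦ σ'⁻¹ (c0 q)` if `q ∈ S`, `q' ↦` distinct points of `B ∩ σ'⁻¹ F` otherwise; then
`σ = σ' κ'⁻¹ ψ⁻¹ ∈ P`, `σ' = σ ψ κ'`.
-/

set_option autoImplicit false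

namespace Pool.Agent.Lib.MP_c6e9f4_al.Exp

open Equiv (Perm)

theorem F2_ai {α : Type} (σ : Perm α) (x : α) : σ (σ⁻¹ x) = x := σ.apply_symm_apply x

theorem F2_ia {α : Type} (σ : Perm α) (x : α) : σ⁻¹ (σ x) = x := σ.symm_apply_apply x

/-- `P` contains every `σ` of sign `ε` which equals `c0` on `S` and maps `Γ \ S` into `F`. -/
def Inv {α : Type} [Fintype α] [DecidableEq α] (P : Set (Perm α)) (ε : ℤˣ)
    (F Γ S : Finset α) (c0 : α → α) : Prop :=
  S ⊆ Γ ∧ (∀ q ∈ S, c0 q ∉ F) ∧ ∀ σ : Perm α, Equiv.Perm.sign σ = ε →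
    (∀ q ∈ S, σ q = c0 q) → (∀ q ∈ Γ, q ∉ S → σ q ∈ F) → σ ∈ P

theorem inv_start {α : Type} [Fintype α] [DecidableEq α] (P : Set (Perm α)) (θ : Perm α)
    (B : Finset α) (h : ∀ h ∈ AltB B, θ * h ∈ P) :
    Inv P (Equiv.Perm.sign θ) (B.image θ) Bᶜ Bᶜ θ := by
  refine ⟨Finset.Subset.refl _, ?_, ?_⟩
  · intro q hq hq'
    rw [Finset.mem_image] at hq'
    obtain ⟨b, hb, hbq⟩ := hq'
    rw [Finset.mem_compl] at hq
    exact hq ((θ.injective hbq) ▸ hb)
  · intro σ hs h1 _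
    have : σ = θ * (θ⁻¹ * σ) := by group
    rw [this]
    apply h
    refine ⟨?_, ?_⟩
    · rw [Equiv.Perm.sign_mul, Equiv.Perm.sign_inv, hs]
      exact Int.units_mul_self _
    · intro x hx
      rw [Equiv.Perm.mul_apply, h1 x (Finset.mem_compl.mpr hx), F2_ia]

theorem inv_step {α : Type} [Fintype α] [DecidableEq α] {n : ℕ} (hα : Fintype.card α = n)
    (hn : 10 ≤ n) (P P' : Set (Perm α)) (ε : ℤˣ) (F Γ S B : Finset α) (c0 : α → α)
    (hΓ : 10 * Γ.card ≤ n) (hF : 10 * (n - F.card) ≤ n) (hB : 10 * (n - B.card) ≤ n)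
    (hinv : Inv P ε F Γ S c0) (hc0 : Set.InjOn c0 S) (ψ : Perm α)
    (hP' : ∀ a ∈ P, ∀ h ∈ AltB B, a * ψ * h ∈ P') :
    Inv P' (ε * Equiv.Perm.sign ψ) F Bᶜ (Bᶜ.filter fun q => ψ q ∈ S) (fun q => c0 (ψ q)) := by
  classical
  obtain ⟨hSΓ, hSF, hP⟩ := hinv
  refine ⟨Finset.filter_subset _ _, ?_, ?_⟩
  · intro q hq
    rw [Finset.mem_filter] at hq
    exact hSF _ hq.2
  intro σ' hs h1 h2
  have hBn : B.card ≤ n := hα ▸ Finset.card_le_univ B
  have hFn : F.card ≤ n := hα ▸ Finset.card_le_univ F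
  -- for `q ∈ S` with `ψ⁻¹ q ∈ B` the point `σ'⁻¹ (c0 q)` lies in `B`
  have key : ∀ q' ∈ B, ψ q' ∈ S → σ'⁻¹ (c0 (ψ q')) ∈ B := by
    intro q' hq' hS
    by_contra hy
    set y := σ'⁻¹ (c0 (ψ q')) with hydef
    have hσy : σ' y = c0 (ψ q') := by rw [hydef, F2_ai]
    by_cases hyS : ψ y ∈ S
    · have := h1 y (Finset.mem_filter.mpr ⟨Finset.mem_compl.mpr hy, hyS⟩)
      rw [hσy] at this
      have h3 : ψ q' = ψ y := hc0 hS hyS this
      exact hy ((ψ.injective h3) ▸ hq')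
    · have := h2 y (Finset.mem_compl.mpr hy) (by
        rw [Finset.mem_filter]
        exact fun h => hyS h.2)
      rw [hσy] at this
      exact hSF _ hS this
  -- the second type of points
  let D2 : Finset α := B.filter fun q => ψ q ∈ Γ ∧ ψ q ∉ S
  let T : Finset α := B.filter fun y => σ' y ∈ F
  let D : Finset α := B.filter fun q => ψ q ∈ Γ
  have hDcard : D.card ≤ Γ.card := by
    apply Finset.card_le_card_of_injOn ψ
    · intro q hq
      exact (Finset.mem_filter.mp hq).2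
    · exact ψ.injective.injOn
  have hD2card : D2.card ≤ D.card := by
    apply Finset.card_le_card
    intro q hq
    rw [Finset.mem_filter] at hq ⊢
    exact ⟨hq.1, hq.2.1⟩
  have hTcard : B.card ≤ T.card + (n - F.card) := by
    have e1 : B.card = T.card + (B.filter fun y => ¬ σ' y ∈ F).card :=
      (Finset.card_filter_add_card_filter_not _).symm
    have e2 : (B.filter fun y => ¬ σ' y ∈ F).card ≤ Fᶜ.card := by
      apply Finset.card_le_card_of_injOn σ'
      · intro q hq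
        rw [Finset.mem_coe, Finset.mem_filter] at hq
        exact Finset.mem_coe.mpr (Finset.mem_compl.mpr hq.2)
      · exact σ'.injective.injOn
    rw [Finset.card_compl, hα] at e2
    omega
  have hle : D2.card ≤ T.card := by omega
  obtain ⟨U, hUT, hUc⟩ := Finset.exists_subset_card_eq hle
  let e : D2 ≃ U := Finset.equivOfCardEq hUc.symm
  let t : α → α := fun q => if hq : q ∈ D2 then (e ⟨q, hq⟩ : α) else σ'⁻¹ (c0 (ψ q))
  have ht2 : ∀ q ∈ D2, t q ∈ T := by
    intro q hq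
    simp only [t, dif_pos hq]
    exact hUT (e ⟨q, hq⟩).2
  have ht1 : ∀ q ∈ D, q ∉ D2 → ψ q ∈ S ∧ t q = σ'⁻¹ (c0 (ψ q)) := by
    intro q hq hq2
    refine ⟨?_, by simp only [t, dif_neg hq2]⟩
    by_contra hcon
    apply hq2
    rw [Finset.mem_filter] at hq ⊢
    exact ⟨hq.1, hq.2, hcon⟩
  have htB : ∀ q ∈ D, t q ∈ B := by
    intro q hq
    by_cases hq2 : q ∈ D2
    · exact (Finset.mem_filter.mp (ht2 q hq2)).1
    · obtain ⟨a1, a2⟩ := ht1 q hq hq2
      rw [a2]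
      exact key q (Finset.mem_filter.mp hq).1 a1
  have hinj : Set.InjOn t D := by
    intro q hq q1 hq1 heq
    rw [Finset.mem_coe] at hq hq1
    by_cases hq2 : q ∈ D2
    · by_cases hq3 : q1 ∈ D2
      · simp only [t, dif_pos hq2, dif_pos hq3] at heq
        have := e.injective (Subtype.ext heq)
        exact congrArg Subtype.val this
      · exfalso
        obtain ⟨a1, a2⟩ := ht1 q1 hq1 hq3
        have h5 := (Finset.mem_filter.mp (ht2 q hq2)).2
        rw [heq, a2, F2_ai] at h5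
        exact hSF _ a1 h5
    · by_cases hq3 : q1 ∈ D2
      · exfalso
        obtain ⟨a1, a2⟩ := ht1 q hq hq2
        have h5 := (Finset.mem_filter.mp (ht2 q1 hq3)).2
        rw [← heq, a2, F2_ai] at h5
        exact hSF _ a1 h5
      · obtain ⟨a1, a2⟩ := ht1 q hq hq2
        obtain ⟨b1, b2⟩ := ht1 q1 hq1 hq3
        rw [a2, b2] at heq
        have h6 := hc0 a1 b1 (σ'⁻¹.injective heq)
        exact ψ.injective h6
  obtain ⟨κ, hκs, hκB, hκD⟩ := exists_ext B D (Finset.filter_subset _ _) t hinj htB (by omega) 1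
  -- the permutation `σ = σ' κ ψ⁻¹`
  have hmem : σ' * κ * ψ⁻¹ ∈ P := by
    apply hP
    · rw [Equiv.Perm.sign_mul, Equiv.Perm.sign_mul, hs, hκs, Equiv.Perm.sign_inv, mul_one, mul_assoc,
        Int.units_mul_self, mul_one]
    · intro q hq
      rw [Equiv.Perm.mul_apply, Equiv.Perm.mul_apply]
      set q' := ψ⁻¹ q with hq'
      have hψ : ψ q' = q := by rw [hq', F2_ai]
      by_cases hb : q' ∈ B
      · have hqD : q' ∈ D := Finset.mem_filter.mpr ⟨hb, by rw [hψ]; exact hSΓ hq⟩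
        have hqD2 : q' ∉ D2 := by
          intro h
          exact (Finset.mem_filter.mp h).2.2 (by rw [hψ]; exact hq)
        rw [hκD q' hqD, (ht1 q' hqD hqD2).2, F2_ai, hψ]
      · rw [hκB q' hb]
        have h7 : σ' q' = c0 (ψ q') :=
          h1 q' (Finset.mem_filter.mpr ⟨Finset.mem_compl.mpr hb, by rw [hψ]; exact hq⟩)
        rw [h7, hψ]
    · intro q hq hqS
      rw [Equiv.Perm.mul_apply, Equiv.Perm.mul_apply]
      set q' := ψ⁻¹ q with hq'
      have hψ : ψ q' = q := by rw [hq', F2_ai]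
      by_cases hb : q' ∈ B
      · have hqD : q' ∈ D := Finset.mem_filter.mpr ⟨hb, by rw [hψ]; exact hq⟩
        have hqD2 : q' ∈ D2 := Finset.mem_filter.mpr ⟨hb, by rw [hψ]; exact ⟨hq, hqS⟩⟩
        rw [hκD q' hqD]
        exact (Finset.mem_filter.mp (ht2 q' hqD2)).2
      · rw [hκB q' hb]
        exact h2 q' (Finset.mem_compl.mpr hb) (by
          rw [Finset.mem_filter]
          exact fun h => hqS (hψ ▸ h.2))
  have hfin := hP' _ hmem κ⁻¹ ⟨by rw [Equiv.Perm.sign_inv, hκs], fun x hx => by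
    rw [Equiv.Perm.inv_eq_iff_eq]
    exact (hκB x hx).symm⟩
  have : σ' * κ * ψ⁻¹ * ψ * κ⁻¹ = σ' := by group
  rwa [this] at hfin

end Pool.Agent.Lib.MP_c6e9f4_al.Exp
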