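import Pool.Agent.Lib.MP_c6e9f4_al.Exp.A1

/-!
F3. Reaching the bulk. Induction on `n/10 - |R|` (upwards in `|R|`): take the prefix `p` of `l` of
length `a |R|`; by `hIL` some `g ∈ p` and `y ∈ R` have `g⁻¹ y ∉ R`, so
`R' = {π⁻¹ y : π ∈ Pi p, y ∈ R}` is larger. If `10 |R'| > n` take for `J` the next `l1` entries:
`θ B` misses at most `n/10` points, so it meets `R'`. Otherwise recurse with `R'`.
-/

set_option autoImplicit false

namespace Pool.Agent.Lib.MP_c6e9f4_al.Exp

open Equiv (Perm)

theorem reach {α : Type} [Fintype α] [DecidableEq α] {n : ℕ} (hα : Fintype.card α = n)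
    (a : ℕ → ℕ) (l1 : ℕ) (x : List (Perm α))
    (hIL : ∀ p : List (Perm α), p <:+: x → ∀ R : Finset α, 1 ≤ R.card → 10 * R.card ≤ n →
      a R.card ≤ p.length → ∃ g ∈ p, ∃ y ∈ R, g⁻¹ y ∉ R)
    (hFL : ∀ J : List (Perm α), J <:+: x → l1 ≤ J.length →
      ∃ (B : Finset α) (θ : Perm α), 10 * (n - B.card) ≤ n ∧ ∀ h ∈ AltB B, θ * h ∈ Pi J)
    (R : Finset α) (h1 : 1 ≤ R.card) (h2 : 10 * R.card ≤ n) (l : List (Perm α)) (hl : l <:+: x)
    (hlen : (∑ m ∈ Finset.Icc R.card (n / 10), a m) + l1 ≤ l.length) :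
    ∃ (p J q : List (Perm α)) (π θ : Perm α) (B : Finset α), l = p ++ J ++ q ∧
      p.length + J.length ≤ (∑ m ∈ Finset.Icc R.card (n / 10), a m) + l1 ∧ π ∈ Pi p ∧
      10 * (n - B.card) ≤ n ∧ (∀ h ∈ AltB B, θ * h ∈ Pi J) ∧
      ∃ y ∈ R, θ⁻¹ (π⁻¹ y) ∈ B := by
  classical
  have main : ∀ (k : ℕ) (R : Finset α), n / 10 - R.card < k → 1 ≤ R.card → 10 * R.card ≤ n →
      ∀ l : List (Perm α), l <:+: x →
      (∑ m ∈ Finset.Icc R.card (n / 10), a m) + l1 ≤ l.length →
      ∃ (p J q : List (Perm α)) (π θ : Perm α) (B : Finset α), l = p ++ J ++ q ∧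
      p.length + J.length ≤ (∑ m ∈ Finset.Icc R.card (n / 10), a m) + l1 ∧ π ∈ Pi p ∧
      10 * (n - B.card) ≤ n ∧ (∀ h ∈ AltB B, θ * h ∈ Pi J) ∧
      ∃ y ∈ R, θ⁻¹ (π⁻¹ y) ∈ B := by
    intro k
    induction k with
    | zero =>
      intro R hk
      exact absurd hk (by omega)
    | succ k ih =>
      intro R hk h1 h2 l hl hlen
      have hsum : a R.card + ∑ m ∈ Finset.Icc (R.card + 1) (n / 10), a m
          = ∑ m ∈ Finset.Icc R.card (n / 10), a m := by
        have hle : R.card ≤ n / 10 := by omega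
        rw [← Finset.insert_Icc_add_one_left_eq_Icc hle, Finset.sum_insert]
        simp
      set p := l.take (a R.card) with hp
      have hplen : p.length = a R.card := by
        rw [hp, List.length_take]
        omega
      have hpl : p <:+: x := (List.take_prefix _ _).isInfix.trans hl
      set l' := l.drop (a R.card) with hl'
      have hlsplit : l = p ++ l' := (List.take_append_drop _ _).symm
      have hl'x : l' <:+: x := (List.drop_suffix _ _).isInfix.trans hl
      have hl'len : l'.length = l.length - a R.card := by rw [hl', List.length_drop]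
      obtain ⟨g, hg, y0, hy0, hgy0⟩ := hIL p hpl R h1 h2 hplen.ge
      let R' : Finset α := Finset.univ.filter fun z => ∃ π ∈ Pi p, ∃ y ∈ R, π⁻¹ y = z
      have hRR' : insert (g⁻¹ y0) R ⊆ R' := by
        intro z hz
        rw [Finset.mem_filter]
        refine ⟨Finset.mem_univ _, ?_⟩
        rw [Finset.mem_insert] at hz
        rcases hz with rfl | hz
        · exact ⟨g, mem_Pi_of_mem hg, y0, hy0, rfl⟩
        · exact ⟨1, one_mem_Pi p, z, hz, by simp⟩
      have hcard : R.card + 1 ≤ R'.card := by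
        have := Finset.card_le_card hRR'
        rwa [Finset.card_insert_of_notMem hgy0] at this
      by_cases hbig : n < 10 * R'.card
      · set J := l'.take l1 with hJ
        have hJlen : J.length = l1 := by
          rw [hJ, List.length_take]
          omega
        obtain ⟨B, θ, hB, hBJ⟩ := hFL J ((List.take_prefix _ _).isInfix.trans hl'x) hJlen.ge
        have hBn : B.card ≤ n := hα ▸ Finset.card_le_univ B
        have hnd : ¬ Disjoint R' (B.image θ) := by
          intro hd
          have h3 := Finset.card_union_of_disjoint hd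
          rw [Finset.card_image_of_injective _ θ.injective] at h3
          have h4 : (R' ∪ B.image θ).card ≤ n := hα ▸ Finset.card_le_univ _
          omega
        rw [Finset.not_disjoint_iff] at hnd
        obtain ⟨z, hz, hzB⟩ := hnd
        obtain ⟨b, hb, hbz⟩ := Finset.mem_image.mp hzB
        obtain ⟨π, hπ, y, hy, hyz⟩ := (Finset.mem_filter.mp hz).2
        refine ⟨p, J, l'.drop l1, π, θ, B, ?_, ?_, hπ, hB, hBJ, y, hy, ?_⟩
        · rw [List.append_assoc, hJ, List.take_append_drop, ← hlsplit]
        · omega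
        · rw [hyz, ← hbz]
          exact (θ.symm_apply_apply b).symm ▸ hb
      · have hmono : ∑ m ∈ Finset.Icc R'.card (n / 10), a m
            ≤ ∑ m ∈ Finset.Icc (R.card + 1) (n / 10), a m := by
          apply Finset.sum_le_sum_of_subset
          exact Finset.Icc_subset_Icc_left hcard
        obtain ⟨p', J, q, π', θ, B, e1, e2, e3, e4, e5, y', hy', e6⟩ :=
          ih R' (by omega) (by omega) (by omega) l' hl'x (by omega)
        obtain ⟨π, hπ, y, hy, hyz⟩ := (Finset.mem_filter.mp hy').2
        refine ⟨p ++ p', J, q, π * π', θ, B, ?_, ?_, ?_, e4, e5, y, hy, ?_⟩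
        · rw [hlsplit, e1]
          simp only [List.append_assoc]
        · rw [List.length_append]
          omega
        · exact mem_Pi_append.mpr ⟨π, hπ, π', e3, rfl⟩
        · rw [mul_inv_rev, Equiv.Perm.mul_apply, hyz]
          exact e6
  exact main _ R (Nat.lt_succ_self _) h1 h2 l hl hlen

end Pool.Agent.Lib.MP_c6e9f4_al.Exp
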