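import Pool.Agent.Lib.MP_c6e9f4_al.Exp.F2
import Pool.Agent.Lib.MP_c6e9f4_al.Exp.F3

/-!
F4. Freeing. Start with the first `l1` entries (`hFL`, `inv_start`), then, by induction on `|S|`, use
`reach` with `R = S` and `inv_step` with `ψ = π θ` (the new `S` is smaller, since
`(Bᶜ.filter (ψ q ∈ S)).card < S.card`: `q ↦ ψ q` is an injection into `S` missing `y`, as `ψ⁻¹ y ∈ B`).
At the end `S = ∅`.
-/

set_option autoImplicit false

namespace Pool.Agent.Lib.MP_c6e9f4_al.Exp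

open Equiv (Perm)

theorem F4_step {α : Type} [Fintype α] [DecidableEq α] {n : ℕ} (hα : Fintype.card α = n)
    (hn : 10 ≤ n) (a : ℕ → ℕ) (l1 : ℕ) (x : List (Perm α))
    (hIL : ∀ p : List (Perm α), p <:+: x → ∀ R : Finset α, 1 ≤ R.card → 10 * R.card ≤ n →
      a R.card ≤ p.length → ∃ g ∈ p, ∃ y ∈ R, g⁻¹ y ∉ R)
    (hFL : ∀ J : List (Perm α), J <:+: x → l1 ≤ J.length →
      ∃ (B : Finset α) (θ : Perm α), 10 * (n - B.card) ≤ n ∧ ∀ h ∈ AltB B, θ * h ∈ Pi J)
    (F : Finset α) (hF : 10 * (n - F.card) ≤ n) (s : ℕ) :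
    ∀ (done rest : List (Perm α)) (ε : ℤˣ) (Γ S : Finset α) (c0 : α → α), S.card = s →
      rest <:+: x → 10 * Γ.card ≤ n → Inv (Pi done) ε F Γ S c0 → Set.InjOn c0 S →
      (∑ z ∈ Finset.Icc 1 s, ((∑ m ∈ Finset.Icc z (n / 10), a m) + l1)) ≤ rest.length →
      ∃ (Γ' : Finset α) (ε' : ℤˣ), 10 * Γ'.card ≤ n ∧
        ∀ σ : Perm α, Equiv.Perm.sign σ = ε' → (∀ q ∈ Γ', σ q ∈ F) → σ ∈ Pi (done ++ rest) := by
  induction s using Nat.strong_induction_on with
  | _ s ih =>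
  intro done rest ε Γ S c0 hS hrest hΓ hinv hinj hlen
  rcases Nat.eq_zero_or_pos s with hs | hs
  · refine ⟨Γ, ε, hΓ, fun σ hσ hq => ?_⟩
    have hS0 : S = ∅ := Finset.card_eq_zero.mp (hS.trans hs)
    exact Pi_mono (List.sublist_append_left _ _) (hinv.2.2 σ hσ
      (fun q hq' => by rw [hS0] at hq'; simp at hq') (fun q hq' _ => hq q hq'))
  · have hSΓ : S.card ≤ Γ.card := Finset.card_le_card hinv.1
    have hSs : 1 ≤ S.card := by omega
    have hS10 : 10 * S.card ≤ n := by omega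
    have hsplit : (∑ z ∈ Finset.Icc 1 s, ((∑ m ∈ Finset.Icc z (n / 10), a m) + l1)) =
        (∑ z ∈ Finset.Icc 1 (s - 1), ((∑ m ∈ Finset.Icc z (n / 10), a m) + l1)) +
          ((∑ m ∈ Finset.Icc s (n / 10), a m) + l1) := by
      obtain ⟨t, rfl⟩ : ∃ t, s = t + 1 := ⟨s - 1, by omega⟩
      rw [Nat.add_sub_cancel, Finset.sum_Icc_succ_top (by omega)]
    obtain ⟨p, J, q, π, θ, B, hl, hle, hπ, hB, hθ, y, hyS, hyB⟩ :=
      reach hα a l1 x hIL hFL S hSs hS10 rest hrest (by rw [hS]; omega)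
    rw [hS] at hle
    have hq : q <:+: x := by
      refine List.IsInfix.trans ?_ hrest
      rw [hl]
      exact ⟨p ++ J, [], by simp⟩
    have hP' : ∀ b ∈ Pi done, ∀ h ∈ AltB B, b * (π * θ) * h ∈ Pi (done ++ p ++ J) := by
      intro b hb h hh
      rw [mem_Pi_append]
      refine ⟨b * π, ?_, θ * h, hθ h hh, by group⟩
      rw [mem_Pi_append]
      exact ⟨b, hb, π, hπ, rfl⟩
    have hinv' := inv_step hα hn (Pi done) (Pi (done ++ p ++ J)) ε F Γ S B c0 hΓ hF hB hinv hinj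
      (π * θ) hP'
    set S' : Finset α := Bᶜ.filter fun q => (π * θ) q ∈ S with hS'
    have hcard : S'.card < s := by
      have h1 : S'.card ≤ (S.erase y).card := by
        refine Finset.card_le_card_of_injOn (fun q => (π * θ) q) ?_ ?_
        · intro r hr
          have hr' := Finset.mem_filter.mp (Finset.mem_coe.mp hr)
          refine Finset.mem_coe.mpr (Finset.mem_erase.mpr ⟨?_, hr'.2⟩)
          intro h
          apply (Finset.mem_compl.mp hr'.1)
          have h2 : θ⁻¹ (π⁻¹ y) = r := by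
            rw [← h]
            show θ⁻¹ (π⁻¹ (π (θ r))) = r
            simp
          rw [← h2]
          exact hyB
        · exact (π * θ).injective.injOn
      rw [Finset.card_erase_of_mem hyS, hS] at h1
      omega
    have hBc : 10 * (Bᶜ).card ≤ n := by
      rw [Finset.card_compl, hα]
      exact hB
    have hinj' : Set.InjOn (fun q => c0 ((π * θ) q)) S' := by
      intro u hu v hv huv
      have hu' := (Finset.mem_filter.mp (Finset.mem_coe.mp hu)).2
      have hv' := (Finset.mem_filter.mp (Finset.mem_coe.mp hv)).2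
      exact (π * θ).injective (hinj (Finset.mem_coe.mpr hu') (Finset.mem_coe.mpr hv') huv)
    have hrl : rest.length = p.length + J.length + q.length := by
      rw [hl]
      simp [add_assoc]
    have hmono : (∑ z ∈ Finset.Icc 1 S'.card, ((∑ m ∈ Finset.Icc z (n / 10), a m) + l1)) ≤
        (∑ z ∈ Finset.Icc 1 (s - 1), ((∑ m ∈ Finset.Icc z (n / 10), a m) + l1)) :=
      Finset.sum_le_sum_of_subset (Finset.Icc_subset_Icc_right (by omega))
    obtain ⟨Γ', ε', h1, h2⟩ := ih S'.card hcard (done ++ p ++ J) q _ Bᶜ S' _ rfl hq hBc hinv' hinj'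
      (by omega)
    refine ⟨Γ', ε', h1, fun σ hσ hσ' => ?_⟩
    have h3 := h2 σ hσ hσ'
    rw [hl]
    simpa [List.append_assoc] using h3

theorem freeing {α : Type} [Fintype α] [DecidableEq α] {n : ℕ} (hα : Fintype.card α = n)
    (hn : 10 ≤ n) (a : ℕ → ℕ) (l1 : ℕ) (x : List (Perm α))
    (hIL : ∀ p : List (Perm α), p <:+: x → ∀ R : Finset α, 1 ≤ R.card → 10 * R.card ≤ n →
      a R.card ≤ p.length → ∃ g ∈ p, ∃ y ∈ R, g⁻¹ y ∉ R)
    (hFL : ∀ J : List (Perm α), J <:+: x → l1 ≤ J.length →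
      ∃ (B : Finset α) (θ : Perm α), 10 * (n - B.card) ≤ n ∧ ∀ h ∈ AltB B, θ * h ∈ Pi J)
    (l : List (Perm α)) (hl : l <:+: x)
    (hlen : (∑ z ∈ Finset.Icc 1 (n / 10), ((∑ m ∈ Finset.Icc z (n / 10), a m) + l1)) + l1
      ≤ l.length) :
    ∃ (Γ F : Finset α) (ε : ℤˣ), 10 * Γ.card ≤ n ∧ 10 * (n - F.card) ≤ n ∧
      ∀ σ : Perm α, Equiv.Perm.sign σ = ε → (∀ q ∈ Γ, σ q ∈ F) → σ ∈ Pi l := by
  have h0 : (l.take l1).length = l1 := by
    rw [List.length_take]
    omega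
  have hJ : l.take l1 <:+: x := (List.take_prefix _ _).isInfix.trans hl
  have hR : l.drop l1 <:+: x := (List.drop_suffix _ _).isInfix.trans hl
  obtain ⟨B, θ, hB, hθ⟩ := hFL (l.take l1) hJ h0.ge
  have hFB : (B.image θ).card = B.card := Finset.card_image_of_injective _ θ.injective
  have hBc : (Bᶜ).card = n - B.card := by rw [Finset.card_compl, hα]
  have hcard : (Bᶜ).card ≤ n / 10 := by rw [hBc]; omega
  have hmono : (∑ z ∈ Finset.Icc 1 (Bᶜ).card, ((∑ m ∈ Finset.Icc z (n / 10), a m) + l1)) ≤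
      (∑ z ∈ Finset.Icc 1 (n / 10), ((∑ m ∈ Finset.Icc z (n / 10), a m) + l1)) :=
    Finset.sum_le_sum_of_subset (Finset.Icc_subset_Icc_right hcard)
  obtain ⟨Γ', ε', h1, h2⟩ := F4_step hα hn a l1 x hIL hFL (B.image θ) (by rw [hFB]; exact hB)
    (Bᶜ).card (l.take l1) (l.drop l1) (Equiv.Perm.sign θ) Bᶜ Bᶜ θ rfl hR (by rw [hBc]; exact hB)
    (inv_start (Pi (l.take l1)) θ B hθ) θ.injective.injOn
    (by rw [List.length_drop]; omega)
  refine ⟨Γ', B.image θ, ε', h1, by rw [hFB]; exact hB, fun σ hσ hσ' => ?_⟩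
  have h3 := h2 σ hσ hσ'
  rwa [List.take_append_drop] at h3

end Pool.Agent.Lib.MP_c6e9f4_al.Exp
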