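import Pool.Agent.Lib.MP_c6e9f4_al.Exp.A1
import Pool.Agent.Lib.MP_c6e9f4_al.Exp.F1

/-!
F5. The end: two parts of equal sign. Choose `σ ≠ 1` of sign `ε` with `σ Γ₁ ⊆ F₁` and
`σ⁻¹ Γ₂ ⊆ F₂`: map `Γ₁ ∪ F₂ᶜ` injectively into `F₁ \ Γ₂` and use `exists_ext` (prescribe one more point
to get `σ ≠ 1`). Then `σ σ⁻¹ = 1` is a nonempty sublist product.
-/

set_option autoImplicit false

namespace Pool.Agent.Lib.MP_c6e9f4_al.Exp

open Equiv (Perm)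

theorem F5_inj {α : Type} [DecidableEq α] (D T : Finset α) (h : D.card ≤ T.card) :
    ∃ t : α → α, Set.InjOn t D ∧ ∀ x ∈ D, t x ∈ T := by
  have h' : Fintype.card D ≤ Fintype.card T := by
    simpa using h
  obtain ⟨e⟩ := Function.Embedding.nonempty_of_card_le h'
  refine ⟨fun x => if hx : x ∈ D then (e ⟨x, hx⟩ : α) else x, ?_, ?_⟩
  · intro x hx y hy hxy
    have hx' : x ∈ D := hx
    have hy' : y ∈ D := hy
    simp only [hx', hy', dif_pos] at hxy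
    have := e.injective (Subtype.ext hxy)
    exact congrArg Subtype.val this
  · intro x hx
    simp only [hx, dif_pos]
    exact (e ⟨x, hx⟩).2

theorem two_parts {α : Type} [Fintype α] [DecidableEq α] {n : ℕ} (hα : Fintype.card α = n)
    (hn : 30 ≤ n) (l₁ l₂ : List (Perm α)) (Γ₁ F₁ Γ₂ F₂ : Finset α) (ε : ℤˣ)
    (hΓ₁ : 10 * Γ₁.card ≤ n) (hF₁ : 10 * (n - F₁.card) ≤ n)
    (hΓ₂ : 10 * Γ₂.card ≤ n) (hF₂ : 10 * (n - F₂.card) ≤ n)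
    (h₁ : ∀ σ : Perm α, Equiv.Perm.sign σ = ε → (∀ q ∈ Γ₁, σ q ∈ F₁) → σ ∈ Pi l₁)
    (h₂ : ∀ σ : Perm α, Equiv.Perm.sign σ = ε → (∀ q ∈ Γ₂, σ q ∈ F₂) → σ ∈ Pi l₂) :
    ¬ Bad (l₁ ++ l₂) := by
  intro hbad
  have hpos : 0 < Fintype.card α := by omega
  obtain ⟨x0⟩ := Fintype.card_pos_iff.1 hpos
  have c1 : F₂ᶜ.card = n - F₂.card := by rw [Finset.card_compl, hα]
  have cF1 : F₁.card ≤ n := hα ▸ Finset.card_le_univ F₁
  have cF2 : F₂.card ≤ n := hα ▸ Finset.card_le_univ F₂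
  have cD : (insert x0 (Γ₁ ∪ F₂ᶜ)).card ≤ Γ₁.card + (n - F₂.card) + 1 := by
    refine (Finset.card_insert_le _ _).trans ?_
    have := Finset.card_union_le Γ₁ F₂ᶜ
    omega
  have cT : F₁.card ≤ ((F₁ \ Γ₂).erase x0).card + Γ₂.card + 1 := by
    have h1 := Finset.le_card_sdiff Γ₂ F₁
    have h2 := Finset.pred_card_le_card_erase (s := F₁ \ Γ₂) (a := x0)
    omega
  obtain ⟨t, ht1, ht2⟩ := F5_inj (insert x0 (Γ₁ ∪ F₂ᶜ)) ((F₁ \ Γ₂).erase x0) (by omega)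
  obtain ⟨σ, hσ1, _, hσ3⟩ := exists_ext Finset.univ (insert x0 (Γ₁ ∪ F₂ᶜ))
    (Finset.subset_univ _) t ht1 (fun _ _ => Finset.mem_univ _)
    (by rw [Finset.card_univ, hα]; omega) ε
  have hT : ∀ x ∈ insert x0 (Γ₁ ∪ F₂ᶜ), σ x ≠ x0 ∧ σ x ∈ F₁ ∧ σ x ∉ Γ₂ := by
    intro x hx
    rw [hσ3 x hx]
    have h1 := ht2 x hx
    rw [Finset.mem_erase, Finset.mem_sdiff] at h1
    exact h1
  have hne : σ ≠ 1 := by
    intro hc
    have h1 := (hT x0 (Finset.mem_insert_self _ _)).1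
    rw [hc] at h1
    exact h1 rfl
  obtain ⟨s₁, hs₁, hp₁⟩ := h₁ σ hσ1 (fun q hq => (hT q (Finset.mem_insert_of_mem
    (Finset.mem_union_left _ hq))).2.1)
  obtain ⟨s₂, hs₂, hp₂⟩ := h₂ σ⁻¹ (by rw [Equiv.Perm.sign_inv, hσ1]) (by
    intro q hq
    by_contra hc
    have h1 := (hT (σ⁻¹ q) (Finset.mem_insert_of_mem (Finset.mem_union_right _
      (Finset.mem_compl.2 hc)))).2.2
    rw [← Equiv.Perm.mul_apply, mul_inv_cancel, Equiv.Perm.one_apply] at h1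
    exact h1 hq)
  refine hbad (s₁ ++ s₂) (List.Sublist.append hs₁ hs₂) ?_ ?_
  · intro hc
    rw [List.append_eq_nil_iff] at hc
    rw [hc.1] at hp₁
    exact hne hp₁.symm
  · rw [List.prod_append, hp₁, hp₂, mul_inv_cancel]

end Pool.Agent.Lib.MP_c6e9f4_al.Exp
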