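import Pool.Agent.Lib.MP_c6e9f4_al.Exp.Defs

/-!
G1. Breadth first search with a length function. `R_i` = tuples `h ∘ f`, `h` in the closure with
`ρ h ≤ i η`; increasing, if `R_i = R_(i+1)` then `R_i` is stable under `S`, hence under the closure
(finite). So `R_i` is the whole orbit for `i ≥ (card α)^m`.
-/

set_option autoImplicit false

namespace Pool.Agent.Lib.MP_c6e9f4_al.Exp

open Equiv (Perm)

/-- The tuples reached with length at most `i * η`. -/
noncomputable def g1R {α : Type} [Fintype α] [DecidableEq α] (S : Set (Perm α))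
    (ρ : Perm α → ℝ) (η : ℝ) {m : ℕ} (f : Fin m → α) (i : ℕ) : Finset (Fin m → α) :=
  by
    classical
    exact Finset.univ.filter fun t => ∃ h ∈ Subgroup.closure S, (∀ j, h (f j) = t j) ∧ ρ h ≤ i * η

theorem g1_mem {α : Type} [Fintype α] [DecidableEq α] (S : Set (Perm α))
    (ρ : Perm α → ℝ) (η : ℝ) {m : ℕ} (f : Fin m → α) (i : ℕ) (t : Fin m → α) :
    t ∈ g1R S ρ η f i ↔ ∃ h ∈ Subgroup.closure S, (∀ j, h (f j) = t j) ∧ ρ h ≤ i * η := by
  classical
  simp [g1R]

theorem g1_mono {α : Type} [Fintype α] [DecidableEq α] (S : Set (Perm α))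
    (ρ : Perm α → ℝ) (η : ℝ) (h0 : 0 ≤ η) {m : ℕ} (f : Fin m → α) (i : ℕ) :
    g1R S ρ η f i ⊆ g1R S ρ η f (i + 1) := by
  intro t ht
  rw [g1_mem] at ht ⊢
  obtain ⟨h, h1, h2, h3⟩ := ht
  refine ⟨h, h1, h2, h3.trans ?_⟩
  push_cast
  nlinarith

theorem g1_step {α : Type} [Fintype α] [DecidableEq α] (S : Set (Perm α))
    (ρ : Perm α → ℝ) (hρ : LenFun ρ) (η : ℝ) (hη : ∀ g ∈ S, ρ g ≤ η) {m : ℕ} (f : Fin m → α)
    (i : ℕ) (t : Fin m → α) (ht : t ∈ g1R S ρ η f i) (s : Perm α) (hs : s ∈ S) :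
    (fun j => s (t j)) ∈ g1R S ρ η f (i + 1) ∧ (fun j => s⁻¹ (t j)) ∈ g1R S ρ η f (i + 1) := by
  rw [g1_mem] at ht
  obtain ⟨h, h1, h2, h3⟩ := ht
  have hs' : s ∈ Subgroup.closure S := Subgroup.subset_closure hs
  constructor
  · rw [g1_mem]
    refine ⟨s * h, Subgroup.mul_mem _ hs' h1, fun j => by rw [Equiv.Perm.mul_apply, h2 j], ?_⟩
    have := hρ.mul_le s h
    have := hη s hs
    push_cast
    linarith
  · rw [g1_mem]
    refine ⟨s⁻¹ * h, Subgroup.mul_mem _ (Subgroup.inv_mem _ hs') h1,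
      fun j => by rw [Equiv.Perm.mul_apply, h2 j], ?_⟩
    have := hρ.mul_le s⁻¹ h
    have := hρ.inv s
    have := hη s hs
    push_cast
    linarith

theorem g1_stable {α : Type} [Fintype α] [DecidableEq α] (S : Set (Perm α))
    (ρ : Perm α → ℝ) (hρ : LenFun ρ) (η : ℝ) (hη : ∀ g ∈ S, ρ g ≤ η) {m : ℕ} (f : Fin m → α)
    (i : ℕ) (hi : g1R S ρ η f i = g1R S ρ η f (i + 1)) :
    ∀ h ∈ Subgroup.closure S, (∀ t ∈ g1R S ρ η f i, (fun j => h (t j)) ∈ g1R S ρ η f i) ∧
      (∀ t ∈ g1R S ρ η f i, (fun j => h⁻¹ (t j)) ∈ g1R S ρ η f i) := by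
  intro h hh
  induction hh using Subgroup.closure_induction with
  | mem s hs =>
    constructor
    · intro t ht
      rw [hi]
      exact (g1_step S ρ hρ η hη f i t ht s hs).1
    · intro t ht
      rw [hi]
      exact (g1_step S ρ hρ η hη f i t ht s hs).2
  | one =>
    constructor
    · intro t ht
      simpa using ht
    · intro t ht
      simpa using ht
  | mul a b _ _ iha ihb =>
    constructor
    · intro t ht
      have := iha.1 _ (ihb.1 t ht)
      simpa [Equiv.Perm.mul_apply] using this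
    · intro t ht
      have := ihb.2 _ (iha.2 t ht)
      simpa [mul_inv_rev, Equiv.Perm.mul_apply] using this
  | inv a _ iha =>
    refine ⟨iha.2, ?_⟩
    intro t ht
    rw [inv_inv]
    exact iha.1 t ht

theorem bfs_tuple {α : Type} [Fintype α] [DecidableEq α] (S : Set (Perm α))
    (ρ : Perm α → ℝ) (hρ : LenFun ρ) (η : ℝ) (h0 : 0 ≤ η) (hη : ∀ g ∈ S, ρ g ≤ η)
    (m : ℕ) (f g : Fin m → α) (hex : ∃ h ∈ Subgroup.closure S, ∀ i, h (f i) = g i) :
    ∃ h ∈ Subgroup.closure S, (∀ i, h (f i) = g i) ∧ ρ h ≤ (Fintype.card α : ℝ) ^ m * η := by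
  classical
  have hN : Fintype.card (Fin m → α) = Fintype.card α ^ m := by
    rw [Fintype.card_fun, Fintype.card_fin]
  have hf : ∀ i, f ∈ g1R S ρ η f i := by
    intro i
    rw [g1_mem]
    refine ⟨1, Subgroup.one_mem _, fun j => rfl, ?_⟩
    rw [hρ.one]
    positivity
  obtain ⟨i, hi1, hi2⟩ : ∃ i, i < Fintype.card α ^ m ∧ g1R S ρ η f i = g1R S ρ η f (i + 1) := by
    by_contra hcon
    push Not at hcon
    have hgrow : ∀ i, i ≤ Fintype.card α ^ m → i + 1 ≤ (g1R S ρ η f i).card := by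
      intro i
      induction i with
      | zero =>
        intro _
        have : 0 < (g1R S ρ η f 0).card := Finset.card_pos.mpr ⟨f, hf 0⟩
        omega
      | succ i ih =>
        intro hi
        have h1 := ih (by omega)
        have h2 := hcon i (by omega)
        have h3 : g1R S ρ η f i ⊂ g1R S ρ η f (i + 1) :=
          lt_of_le_of_ne (g1_mono S ρ η h0 f i) h2
        have h4 := Finset.card_lt_card h3
        omega
    have h5 := hgrow _ le_rfl
    have h6 := Finset.card_le_univ (g1R S ρ η f (Fintype.card α ^ m))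
    rw [hN] at h6
    omega
  obtain ⟨h, hh1, hh2⟩ := hex
  have hg : g ∈ g1R S ρ η f i := by
    have := (g1_stable S ρ hρ η hη f i hi2 h hh1).1 f (hf i)
    have e : (fun j => h (f j)) = g := funext hh2
    rwa [e] at this
  rw [g1_mem] at hg
  obtain ⟨k, hk1, hk2, hk3⟩ := hg
  refine ⟨k, hk1, hk2, hk3.trans ?_⟩
  apply mul_le_mul_of_nonneg_right _ h0
  exact_mod_cast hi1.le

end Pool.Agent.Lib.MP_c6e9f4_al.Exp
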