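import Pool.Agent.Lib.MP_c6e9f4_al.Exp.Defs

/-!
G2. Enough small primes: `P` = primes up to `n^(1/3)`. `∑ p ≤ n^(2/3) ≤ kk n`, and
`|P| ≥ c n^(1/3) / log n` from Mathlib's `Chebyshev.pi_ge'`,
so `|P| kk n ≥ n log₂ n` for large `n` (1/3 + 3/4 > 1).
-/

set_option autoImplicit false

namespace Pool.Agent.Lib.MP_c6e9f4_al.Exp

open Equiv (Perm)

open Filter in
theorem g2_ev : ∀ᶠ x : ℝ in atTop,
    (6 / Real.log 2) * x ^ (3 / 4 : ℝ) * Real.log x ^ 2 ≤ (x - 1) * Real.log 2 - Real.log (x + 2) := by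
  have hl2 : 0 < Real.log 2 := Real.log_pos (by norm_num)
  have hl2' : 0.69 < Real.log 2 := by linarith [Real.log_two_gt_d9]
  have h1 : ∀ᶠ x : ℝ in atTop, ‖Real.log x‖ ≤ 1 * ‖x ^ (1 / 16 : ℝ)‖ :=
    (isLittleO_log_rpow_atTop (by norm_num : (0 : ℝ) < 1 / 16)).bound one_pos
  have h2 : ∀ᶠ x : ℝ in atTop, 24 / Real.log 2 ≤ x ^ (1 / 8 : ℝ) :=
    (tendsto_rpow_atTop (by norm_num : (0 : ℝ) < 1 / 8)).eventually_ge_atTop _
  have h3 : ∀ᶠ x : ℝ in atTop, ‖Real.log x‖ ≤ (1 / 10) * ‖x ^ (1 : ℝ)‖ :=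
    (isLittleO_log_rpow_atTop (by norm_num : (0 : ℝ) < 1)).bound (by norm_num)
  filter_upwards [h1, h2, h3, eventually_ge_atTop (100 : ℝ)] with x h1 h2 h3 h4
  have hx0 : 0 < x := by linarith
  have hlx : 0 ≤ Real.log x := Real.log_nonneg (by linarith)
  rw [Real.norm_of_nonneg hlx, Real.norm_of_nonneg (by positivity)] at h1 h3
  rw [Real.rpow_one] at h3
  have h2' : x ^ (7 / 8 : ℝ) ≤ Real.log 2 / 24 * x := by
    have e : x = x ^ (7 / 8 : ℝ) * x ^ (1 / 8 : ℝ) := by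
      rw [← Real.rpow_add hx0]
      norm_num
    rw [div_le_iff₀ hl2] at h2
    have h9 : (0 : ℝ) < x ^ (7 / 8 : ℝ) := by positivity
    calc x ^ (7 / 8 : ℝ) = x ^ (7 / 8 : ℝ) * (24 / 24) := by norm_num
      _ ≤ x ^ (7 / 8 : ℝ) * ((x ^ (1 / 8 : ℝ) * Real.log 2) / 24) := by gcongr
      _ = Real.log 2 / 24 * (x ^ (7 / 8 : ℝ) * x ^ (1 / 8 : ℝ)) := by ring
      _ = Real.log 2 / 24 * x := by rw [← e]
  have h5 : Real.log x ^ 2 ≤ x ^ (1 / 8 : ℝ) := by
    calc Real.log x ^ 2 ≤ (x ^ (1 / 16 : ℝ)) ^ 2 := by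
          apply pow_le_pow_left₀ hlx
          linarith
      _ = x ^ (1 / 8 : ℝ) := by
          rw [← Real.rpow_natCast, ← Real.rpow_mul hx0.le]
          norm_num
  have h6 : (6 / Real.log 2) * x ^ (3 / 4 : ℝ) * Real.log x ^ 2 ≤ x / 4 := by
    calc (6 / Real.log 2) * x ^ (3 / 4 : ℝ) * Real.log x ^ 2
        ≤ (6 / Real.log 2) * x ^ (3 / 4 : ℝ) * x ^ (1 / 8 : ℝ) := by gcongr
      _ = (6 / Real.log 2) * x ^ (7 / 8 : ℝ) := by
          rw [mul_assoc, ← Real.rpow_add hx0]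
          norm_num
      _ ≤ (6 / Real.log 2) * (Real.log 2 / 24 * x) := by gcongr
      _ = x / 4 := by field_simp; norm_num
  have h7 : Real.log (x + 2) ≤ Real.log 2 + Real.log x := by
    rw [← Real.log_mul (by norm_num) hx0.ne']
    exact Real.log_le_log (by linarith) (by linarith)
  have h8 : Real.log 2 < 0.7 := by linarith [Real.log_two_lt_d9]
  nlinarith

open Filter in
theorem exists_primes : ∃ n0 : ℕ, ∀ n : ℕ, n0 ≤ n → ∃ P : Finset ℕ, P.Nonempty ∧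
    (∀ p ∈ P, p.Prime) ∧ (∑ p ∈ P, p) ≤ kk n ∧ n * Nat.log 2 n ≤ P.card * kk n := by
  have ht : Tendsto (fun n : ℕ => (n : ℝ) ^ (1 / 3 : ℝ)) atTop atTop :=
    (tendsto_rpow_atTop (by norm_num)).comp tendsto_natCast_atTop_atTop
  have hev := (ht.eventually g2_ev).and (eventually_ge_atTop 100)
  obtain ⟨n0, hn0⟩ := eventually_atTop.1 hev
  refine ⟨n0, fun n hn => ?_⟩
  obtain ⟨h1, h2⟩ := hn0 n hn
  have hn1 : (100 : ℝ) ≤ n := by exact_mod_cast h2
  have hnpos : (0 : ℝ) < n := by linarith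
  have hl2 : 0 < Real.log 2 := Real.log_pos (by norm_num)
  set x : ℝ := (n : ℝ) ^ (1 / 3 : ℝ) with hx
  have hx3 : x ^ 3 = n := by
    rw [hx, ← Real.rpow_natCast, ← Real.rpow_mul hnpos.le]
    norm_num
  have hx2 : 2 < x := by
    by_contra h
    push Not at h
    have hx0 : 0 ≤ x := by positivity
    have : x ^ 3 ≤ 2 ^ 3 := pow_le_pow_left₀ hx0 h 3
    rw [hx3] at this
    linarith
  have hx0 : 0 < x := by linarith
  have hlx : 0 < Real.log x := Real.log_pos (by linarith)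
  set m : ℕ := ⌊x⌋₊ with hm
  have hm2 : 2 ≤ m := Nat.le_floor (by exact_mod_cast hx2.le)
  have hmx : (m : ℝ) ≤ x := Nat.floor_le hx0.le
  have hkk : x ^ (9 / 4 : ℝ) = (n : ℝ) ^ (3 / 4 : ℝ) := by
    rw [hx, ← Real.rpow_mul hnpos.le]
    norm_num
  have hbig : (2 : ℝ) ≤ x ^ (9 / 4 : ℝ) := by
    calc (2 : ℝ) ≤ x := hx2.le
      _ = x ^ (1 : ℝ) := (Real.rpow_one _).symm
      _ ≤ x ^ (9 / 4 : ℝ) := Real.rpow_le_rpow_of_exponent_le (by linarith) (by norm_num)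
  have hkk1 : x ^ (9 / 4 : ℝ) / 2 ≤ (kk n : ℝ) := by
    have h := Nat.lt_floor_add_one ((n : ℝ) ^ (3 / 4 : ℝ))
    have h' : (kk n : ℝ) = (⌊(n : ℝ) ^ (3 / 4 : ℝ)⌋₊ : ℝ) := rfl
    rw [h', ← hkk]
    rw [← hkk] at h
    linarith
  refine ⟨Nat.primesLE m, ?_, ?_, ?_, ?_⟩
  · exact ⟨2, by simp [Nat.mem_primesLE, hm2, Nat.prime_two]⟩
  · intro p hp
    exact (Nat.mem_primesLE.1 hp).2
  · -- the sum
    have h3 : ∑ p ∈ Nat.primesLE m, p ≤ (Nat.primesLE m).card * m := by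
      rw [← smul_eq_mul]
      exact Finset.sum_le_card_nsmul _ _ _ fun p hp => (Nat.mem_primesLE.1 hp).1
    have h4 : (Nat.primesLE m).card ≤ m := by
      have : Nat.primesLE m ⊆ Finset.Icc 1 m := by
        intro p hp
        have := Nat.mem_primesLE.1 hp
        exact Finset.mem_Icc.2 ⟨this.2.one_le, this.1⟩
      simpa using Finset.card_le_card this
    refine (h3.trans (Nat.mul_le_mul_right m h4)).trans ?_
    refine Nat.le_floor ?_
    push_cast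
    rw [← hkk]
    calc (m : ℝ) * m ≤ x * x := by gcongr
      _ = x ^ (2 : ℝ) := by rw [← pow_two, ← Real.rpow_natCast]; norm_num
      _ ≤ x ^ (9 / 4 : ℝ) := Real.rpow_le_rpow_of_exponent_le (by linarith) (by norm_num)
  · have h3 := Chebyshev.pi_ge' (x := x) (by linarith)
    have h4 : ((Nat.primesLE m).card : ℝ) = (Nat.primeCounting ⌊x⌋₊ : ℝ) := by
      rw [Nat.primesLE_card_eq_primeCounting]
    have h5 : (Nat.log 2 n : ℝ) ≤ 3 * Real.log x / Real.log 2 := by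
      have h6 := Real.natLog_le_logb n 2
      refine h6.trans ?_
      rw [Real.logb, ← hx3, Real.log_pow]
      norm_num
    have h6 : (n : ℝ) * Nat.log 2 n ≤ (Nat.primesLE m).card * kk n := by
      rw [h4]
      have h7 : (6 / Real.log 2) * x ^ (3 / 4 : ℝ) * Real.log x ≤ (Nat.primeCounting ⌊x⌋₊ : ℝ) := by
        refine le_trans ?_ h3
        rw [le_div_iff₀ hlx]
        calc 6 / Real.log 2 * x ^ (3 / 4 : ℝ) * Real.log x * Real.log x
            = 6 / Real.log 2 * x ^ (3 / 4 : ℝ) * Real.log x ^ 2 := by ring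
          _ ≤ _ := h1
      calc (n : ℝ) * Nat.log 2 n ≤ n * (3 * Real.log x / Real.log 2) := by gcongr
        _ = (6 / Real.log 2 * x ^ (3 / 4 : ℝ) * Real.log x) * (x ^ (9 / 4 : ℝ) / 2) := by
            have : x ^ (3 / 4 : ℝ) * x ^ (9 / 4 : ℝ) = n := by
              rw [← Real.rpow_add hx0, ← hx3, ← Real.rpow_natCast]
              norm_num
            rw [← this]
            field_simp
            norm_num
        _ ≤ (Nat.primeCounting ⌊x⌋₊ : ℝ) * kk n := by gcongr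
    exact_mod_cast h6

end Pool.Agent.Lib.MP_c6e9f4_al.Exp
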