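import Pool.Agent.Lib.MP_c6e9f4_al.Exp.Defs

/-!
G3. Order of a permutation: `orderOf h = lcm` of the cycle type; the distinct cycle lengths are distinct
positive integers with sum at most `n`, so there are at most `√(2n)` of them, each at most `n`.
-/

set_option autoImplicit false

namespace Pool.Agent.Lib.MP_c6e9f4_al.Exp

open Equiv (Perm)

theorem g3_card_sq_le (s : Finset ℕ) : (∀ x ∈ s, 0 < x) → s.card ^ 2 ≤ 2 * ∑ x ∈ s, x := by
  induction s using Finset.induction_on_max with
  | empty => intro _; simp
  | insert a s hlt ih =>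
    intro hpos
    have ha : a ∉ s := fun h => lt_irrefl _ (hlt a h)
    rw [Finset.card_insert_of_notMem ha, Finset.sum_insert ha]
    have h1 := ih (fun x hx => hpos x (Finset.mem_insert_of_mem hx))
    have h2 : s.card + 1 ≤ a := by
      have hsub : s ⊆ Finset.Ico 1 a := by
        intro x hx
        rw [Finset.mem_Ico]
        exact ⟨hpos x (Finset.mem_insert_of_mem hx), hlt x hx⟩
      have h3 := Finset.card_le_card hsub
      rw [Nat.card_Ico] at h3
      have h4 := hpos a (Finset.mem_insert_self _ _)
      omega
    nlinarith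

theorem g3_lcm_le_prod (s : Finset ℕ) : (∀ x ∈ s, 0 < x) → s.lcm id ≤ ∏ x ∈ s, x := by
  intro hpos
  apply Nat.le_of_dvd (Finset.prod_pos hpos)
  apply Finset.lcm_dvd
  intro b hb
  exact Finset.dvd_prod_of_mem _ hb

theorem orderOf_le {α : Type} [Fintype α] [DecidableEq α] (h : Perm α) :
    orderOf h ≤ Fintype.card α ^ Nat.sqrt (2 * Fintype.card α) := by
  set n := Fintype.card α with hn
  rcases Nat.eq_zero_or_pos n with h0 | hpos
  · have : IsEmpty α := Fintype.card_eq_zero_iff.mp (by omega)
    have h1 : h = 1 := Subsingleton.elim _ _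
    rw [h1, orderOf_one, h0]
    simp
  · set s : Finset ℕ := h.cycleType.toFinset with hs
    have hmem : ∀ x ∈ s, 2 ≤ x := by
      intro x hx
      rw [hs, Multiset.mem_toFinset] at hx
      exact Equiv.Perm.two_le_of_mem_cycleType hx
    have hsum : ∑ x ∈ s, x ≤ n := by
      have h1 : ∑ x ∈ s, x ≤ h.cycleType.sum := by
        have h2 : s.val ≤ h.cycleType := by
          rw [hs, Multiset.toFinset_val]
          exact Multiset.dedup_le _
        have h3 : ∑ x ∈ s, x = s.val.sum := by
          simp
        rw [h3]
        obtain ⟨t, ht⟩ := Multiset.le_iff_exists_add.mp h2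
        rw [ht, Multiset.sum_add]
        omega
      have h4 : h.cycleType.sum ≤ n := by
        rw [Equiv.Perm.sum_cycleType]
        exact Finset.card_le_univ _
      omega
    have hcard : s.card ≤ Nat.sqrt (2 * n) := by
      rw [Nat.le_sqrt']
      have := g3_card_sq_le s (fun x hx => by have := hmem x hx; omega)
      omega
    have hle : ∀ x ∈ s, x ≤ n := by
      intro x hx
      have := Finset.single_le_sum (f := fun y : ℕ => y) (fun y _ => Nat.zero_le y) hx
      exact le_trans this hsum
    have h5 : orderOf h = s.lcm id := by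
      rw [← Equiv.Perm.lcm_cycleType, Finset.lcm_def, Multiset.map_id, hs,
        Multiset.toFinset_val, Multiset.lcm_dedup]
    rw [h5]
    calc s.lcm id ≤ ∏ x ∈ s, x := g3_lcm_le_prod s (fun x hx => by have := hmem x hx; omega)
      _ ≤ n ^ s.card := Finset.prod_le_pow_card _ _ _ hle
      _ ≤ n ^ Nat.sqrt (2 * n) := Nat.pow_le_pow_right hpos hcard

end Pool.Agent.Lib.MP_c6e9f4_al.Exp
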