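import Pool.Agent.Lib.MP_c6e9f4_al.Exp.Defs

/-!
G4. Few points have a period divisible by `p` for some `p ∈ P`: double count pairs `(x, p)`,
`p ∣ minimalPeriod h x ≤ n`; the product of these primes is at most `n`, so there are at most
`Nat.log 2 n` of them for each `x`.
-/

set_option autoImplicit false

namespace Pool.Agent.Lib.MP_c6e9f4_al.Exp

open Equiv (Perm)

/-- few primes divide a positive number `m ≤ n` -/
theorem G4_card_le (P : Finset ℕ) (hP : ∀ p ∈ P, p.Prime) {m n : ℕ} (hm : 0 < m) (hmn : m ≤ n) :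
    (P.filter fun p => p ∣ m).card ≤ Nat.log 2 n := by
  have h1 : ∏ p ∈ P.filter (fun p => p ∣ m), p ∣ m := by
    refine Finset.prod_primes_dvd m (fun p hp => ?_) (fun p hp => (Finset.mem_filter.1 hp).2)
    exact (hP p (Finset.mem_filter.1 hp).1).prime
  have h2 : 2 ^ (P.filter fun p => p ∣ m).card ≤ ∏ p ∈ P.filter (fun p => p ∣ m), p := by
    rw [← Finset.prod_const]
    exact Finset.prod_le_prod' fun p hp => (hP p (Finset.mem_filter.1 hp).1).two_le
  have h3 : 2 ^ (P.filter fun p => p ∣ m).card ≤ n := h2.trans ((Nat.le_of_dvd hm h1).trans hmn)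
  exact Nat.le_log_of_pow_le one_lt_two h3

theorem exists_prime_few {α : Type} [Fintype α] [DecidableEq α] (h : Perm α) (P : Finset ℕ)
    (hne : P.Nonempty) (hP : ∀ p ∈ P, p.Prime) :
    ∃ p ∈ P, P.card * (Finset.univ.filter fun x => p ∣ Function.minimalPeriod h x).card ≤
      Fintype.card α * Nat.log 2 (Fintype.card α) := by
  obtain ⟨p, hp, hmin⟩ := Finset.exists_min_image P
    (fun p => (Finset.univ.filter fun x => p ∣ Function.minimalPeriod h x).card) hne
  refine ⟨p, hp, ?_⟩
  have h1 : P.card * (Finset.univ.filter fun x => p ∣ Function.minimalPeriod h x).card ≤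
      ∑ q ∈ P, (Finset.univ.filter fun x => q ∣ Function.minimalPeriod h x).card := by
    rw [← smul_eq_mul]
    exact Finset.card_nsmul_le_sum P _ _ hmin
  have h2 : ∑ q ∈ P, (Finset.univ.filter fun x => q ∣ Function.minimalPeriod h x).card
      = ∑ x : α, (P.filter fun q => q ∣ Function.minimalPeriod h x).card := by
    simp only [Finset.card_filter]
    exact Finset.sum_comm
  have h3 : ∀ x ∈ (Finset.univ : Finset α),
      (P.filter fun q => q ∣ Function.minimalPeriod h x).card ≤ Nat.log 2 (Fintype.card α) := by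
    intro x _
    refine G4_card_le P hP ?_ Function.minimalPeriod_le_card
    apply Function.minimalPeriod_pos_of_mem_periodicPts
    refine ⟨orderOf h, orderOf_pos h, ?_⟩
    rw [Function.IsPeriodicPt, Function.IsFixedPt, ← Equiv.Perm.coe_pow, pow_orderOf_eq_one]
    rfl
  refine h1.trans (h2.le.trans ((Finset.sum_le_card_nsmul _ _ _ h3).trans ?_))
  rw [Finset.card_univ, smul_eq_mul]

end Pool.Agent.Lib.MP_c6e9f4_al.Exp
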