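import Pool.Agent.Lib.MP_c6e9f4_al.Exp.Defs

/-!
G5. Power trick: `e` = prime-to-`p` part of `orderOf h` (`ordCompl[p] (orderOf h)`). If `p` does not
divide the period of `x`, the period divides `e`. The period of `x0` is `p`, which does not divide `e`.
-/

set_option autoImplicit false

namespace Pool.Agent.Lib.MP_c6e9f4_al.Exp

open Equiv (Perm)

theorem power_trick {α : Type} [Fintype α] [DecidableEq α] (h : Perm α) (p : ℕ) (hp : p.Prime)
    (x0 : α) (hx : Function.minimalPeriod h x0 = p) :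
    ∃ e : ℕ, e ≤ orderOf h ∧ (h ^ e) x0 ≠ x0 ∧
      ∀ x, ¬ p ∣ Function.minimalPeriod h x → (h ^ e) x = x := by
  have hpow : ∀ (n : ℕ) (x : α), (h ^ n) x = x ↔ Function.minimalPeriod h x ∣ n := by
    intro n x
    rw [← Function.isPeriodicPt_iff_minimalPeriod_dvd, Function.IsPeriodicPt, Function.IsFixedPt,
      Equiv.Perm.iterate_eq_pow]
  have ho : orderOf h ≠ 0 := (orderOf_pos h).ne'
  refine ⟨ordCompl[p] (orderOf h), Nat.ordCompl_le _ _, ?_, ?_⟩
  · rw [Ne, hpow, hx]
    exact Nat.not_dvd_ordCompl hp ho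
  · intro x hpx
    rw [hpow]
    have hd : Function.minimalPeriod h x ∣ orderOf h := by
      rw [← hpow, pow_orderOf_eq_one]
      rfl
    have hc : Nat.Coprime (Function.minimalPeriod h x) (ordProj[p] (orderOf h)) := by
      apply Nat.Coprime.pow_right
      exact ((Nat.Prime.coprime_iff_not_dvd hp).2 hpx).symm
    have hd2 : Function.minimalPeriod h x ∣ ordProj[p] (orderOf h) * ordCompl[p] (orderOf h) := by
      rw [Nat.ordProj_mul_ordCompl_eq_self]
      exact hd
    exact hc.dvd_of_dvd_mul_left hd2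

end Pool.Agent.Lib.MP_c6e9f4_al.Exp
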