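import Pool.Agent.Lib.MP_c6e9f4_al.Exp.Defs

/-!
G6. Tuples forcing cycles of the lengths `p ∈ P`: choose an injection of `Σ p ∈ P, Fin p` (or
`ZMod p`) into `B`, `f` = the injection, `g` = the injection after adding one in each `Fin p`.
-/

set_option autoImplicit false

namespace Pool.Agent.Lib.MP_c6e9f4_al.Exp

open Equiv (Perm)

theorem exists_cycle_tuple {α : Type} [Fintype α] [DecidableEq α] (B : Finset α)
    (P : Finset ℕ) (hP : ∀ p ∈ P, p.Prime) (hB : (∑ p ∈ P, p) ≤ B.card) :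
    ∃ (f g : Fin (∑ p ∈ P, p) → α), Function.Injective f ∧ Function.Injective g ∧
      (∀ i, f i ∈ B) ∧ (∀ i, g i ∈ B) ∧
      ∀ h : Perm α, (∀ i, h (f i) = g i) → ∀ p ∈ P, ∃ x ∈ B, Function.minimalPeriod h x = p := by
  classical
  have hnz : ∀ p : P, NeZero p.1 := fun p => ⟨(hP p.1 p.2).ne_zero⟩
  let T := Σ p : P, ZMod p.1
  have hfin : ∀ p : P, Fintype (ZMod p.1) := fun p => ZMod.fintype p.1
  have hcard : Fintype.card T = ∑ p ∈ P, p := by
    rw [Fintype.card_sigma, Finset.sum_congr rfl (fun p _ => ZMod.card p.1)]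
    exact Finset.sum_coe_sort P (fun p => p)
  let e : Fin (∑ p ∈ P, p) ≃ T := (Fintype.equivFinOfCardEq hcard).symm
  have hle : Fintype.card T ≤ Fintype.card B := by
    rw [hcard, Fintype.card_coe]; exact hB
  obtain ⟨ι⟩ := Function.Embedding.nonempty_of_card_le hle
  let σ : T → T := fun t => ⟨t.1, t.2 + 1⟩
  have hσ : Function.Injective σ := by
    rintro ⟨p, a⟩ ⟨q, b⟩ h
    have h1 : p = q := congrArg Sigma.fst h
    subst h1
    have h2 : a + 1 = b + 1 := eq_of_heq (Sigma.mk.inj h).2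
    rw [add_right_cancel h2]
  have hι : Function.Injective (fun t : T => (ι t : α)) :=
    Subtype.val_injective.comp ι.injective
  refine ⟨fun i => ι (e i), fun i => ι (σ (e i)), hι.comp e.injective,
    hι.comp (hσ.comp e.injective), fun i => (ι (e i)).2, fun i => (ι (σ (e i))).2, ?_⟩
  intro h hh p hp
  have hh' : ∀ t : T, h (ι t) = ι (σ t) := by
    intro t
    have := hh (e.symm t)
    simpa using this
  have hiter : ∀ k : ℕ, h^[k] (ι (⟨⟨p, hp⟩, 0⟩ : T)) = ι (⟨⟨p, hp⟩, (k : ZMod p)⟩ : T) := by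
    intro k
    induction k with
    | zero => simp
    | succ k ih =>
      rw [Function.iterate_succ_apply', ih, hh']
      simp only [σ]
      push_cast
      rfl
  have hkey : ∀ k : ℕ, h^[k] (ι (⟨⟨p, hp⟩, 0⟩ : T)) = ι (⟨⟨p, hp⟩, 0⟩ : T) ↔ p ∣ k := by
    intro k
    rw [hiter, ← ZMod.natCast_eq_zero_iff]
    constructor
    · intro h1
      have h2 := hι h1
      exact eq_of_heq (Sigma.mk.inj h2).2
    · intro h1
      rw [h1]
  refine ⟨ι (⟨⟨p, hp⟩, 0⟩ : T), (ι _).2, ?_⟩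
  apply Nat.dvd_antisymm
  · exact Function.IsPeriodicPt.minimalPeriod_dvd ((hkey p).2 dvd_rfl)
  · rw [← hkey]
    exact Function.iterate_minimalPeriod


end Pool.Agent.Lib.MP_c6e9f4_al.Exp
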