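import Pool.Agent.Lib.MP_c6e9f4_al.Exp.Defs

/-!
G7. Commutators of permutations whose supports meet in one point, conjugation of three-cycles.
`cyc3 x y z = swap x y * swap y z` maps `x ↦ y ↦ z ↦ x`.
-/

set_option autoImplicit false

namespace Pool.Agent.Lib.MP_c6e9f4_al.Exp

open Equiv (Perm)

/-- The three-cycle `x ↦ y ↦ z ↦ x`. -/
def cyc3 {α : Type} [DecidableEq α] (x y z : α) : Perm α := Equiv.swap x y * Equiv.swap y z

theorem comm_eq_cyc3 {α : Type} [Fintype α] [DecidableEq α] (a b : Perm α) (x : α)
    (hax : a x ≠ x) (hbx : b x ≠ x) (h : ∀ y, a y ≠ y → b y ≠ y → y = x) :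
    a * b * a⁻¹ * b⁻¹ = cyc3 x (a x) (b x) ∧ a x ≠ b x := by
  have hane : ∀ y, a y ≠ y → y ≠ x → b y = y :=
    fun y h1 h2 => by_contra fun h3 => h2 (h y h1 h3)
  have hbne : ∀ y, b y ≠ y → y ≠ x → a y = y :=
    fun y h1 h2 => by_contra fun h3 => h2 (h y h3 h1)
  have ha2 : a (a x) ≠ a x := fun e => hax (a.injective e)
  have hb2 : b (b x) ≠ b x := fun e => hbx (b.injective e)
  have hbax : b (a x) = a x := hane _ ha2 hax
  have habx : a (b x) = b x := hbne _ hb2 hbx
  have hne : a x ≠ b x := by
    intro e
    rw [e] at hbax
    exact hb2 hbax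
  refine ⟨?_, hne⟩
  ext y
  obtain ⟨u, hu⟩ := b.surjective y
  have hb1 : b⁻¹ y = u := by rw [← hu]; simp
  obtain ⟨v, hv⟩ := a.surjective u
  have ha1 : a⁻¹ u = v := by rw [← hv]; simp
  have hval : (a * b * a⁻¹ * b⁻¹) y = a (b v) := by
    simp only [Equiv.Perm.mul_apply, hb1, ha1]
  rw [hval]
  simp only [cyc3, Equiv.Perm.mul_apply]
  by_cases hyx : y = x
  · -- y = x
    subst hyx
    have hux : u ≠ y := by
      rintro rfl
      exact hbx hu
    have hau : a u = u := hbne u (by rw [hu]; exact hux.symm) hux
    have hvu : v = u := a.injective (by rw [hv, hau])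
    rw [hvu, hu, Equiv.swap_apply_of_ne_of_ne hax.symm hbx.symm, Equiv.swap_apply_left]
  · by_cases hya : y = a x
    · subst hya
      have hux : u = a x := b.injective (by rw [hu, hbax])
      have hvx : v = x := a.injective (by rw [hv, hux])
      rw [hvx, habx, Equiv.swap_apply_left, Equiv.swap_apply_of_ne_of_ne hbx hne.symm]
    · by_cases hyb : y = b x
      · subst hyb
        have hux : u = x := b.injective hu
        have hvx : v ≠ x := by
          rintro rfl
          exact hax (by rw [hv, hux])
        have hbv : b v = v := hane v (by rw [hv, hux]; exact hvx.symm) hvx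
        rw [hbv, hv, hux, Equiv.swap_apply_right, Equiv.swap_apply_right]
      · rw [Equiv.swap_apply_of_ne_of_ne hya hyb, Equiv.swap_apply_of_ne_of_ne hyx hya]
        by_cases hby : b y = y
        · have huy : u = y := b.injective (by rw [hu, hby])
          by_cases hay : a y = y
          · have hvy : v = y := a.injective (by rw [hv, huy, hay])
            rw [hvy, hby, hay]
          · have hvx : v ≠ x := by
              rintro rfl
              exact hya (by rw [hv, huy])
            have hvv : a v ≠ v := by
              intro e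
              apply hay
              rw [hv, huy] at e
              have h3 : a y = a v := congrArg a e
              rw [h3, hv, huy]
            rw [hane v hvv hvx, hv, huy]
        · have hay : a y = y := hbne y hby hyx
          have hux : u ≠ x := by
            rintro rfl
            exact hyb hu.symm
          have hbu : b u ≠ u := by
            intro e
            apply hby
            rw [hu] at e
            have h3 : b y = b u := congrArg b e
            rw [h3, hu]
          have hau : a u = u := hbne u hbu hux
          have hvu : v = u := a.injective (by rw [hv, hau])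
          rw [hvu, hu, hay]

theorem conj_cyc3 {α : Type} [DecidableEq α] (h : Perm α) (x y z : α) :
    h * cyc3 x y z * h⁻¹ = cyc3 (h x) (h y) (h z) := by
  unfold cyc3
  rw [← mul_assoc, Equiv.mul_swap_eq_swap_mul h x y, mul_assoc (Equiv.swap (h x) (h y)) h,
    Equiv.mul_swap_eq_swap_mul h y z, ← mul_assoc, mul_inv_cancel_right]

end Pool.Agent.Lib.MP_c6e9f4_al.Exp
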