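import Pool.Agent.Lib.MP_c6e9f4_al.Exp.G7

/-!
G8. Every even permutation of `B` is a product of at most `n` three-cycles of `B`. Induction on the
size of the support: if `σ ≠ 1` is even, `x ≠ σ x = y`, there is `z` in the support different from `x, y`
(else `σ` is a transposition); multiplying by a three-cycle on `x, y, z` fixes `x` and no new point
is moved.
-/

set_option autoImplicit false

namespace Pool.Agent.Lib.MP_c6e9f4_al.Exp

open Equiv (Perm)

theorem G8_sign {α : Type} [Fintype α] [DecidableEq α] {x y z : α} (hxy : x ≠ y) (hyz : y ≠ z) :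
    Equiv.Perm.sign (cyc3 x y z) = 1 := by
  rw [cyc3, Equiv.Perm.sign_mul, Equiv.Perm.sign_swap hxy, Equiv.Perm.sign_swap hyz]
  simp

theorem G8_fix {α : Type} [DecidableEq α] {x y z w : α} (h1 : w ≠ x) (h2 : w ≠ y)
    (h3 : w ≠ z) : cyc3 x y z w = w := by
  rw [cyc3, Equiv.Perm.mul_apply, Equiv.swap_apply_of_ne_of_ne h2 h3,
    Equiv.swap_apply_of_ne_of_ne h1 h2]

theorem G8_map {α : Type} [DecidableEq α] {x y z : α} (h1 : x ≠ y) (h2 : x ≠ z) :
    cyc3 x y z x = y := by
  rw [cyc3, Equiv.Perm.mul_apply, Equiv.swap_apply_of_ne_of_ne h1 h2, Equiv.swap_apply_left]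

theorem G8_aux {α : Type} [Fintype α] [DecidableEq α] (B : Finset α) (ρ : Perm α → ℝ)
    (hρ : LenFun ρ) (A : ℝ) (hA : 0 ≤ A)
    (h3 : ∀ x ∈ B, ∀ y ∈ B, ∀ z ∈ B, x ≠ y → y ≠ z → x ≠ z → ρ (cyc3 x y z) ≤ A) (n : ℕ) :
    ∀ h ∈ AltB B, h.support.card ≤ n → ρ h ≤ (n : ℝ) * A := by
  induction n with
  | zero =>
    intro h _ hn
    have h1 : h = 1 := Equiv.Perm.card_support_eq_zero.mp (Nat.le_zero.mp hn)
    rw [h1, hρ.one]
    simp
  | succ n ih =>
    intro h hh hn
    by_cases h1 : h = 1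
    · rw [h1, hρ.one]
      positivity
    have hB : ∀ w, h w ≠ w → w ∈ B := fun w hw => by
      by_contra hc
      exact hw (hh.2 w hc)
    have hc2 : 2 ≤ h.support.card := Equiv.Perm.two_le_card_support_of_ne_one h1
    have hc3 : 3 ≤ h.support.card := by
      rcases Nat.lt_or_ge 2 h.support.card with hlt | hge
      · exact hlt
      · have hsw : h.IsSwap := Equiv.Perm.card_support_eq_two.mp (le_antisymm hge hc2)
        have := hsw.sign_eq
        rw [hh.1] at this
        exact absurd this (by decide)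
    obtain ⟨x, hx⟩ : h.support.Nonempty := Finset.card_pos.mp (by omega)
    have hx' : h x ≠ x := Equiv.Perm.mem_support.mp hx
    have hy' : h (h x) ≠ h x := fun hc => hx' (h.injective hc)
    obtain ⟨z, hz⟩ : ((h.support.erase x).erase (h x)).Nonempty := by
      apply Finset.card_pos.mp
      rw [Finset.card_erase_of_mem, Finset.card_erase_of_mem hx]
      · omega
      · exact Finset.mem_erase.mpr ⟨hx', Equiv.Perm.mem_support.mpr hy'⟩
    obtain ⟨hz1, hz2⟩ := Finset.mem_erase.mp hz
    obtain ⟨hz3, hz4⟩ := Finset.mem_erase.mp hz2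
    have hz' : h z ≠ z := Equiv.Perm.mem_support.mp hz4
    set c : Perm α := cyc3 x (h x) z with hc
    have hcx : c x = h x := G8_map (Ne.symm hx') (Ne.symm hz3)
    have hg : c⁻¹ * h ∈ AltB B := by
      refine ⟨?_, fun w hw => ?_⟩
      · rw [Equiv.Perm.sign_mul, Equiv.Perm.sign_inv, hh.1, hc,
          G8_sign (Ne.symm hx') (Ne.symm hz1)]
        simp
      · have hw1 : h w = w := hh.2 w hw
        rw [Equiv.Perm.mul_apply, hw1, Equiv.Perm.inv_eq_iff_eq]
        refine (G8_fix ?_ ?_ ?_).symm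
        · rintro rfl
          exact hw (hB _ hx')
        · rintro rfl
          exact hw (hB _ hy')
        · rintro rfl
          exact hw (hB _ hz')
    have hsupp : (c⁻¹ * h).support ⊆ h.support.erase x := by
      intro w hw
      have hw' := Equiv.Perm.mem_support.mp hw
      refine Finset.mem_erase.mpr ⟨?_, Equiv.Perm.mem_support.mpr fun hw1 => hw' ?_⟩
      · rintro rfl
        apply hw'
        rw [Equiv.Perm.mul_apply, Equiv.Perm.inv_eq_iff_eq]
        exact hcx.symm
      · rw [Equiv.Perm.mul_apply, hw1, Equiv.Perm.inv_eq_iff_eq]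
        refine (G8_fix ?_ ?_ ?_).symm
        · rintro rfl
          exact hx' hw1
        · rintro rfl
          exact hy' hw1
        · rintro rfl
          exact hz' hw1
    have hcard : (c⁻¹ * h).support.card ≤ n := by
      have := Finset.card_le_card hsupp
      rw [Finset.card_erase_of_mem hx] at this
      omega
    have hcA : ρ c ≤ A := h3 x (hB _ hx') (h x) (hB _ hy') z (hB _ hz') (Ne.symm hx')
      (Ne.symm hz1) (Ne.symm hz3)
    have hfin : ρ h ≤ ρ c + ρ (c⁻¹ * h) := by
      have := hρ.mul_le c (c⁻¹ * h)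
      rwa [mul_inv_cancel_left] at this
    have := ih _ hg hcard
    push_cast
    linarith

theorem len_alt_le {α : Type} [Fintype α] [DecidableEq α] (B : Finset α) (ρ : Perm α → ℝ)
    (hρ : LenFun ρ) (A : ℝ) (hA : 0 ≤ A)
    (h3 : ∀ x ∈ B, ∀ y ∈ B, ∀ z ∈ B, x ≠ y → y ≠ z → x ≠ z → ρ (cyc3 x y z) ≤ A)
    (h : Perm α) (hh : h ∈ AltB B) : ρ h ≤ (Fintype.card α : ℝ) * A := by
  refine (G8_aux B ρ hρ A hA h3 (Fintype.card α) h hh ?_)
  exact Finset.card_le_univ _

end Pool.Agent.Lib.MP_c6e9f4_al.Exp
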