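import Pool.Agent.Lib.MP_c6e9f4_al.Exp.G1
import Pool.Agent.Lib.MP_c6e9f4_al.Exp.G2
import Pool.Agent.Lib.MP_c6e9f4_al.Exp.G3
import Pool.Agent.Lib.MP_c6e9f4_al.Exp.G4
import Pool.Agent.Lib.MP_c6e9f4_al.Exp.G5
import Pool.Agent.Lib.MP_c6e9f4_al.Exp.G6
import Pool.Agent.Lib.MP_c6e9f4_al.Exp.G8

/-!
G9. Short words for three-cycles. (i) `exists_primes`, `exists_cycle_tuple`, `KT`, `bfs_tuple` give
`h` with `ρ h ≤ n^(kk n) η` having a point of period `p` in `B` for every `p ∈ P`; (ii)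
`exists_prime_few` and `power_trick` give `u = h^e ≠ 1` moving at most `kk n` points, `ρ u ≤ e ρ h`;
(iii) `KT` for the tuple of the moved points of `u`: `g` with `g x₁ = x₀`, all other moved points sent to
points not moved by `u` (there are `|B| ≥ n/2 ≥ 2 kk n` points); `comm_eq_cyc3` for `u, g u g⁻¹`;
(iv) `KT` with 3 points and `conj_cyc3`; (v) `len_alt_le`; (vi) all lengths together are at most
`exp (n^0.77)` for large `n` (`kk n ≤ n^0.75`, `orderOf_le`).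
-/

set_option autoImplicit false

namespace Pool.Agent.Lib.MP_c6e9f4_al.Exp

open Equiv (Perm)

theorem g9_kk_le (n : ℕ) : (kk n : ℝ) ≤ (n : ℝ) ^ (3 / 4 : ℝ) :=
  Nat.floor_le (Real.rpow_nonneg (Nat.cast_nonneg n) _)

theorem g9_sqrt_le (n : ℕ) (hn : 16 ≤ n) : (Nat.sqrt (2 * n) : ℝ) ≤ (n : ℝ) ^ (3 / 4 : ℝ) := by
  have hn' : (16 : ℝ) ≤ n := by exact_mod_cast hn
  have hn0 : (0 : ℝ) < n := by linarith
  have h1 : ((Nat.sqrt (2 * n) : ℕ) : ℝ) ^ 2 ≤ 2 * n := by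
    have := Nat.sqrt_le' (2 * n)
    exact_mod_cast this
  have h2 : ((n : ℝ) ^ (3 / 4 : ℝ)) ^ 2 = (n : ℝ) * (n : ℝ) ^ (1 / 2 : ℝ) := by
    rw [← Real.rpow_natCast, ← Real.rpow_mul hn0.le]
    conv_rhs => rw [← Real.rpow_one (n : ℝ)]
    rw [Real.rpow_one, ← Real.rpow_one_add' hn0.le (by norm_num)]
    norm_num
  have h3 : (4 : ℝ) ≤ (n : ℝ) ^ (1 / 2 : ℝ) := by
    have : (4 : ℝ) = (16 : ℝ) ^ (1 / 2 : ℝ) := by
      rw [show (16 : ℝ) = 4 ^ (2 : ℝ) by norm_num, ← Real.rpow_mul (by norm_num)]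
      norm_num
    rw [this]
    exact Real.rpow_le_rpow (by norm_num) hn' (by norm_num)
  have h4 : ((Nat.sqrt (2 * n) : ℕ) : ℝ) ^ 2 ≤ ((n : ℝ) ^ (3 / 4 : ℝ)) ^ 2 := by
    rw [h2]; nlinarith
  exact (pow_le_pow_iff_left₀ (Nat.cast_nonneg _) (Real.rpow_nonneg hn0.le _) (by norm_num)).1 h4

theorem g9_kk_ge (n : ℕ) (hn : 16 ≤ n) : 3 ≤ kk n := by
  have hn' : (16 : ℝ) ≤ n := by exact_mod_cast hn
  apply Nat.le_floor
  have : (8 : ℝ) = (16 : ℝ) ^ (3 / 4 : ℝ) := by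
    rw [show (16 : ℝ) = 2 ^ (4 : ℝ) by norm_num, ← Real.rpow_mul (by norm_num)]
    norm_num
  have h2 : (16 : ℝ) ^ (3 / 4 : ℝ) ≤ (n : ℝ) ^ (3 / 4 : ℝ) :=
    Real.rpow_le_rpow (by norm_num) hn' (by norm_num)
  push_cast
  linarith

theorem g9_kk_four (n : ℕ) (hn : 256 ≤ n) : 4 * kk n ≤ n := by
  have hn' : (256 : ℝ) ≤ n := by exact_mod_cast hn
  have hn0 : (0 : ℝ) < n := by linarith
  have h1 := g9_kk_le n
  have h2 : (n : ℝ) ^ (3 / 4 : ℝ) * (n : ℝ) ^ (1 / 4 : ℝ) = n := by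
    rw [← Real.rpow_add hn0]; norm_num
  have h3 : (4 : ℝ) ≤ (n : ℝ) ^ (1 / 4 : ℝ) := by
    have : (4 : ℝ) = (256 : ℝ) ^ (1 / 4 : ℝ) := by
      rw [show (256 : ℝ) = (4 : ℝ) ^ (4 : ℝ) by norm_num,
        ← Real.rpow_mul (show (0 : ℝ) ≤ 4 by norm_num)]
      norm_num
    exact this.le.trans (Real.rpow_le_rpow (by norm_num) hn' (by norm_num))
  have h4 : (0 : ℝ) ≤ (n : ℝ) ^ (3 / 4 : ℝ) := Real.rpow_nonneg hn0.le _
  have h5 : (4 : ℝ) * kk n ≤ n := by nlinarith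
  exact_mod_cast h5

theorem g9_num : ∃ n0 : ℕ, ∀ n : ℕ, n0 ≤ n → 256 ≤ n ∧
    (n : ℝ) * (4 * (n : ℝ) ^ (Nat.sqrt (2 * n) + kk n) + 4 * (n : ℝ) ^ (kk n) + 2 * (n : ℝ) ^ 3) ≤
      Real.exp ((n : ℝ) ^ (0.77 : ℝ)) := by
  have hlo := (isLittleO_log_rpow_atTop (r := (0.02 : ℝ)) (by norm_num)).bound
    (show (0 : ℝ) < 1 / 3 by norm_num)
  have hlo' := tendsto_natCast_atTop_atTop (R := ℝ) |>.eventually hlo
  obtain ⟨n1, hn1⟩ := Filter.eventually_atTop.1 hlo'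
  refine ⟨max n1 256, fun n hn => ⟨le_trans (le_max_right _ _) hn, ?_⟩⟩
  have hn256 : 256 ≤ n := le_trans (le_max_right _ _) hn
  have h256 : (256 : ℝ) ≤ n := by exact_mod_cast hn256
  have hn0 : (0 : ℝ) < n := by linarith
  have hn1' : (1 : ℝ) ≤ n := by linarith
  have hl := hn1 n (le_trans (le_max_left _ _) hn)
  have hlog : 0 ≤ Real.log n := Real.log_nonneg hn1'
  rw [Real.norm_of_nonneg hlog, Real.norm_of_nonneg (Real.rpow_nonneg hn0.le _)] at hl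
  set s := Nat.sqrt (2 * n) with hs
  set k := kk n with hk
  have hk3 : 3 ≤ k := g9_kk_ge n (by omega)
  have hk1 : (n : ℝ) ^ k ≤ (n : ℝ) ^ (s + k) := pow_le_pow_right₀ hn1' (by omega)
  have hk2 : (n : ℝ) ^ 3 ≤ (n : ℝ) ^ (s + k) := pow_le_pow_right₀ hn1' (by omega)
  have hpos : 0 < (n : ℝ) ^ (s + k) := by positivity
  have e1 : (n : ℝ) * (4 * (n : ℝ) ^ (s + k) + 4 * (n : ℝ) ^ k + 2 * (n : ℝ) ^ 3) ≤
      (n : ℝ) ^ (s + k + 2) := by
    calc (n : ℝ) * (4 * (n : ℝ) ^ (s + k) + 4 * (n : ℝ) ^ k + 2 * (n : ℝ) ^ 3)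
        ≤ (n : ℝ) * (10 * (n : ℝ) ^ (s + k)) := by
          apply mul_le_mul_of_nonneg_left _ hn0.le; linarith
      _ ≤ (n : ℝ) * (n * (n : ℝ) ^ (s + k)) := by
          apply mul_le_mul_of_nonneg_left _ hn0.le
          apply mul_le_mul_of_nonneg_right _ hpos.le; linarith
      _ = (n : ℝ) ^ (s + k + 2) := by ring
  refine e1.trans ?_
  have e2 : (n : ℝ) ^ (s + k + 2) = Real.exp (((s + k + 2 : ℕ) : ℝ) * Real.log n) := by
    rw [Real.exp_nat_mul, Real.exp_log hn0]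
  rw [e2]
  apply Real.exp_le_exp.2
  have hx0 : (0 : ℝ) ≤ (n : ℝ) ^ (3 / 4 : ℝ) := Real.rpow_nonneg hn0.le _
  have hs1 := g9_sqrt_le n (by omega)
  have hk4 := g9_kk_le n
  have hk5 : (2 : ℝ) ≤ (n : ℝ) ^ (3 / 4 : ℝ) := by
    have : (3 : ℝ) ≤ k := by exact_mod_cast hk3
    linarith
  have e3 : ((s + k + 2 : ℕ) : ℝ) ≤ 3 * (n : ℝ) ^ (3 / 4 : ℝ) := by
    push_cast
    linarith
  calc ((s + k + 2 : ℕ) : ℝ) * Real.log n
      ≤ (3 * (n : ℝ) ^ (3 / 4 : ℝ)) * (1 / 3 * (n : ℝ) ^ (0.02 : ℝ)) := by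
        apply mul_le_mul e3 hl hlog (by positivity)
    _ = (n : ℝ) ^ (3 / 4 : ℝ) * (n : ℝ) ^ (0.02 : ℝ) := by ring
    _ = (n : ℝ) ^ (0.77 : ℝ) := by
        rw [← Real.rpow_add hn0]; norm_num

theorem g9_len_pow {α : Type} {ρ : Perm α → ℝ} (hρ : LenFun ρ) (h : Perm α) (e : ℕ) :
    ρ (h ^ e) ≤ e * ρ h := by
  induction e with
  | zero => simp [hρ.one]
  | succ e ih =>
    rw [pow_succ]
    have := hρ.mul_le (h ^ e) h
    push_cast
    linarith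

theorem g9_conj_le {α : Type} {ρ : Perm α → ℝ} (hρ : LenFun ρ) (g u : Perm α) :
    ρ (g * u * g⁻¹) ≤ 2 * ρ g + ρ u := by
  have h1 := hρ.mul_le (g * u) g⁻¹
  have h2 := hρ.mul_le g u
  have h3 := hρ.inv g
  linarith

theorem g9_comm_le {α : Type} {ρ : Perm α → ℝ} (hρ : LenFun ρ) (a b : Perm α) :
    ρ (a * b * a⁻¹ * b⁻¹) ≤ 2 * ρ a + 2 * ρ b := by
  have h1 := hρ.mul_le (a * b * a⁻¹) b⁻¹
  have h2 := hρ.mul_le (a * b) a⁻¹
  have h3 := hρ.mul_le a b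
  have h4 := hρ.inv a
  have h5 := hρ.inv b
  linarith

theorem g9_supp {α : Type} {S : Set (Perm α)} {B : Finset α} (hS : SuppIn S B) (h : Perm α)
    (hh : h ∈ Subgroup.closure S) : ∀ x, x ∉ B → h x = x := by
  induction hh using Subgroup.closure_induction with
  | mem g hg => exact hS g hg
  | one => intro x _; rfl
  | mul a b _ _ iha ihb =>
    intro x hx
    rw [Equiv.Perm.mul_apply, ihb x hx, iha x hx]
  | inv a _ iha =>
    intro x hx
    rw [Equiv.Perm.inv_eq_iff_eq]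
    exact (iha x hx).symm

theorem g9_mem {α : Type} {S : Set (Perm α)} {B : Finset α} (hS : SuppIn S B) (h : Perm α)
    (hh : h ∈ Subgroup.closure S) (x : α) (hx : x ∈ B) : h x ∈ B := by
  by_contra hn
  have h1 := g9_supp hS h hh _ hn
  have h2 : h x = x := h.injective h1
  rw [h2] at hn
  exact hn hx

/-- A tuple which fixes one point and moves the others away from `T`. -/
theorem g9_tuple {α : Type} [DecidableEq α] (B T : Finset α) (hTB : T ⊆ B)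
    (hc : 2 * T.card ≤ B.card) (x0 : α) (hx0 : x0 ∈ T) :
    ∃ f g : Fin T.card → α, Function.Injective f ∧ Function.Injective g ∧
      (∀ i, f i ∈ B) ∧ (∀ i, g i ∈ B) ∧
      ∀ h : Perm α, (∀ i, h (f i) = g i) → h x0 = x0 ∧ ∀ y ∈ T, y ≠ x0 → h y ∉ T := by
  classical
  have hcard : T.card ≤ (B \ T).card := by
    have := Finset.card_sdiff_add_card_eq_card hTB
    omega
  obtain ⟨ψ⟩ : Nonempty (T ↪ (B \ T : Finset α)) := by
    apply Function.Embedding.nonempty_of_card_le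
    simpa using hcard
  let φ : T → α := fun x => if (x : α) = x0 then x0 else (ψ x : α)
  have hφB : ∀ x, φ x ∈ B := by
    intro x
    by_cases hx : (x : α) = x0
    · simp only [φ, hx, if_true]; exact hTB hx0
    · simp only [φ, hx, if_false]
      exact (Finset.mem_sdiff.1 (ψ x).2).1
  have hψT : ∀ x, (ψ x : α) ∉ T := fun x => (Finset.mem_sdiff.1 (ψ x).2).2
  have hφinj : Function.Injective φ := by
    intro x y hxy
    by_cases hx : (x : α) = x0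
    · by_cases hy : (y : α) = x0
      · exact Subtype.ext (hx.trans hy.symm)
      · exfalso
        simp only [φ, hx, hy, if_true, if_false] at hxy
        exact hψT y (hxy ▸ hx0)
    · by_cases hy : (y : α) = x0
      · exfalso
        simp only [φ, hx, hy, if_true, if_false] at hxy
        exact hψT x (hxy ▸ hx0)
      · simp only [φ, hx, hy, if_false] at hxy
        exact ψ.injective (Subtype.ext hxy)
  let e : Fin T.card ≃ T := T.equivFin.symm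
  refine ⟨fun i => (e i : α), fun i => φ (e i), ?_, ?_, ?_, ?_, ?_⟩
  · exact Subtype.val_injective.comp e.injective
  · exact hφinj.comp e.injective
  · intro i; exact hTB (e i).2
  · intro i; exact hφB _
  · intro h hh
    have key : ∀ y (hy : y ∈ T), h y = φ ⟨y, hy⟩ := by
      intro y hy
      have := hh (e.symm ⟨y, hy⟩)
      simpa using this
    refine ⟨?_, ?_⟩
    · rw [key x0 hx0]; simp [φ]
    · intro y hy hne
      rw [key y hy]
      simp only [φ, hne, if_false]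
      exact hψT _

theorem g9_inj3 {α : Type} {a b c : α} (hab : a ≠ b) (hbc : b ≠ c) (hac : a ≠ c) :
    Function.Injective (![a, b, c] : Fin 3 → α) := by
  intro i j hij
  fin_cases i <;> fin_cases j <;> simp_all

theorem g9_in3 {α : Type} {B : Finset α} {a b c : α} (ha : a ∈ B) (hb : b ∈ B) (hc : c ∈ B) :
    ∀ i, (![a, b, c] : Fin 3 → α) i ∈ B := by
  intro i
  fin_cases i
  · exact ha
  · exact hb
  · exact hc

theorem gen : ∃ n0 : ℕ, ∀ n : ℕ, n0 ≤ n → ∀ (α : Type) [Fintype α] [DecidableEq α],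
    Fintype.card α = n → ∀ (S : Set (Perm α)) (B : Finset α), SuppIn S B → n ≤ 2 * B.card →
    KT (Subgroup.closure S) B (kk n) → ∀ ρ : Perm α → ℝ, LenFun ρ → ∀ η : ℝ, 0 ≤ η →
    (∀ g ∈ S, ρ g ≤ η) → ∀ h ∈ AltB B, ρ h ≤ Real.exp ((n : ℝ) ^ (0.77 : ℝ)) * η := by
  obtain ⟨n1, hnum⟩ := g9_num
  obtain ⟨n2, hprimes⟩ := exists_primes
  refine ⟨max n1 n2, fun n hn α _ _ hcard S B hSB hB hKT ρ hρ η hη0 hη => ?_⟩
  obtain ⟨hn256, hbig⟩ := hnum n (le_trans (le_max_left _ _) hn)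
  obtain ⟨P, hPne, hPp, hPsum, hPcard⟩ := hprimes n (le_trans (le_max_right _ _) hn)
  have hkk4 := g9_kk_four n hn256
  have hkk3 := g9_kk_ge n (by omega)
  have hn1 : (1 : ℝ) ≤ n := by
    have : (256 : ℝ) ≤ n := by exact_mod_cast hn256
    linarith
  have hn0 : (0 : ℝ) ≤ n := by linarith
  have hPB : (∑ p ∈ P, p) ≤ B.card := by omega
  obtain ⟨f, g, hf, hg, hfB, hgB, hcyc⟩ := exists_cycle_tuple B P hPp hPB
  obtain ⟨h0, hh0S, hh0, hh0ρ⟩ := bfs_tuple S ρ hρ η hη0 hη _ f g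
    (hKT _ f g hPsum hf hg hfB hgB)
  obtain ⟨p, hpP, hpfew⟩ := exists_prime_few h0 P hPne hPp
  obtain ⟨x0, hx0B, hx0p⟩ := hcyc h0 hh0 p hpP
  obtain ⟨e, he, hux0, hufix⟩ := power_trick h0 p (hPp p hpP) x0 hx0p
  set u : Perm α := h0 ^ e with hu
  have huS : u ∈ Subgroup.closure S := Subgroup.pow_mem _ hh0S e
  -- the support
  set T : Finset α := u.support with hT
  have hTB : T ⊆ B := by
    intro x hx
    by_contra hxB
    exact (Equiv.Perm.mem_support.1 hx) (g9_supp hSB u huS x hxB)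
  have hTk : T.card ≤ kk n := by
    have h1 : T ⊆ Finset.univ.filter fun x => p ∣ Function.minimalPeriod h0 x := by
      intro x hx
      rw [Finset.mem_filter]
      refine ⟨Finset.mem_univ _, ?_⟩
      by_contra hnd
      exact (Equiv.Perm.mem_support.1 hx) (hufix x hnd)
    have h2 := Finset.card_le_card h1
    rw [hcard] at hpfew
    have h3 : P.card * T.card ≤ P.card * kk n :=
      (Nat.mul_le_mul_left _ h2).trans (hpfew.trans hPcard)
    exact Nat.le_of_mul_le_mul_left h3 hPne.card_pos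
  have hx0T : x0 ∈ T := Equiv.Perm.mem_support.2 hux0
  obtain ⟨f', g', hf', hg', hfB', hgB', htup⟩ := g9_tuple B T hTB (by omega) x0 hx0T
  obtain ⟨g1, hg1S, hg1, hg1ρ⟩ := bfs_tuple S ρ hρ η hη0 hη _ f' g'
    (hKT _ f' g' hTk hf' hg' hfB' hgB')
  obtain ⟨hg1x0, hg1T⟩ := htup g1 hg1
  set b : Perm α := g1 * u * g1⁻¹ with hb
  have hbS : b ∈ Subgroup.closure S :=
    Subgroup.mul_mem _ (Subgroup.mul_mem _ hg1S huS) (Subgroup.inv_mem _ hg1S)
  have hg1i : g1⁻¹ x0 = x0 := by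
    rw [Equiv.Perm.inv_eq_iff_eq]; exact hg1x0.symm
  have hbx0 : b x0 ≠ x0 := by
    rw [hb, Equiv.Perm.mul_apply, Equiv.Perm.mul_apply, hg1i]
    intro h
    apply hux0
    apply g1.injective
    rw [h, hg1x0]
  have hmeet : ∀ y, u y ≠ y → b y ≠ y → y = x0 := by
    intro y hy1 hy2
    have hyT : y ∈ T := Equiv.Perm.mem_support.2 hy1
    have hz : u (g1⁻¹ y) ≠ g1⁻¹ y := by
      intro h
      apply hy2
      rw [hb, Equiv.Perm.mul_apply, Equiv.Perm.mul_apply, h]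
      simp
    have hzT : g1⁻¹ y ∈ T := Equiv.Perm.mem_support.2 hz
    by_cases hz0 : g1⁻¹ y = x0
    · rw [Equiv.Perm.inv_eq_iff_eq] at hz0
      rw [hz0, hg1x0]
    · exfalso
      apply hg1T _ hzT hz0
      simpa using hyT
  obtain ⟨hcomm, hne⟩ := comm_eq_cyc3 u b x0 hux0 hbx0 hmeet
  -- lengths
  set k := kk n with hk
  set s := Nat.sqrt (2 * n) with hs
  have hh0ρ' : ρ h0 ≤ (n : ℝ) ^ k * η := by
    rw [hcard] at hh0ρ
    refine hh0ρ.trans (mul_le_mul_of_nonneg_right ?_ hη0)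
    exact pow_le_pow_right₀ hn1 hPsum
  have hg1ρ' : ρ g1 ≤ (n : ℝ) ^ k * η := by
    rw [hcard] at hg1ρ
    refine hg1ρ.trans (mul_le_mul_of_nonneg_right ?_ hη0)
    exact pow_le_pow_right₀ hn1 hTk
  have he' : (e : ℝ) ≤ (n : ℝ) ^ s := by
    have h1 := orderOf_le h0
    rw [hcard] at h1
    have h2 := he.trans h1
    exact_mod_cast h2
  have huρ : ρ u ≤ (n : ℝ) ^ (s + k) * η := by
    calc ρ u ≤ e * ρ h0 := g9_len_pow hρ h0 e
      _ ≤ (n : ℝ) ^ s * ((n : ℝ) ^ k * η) := by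
        apply mul_le_mul he' hh0ρ' (hρ.nonneg _) (by positivity)
      _ = (n : ℝ) ^ (s + k) * η := by ring
  have hcρ : ρ (cyc3 x0 (u x0) (b x0)) ≤
      (4 * (n : ℝ) ^ (s + k) + 4 * (n : ℝ) ^ k) * η := by
    rw [← hcomm]
    have h1 := g9_comm_le hρ u b
    have h2 : ρ b ≤ 2 * ρ g1 + ρ u := g9_conj_le hρ g1 u
    calc ρ (u * b * u⁻¹ * b⁻¹) ≤ 4 * ρ u + 4 * ρ g1 := by linarith
      _ ≤ 4 * ((n : ℝ) ^ (s + k) * η) + 4 * ((n : ℝ) ^ k * η) := by linarith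
      _ = _ := by ring
  have hux0B : u x0 ∈ B := g9_mem hSB u huS x0 hx0B
  have hbx0B : b x0 ∈ B := g9_mem hSB b hbS x0 hx0B
  -- all three-cycles
  have h3 : ∀ x ∈ B, ∀ y ∈ B, ∀ z ∈ B, x ≠ y → y ≠ z → x ≠ z →
      ρ (cyc3 x y z) ≤
        (4 * (n : ℝ) ^ (s + k) + 4 * (n : ℝ) ^ k + 2 * (n : ℝ) ^ 3) * η := by
    intro x hx y hy z hz hxy hyz hxz
    obtain ⟨h1, -, hh1, hh1ρ⟩ := bfs_tuple S ρ hρ η hη0 hη 3
      (![x0, u x0, b x0]) (![x, y, z])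
      (hKT 3 _ _ (by omega) (g9_inj3 hux0.symm hne hbx0.symm) (g9_inj3 hxy hyz hxz)
        (g9_in3 hx0B hux0B hbx0B) (g9_in3 hx hy hz))
    rw [hcard] at hh1ρ
    have e0 : h1 x0 = x := by simpa using hh1 0
    have e1 : h1 (u x0) = y := by simpa using hh1 1
    have e2 : h1 (b x0) = z := by simpa using hh1 2
    have h4 := conj_cyc3 h1 x0 (u x0) (b x0)
    rw [e0, e1, e2] at h4
    rw [← h4]
    have h5 := g9_conj_le hρ h1 (cyc3 x0 (u x0) (b x0))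
    calc ρ (h1 * cyc3 x0 (u x0) (b x0) * h1⁻¹)
        ≤ 2 * ρ h1 + ρ (cyc3 x0 (u x0) (b x0)) := h5
      _ ≤ 2 * ((n : ℝ) ^ 3 * η) + (4 * (n : ℝ) ^ (s + k) + 4 * (n : ℝ) ^ k) * η := by linarith
      _ = _ := by ring
  intro h hh
  have h6 := len_alt_le B ρ hρ _ (by positivity) h3 h hh
  rw [hcard] at h6
  refine h6.trans ?_
  rw [← mul_assoc]
  exact mul_le_mul_of_nonneg_right hbig hη0


end Pool.Agent.Lib.MP_c6e9f4_al.Exp
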