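import Pool.Agent.Lib.MP_c6e9f4_al.Exp.Defs

/-!
K1. `k`-transitivity from transitivity of the stabilisers of fewer than `k` points. Induction on the
length of the tuple.
-/

set_option autoImplicit false

namespace Pool.Agent.Lib.MP_c6e9f4_al.Exp

open Equiv (Perm)

theorem KT_of_trans {α : Type} [Fintype α] [DecidableEq α] (H : Subgroup (Perm α))
    (B : Finset α) (hS : SuppIn (H : Set (Perm α)) B) (k : ℕ)
    (h : ∀ F ⊆ B, F.card < k → TransOn (fixS H F) (B \ F)) : KT H B k := by
  intro m
  induction m with
  | zero =>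
    intro f g _ _ _ _ _
    exact ⟨1, H.one_mem, fun i => i.elim0⟩
  | succ m ih =>
    intro f g hm hf hg hfB hgB
    obtain ⟨h0, hh0, h0f⟩ := ih (fun i => f i.castSucc) (fun i => g i.castSucc) (by omega)
      (hf.comp (Fin.castSucc_injective m)) (hg.comp (Fin.castSucc_injective m))
      (fun i => hfB _) (fun i => hgB _)
    have h0f' : ∀ i : Fin m, h0 (f i.castSucc) = g i.castSucc := h0f
    set F : Finset α := Finset.univ.image (fun i : Fin m => g i.castSucc) with hF
    have hFB : F ⊆ B := by
      intro x hx
      obtain ⟨i, _, rfl⟩ := Finset.mem_image.1 hx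
      exact hgB _
    have hFc : F.card < k := by
      have : F.card ≤ m := by
        refine Finset.card_image_le.trans ?_
        simp
      omega
    have hy : h0 (f (Fin.last m)) ∈ B \ F := by
      rw [Finset.mem_sdiff]
      constructor
      · by_contra hc
        have h1 := hS h0 hh0 _ hc
        have h2 := h0.injective h1
        rw [h2] at hc
        exact hc (hfB _)
      · intro hc
        obtain ⟨i, _, hi⟩ := Finset.mem_image.1 hc
        have h1 : g i.castSucc = h0 (f (Fin.last m)) := hi
        rw [← h0f' i] at h1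
        have h2 := hf (h0.injective h1)
        exact (Fin.castSucc_lt_last i).ne h2
    have hgl : g (Fin.last m) ∈ B \ F := by
      rw [Finset.mem_sdiff]
      refine ⟨hgB _, fun hc => ?_⟩
      obtain ⟨i, _, hi⟩ := Finset.mem_image.1 hc
      have h1 : g i.castSucc = g (Fin.last m) := hi
      exact (Fin.castSucc_lt_last i).ne (hg h1)
    obtain ⟨h1, hh1, h1y⟩ := h F hFB hFc _ hy _ hgl
    refine ⟨h1 * h0, H.mul_mem hh1.1 hh0, fun i => ?_⟩
    rw [Equiv.Perm.mul_apply]
    refine Fin.lastCases ?_ (fun j => ?_) i
    · exact h1y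
    · rw [h0f' j]
      exact hh1.2 _ (Finset.mem_image.2 ⟨j, Finset.mem_univ _, rfl⟩)

end Pool.Agent.Lib.MP_c6e9f4_al.Exp
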