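import Pool.Agent.Lib.MP_c6e9f4_al.Exp.Defs

/-!
O2. Reachability dichotomy. `F v` = set of vertices reachable from `v` along `w ∈ N v`
(`Relation.ReflTransGen`). `F (h v) = h (F v)`, all of the same size by transitivity; `w ∈ F v` gives
`F w ⊆ F v`, hence equality. If `F p = B` every nonempty proper `F ⊆ B` has `v ∈ F` with `N v` not inside
`F`; otherwise the sets `F v` are the classes `cl v`.
-/

set_option autoImplicit false

namespace Pool.Agent.Lib.MP_c6e9f4_al.Exp

open Equiv (Perm)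

open Relation in
theorem O2_supp {α : Type} {H : Subgroup (Perm α)} {B : Finset α}
    (hS : SuppIn (H : Set (Perm α)) B) {h : Perm α} (hh : h ∈ H) {v : α} (hv : v ∈ B) :
    h v ∈ B := by
  by_contra hc
  have := hS h hh (h v) hc
  exact hc (by rw [h.injective this]; exact hv)

open Relation in
theorem O2_mem {α : Type} {B : Finset α} {N : α → Finset α}
    (hN : ∀ v ∈ B, N v ⊆ B) {v w : α} (hv : v ∈ B)
    (hr : ReflTransGen (fun a b => b ∈ N a) v w) : w ∈ B := by
  induction hr with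
  | refl => exact hv
  | tail _ hbc ih => exact hN _ ih hbc

open Relation in
theorem O2_map {α : Type} [DecidableEq α] {H : Subgroup (Perm α)} {B : Finset α}
    {N : α → Finset α}
    (hN : ∀ v ∈ B, N v ⊆ B)
    (hNe : ∀ h ∈ H, ∀ v ∈ B, N (h v) = (N v).image h) {h : Perm α} (hh : h ∈ H) {v w : α}
    (hv : v ∈ B) (hr : ReflTransGen (fun a b => b ∈ N a) v w) :
    ReflTransGen (fun a b => b ∈ N a) (h v) (h w) := by
  induction hr with
  | refl => exact ReflTransGen.refl
  | tail hab hbc ih =>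
    refine ih.tail ?_
    rw [hNe h hh _ (O2_mem hN hv hab)]
    exact Finset.mem_image_of_mem _ hbc

theorem reach_dichotomy {α : Type} [Fintype α] [DecidableEq α] (H : Subgroup (Perm α))
    (B : Finset α) (hS : SuppIn (H : Set (Perm α)) B) (hT : TransOn H B) (N : α → Finset α)
    (hN : ∀ v ∈ B, N v ⊆ B ∧ v ∉ N v ∧ (N v).Nonempty)
    (hNe : ∀ h ∈ H, ∀ v ∈ B, N (h v) = (N v).image h) :
    (∀ F ⊆ B, F.Nonempty → F ≠ B → ∃ v ∈ F, ¬ N v ⊆ F) ∨
    ∃ (cl : α → Finset α) (t : ℕ), 2 ≤ t ∧ t < B.card ∧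
      (∀ v ∈ B, v ∈ cl v ∧ cl v ⊆ B ∧ (cl v).card = t) ∧
      (∀ v ∈ B, ∀ w ∈ cl v, cl w = cl v) ∧
      ∀ h ∈ H, ∀ v ∈ B, cl (h v) = (cl v).image h := by
  classical
  have hN1 : ∀ v ∈ B, N v ⊆ B := fun v hv => (hN v hv).1
  set F : α → Finset α := fun v =>
    B.filter (fun w => Relation.ReflTransGen (fun a b => b ∈ N a) v w) with hF
  have hmem : ∀ v w, w ∈ F v ↔ w ∈ B ∧ Relation.ReflTransGen (fun a b => b ∈ N a) v w := by
    intro v w
    simp [hF]
  have hFB : ∀ v, F v ⊆ B := fun v => Finset.filter_subset _ _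
  have hself : ∀ v ∈ B, v ∈ F v := fun v hv =>
    (hmem v v).2 ⟨hv, Relation.ReflTransGen.refl⟩
  have hsub : ∀ h ∈ H, ∀ v ∈ B, (F v).image h ⊆ F (h v) := by
    intro h hh v hv x hx
    rw [Finset.mem_image] at hx
    obtain ⟨w, hw, rfl⟩ := hx
    rw [hmem] at hw
    rw [hmem]
    exact ⟨O2_supp hS hh hw.1, O2_map hN1 hNe hh hv hw.2⟩
  have himg : ∀ h ∈ H, ∀ v ∈ B, F (h v) = (F v).image h := by
    intro h hh v hv
    apply Finset.Subset.antisymm _ (hsub h hh v hv)
    intro x hx
    have hi : h⁻¹ ∈ H := H.inv_mem hh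
    have h1 := hsub h⁻¹ hi (h v) (O2_supp hS hh hv)
    have h2 : h⁻¹ x ∈ F (h⁻¹ (h v)) := h1 (Finset.mem_image_of_mem _ hx)
    have e1 : h⁻¹ (h v) = v := by rw [← Equiv.Perm.mul_apply]; simp
    rw [e1] at h2
    rw [Finset.mem_image]
    exact ⟨h⁻¹ x, h2, by rw [← Equiv.Perm.mul_apply]; simp⟩
  have hcard : ∀ x ∈ B, ∀ y ∈ B, (F y).card = (F x).card := by
    intro x hx y hy
    obtain ⟨h, hh, rfl⟩ := hT x hx y hy
    rw [himg h hh x hx, Finset.card_image_of_injective _ h.injective]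
  have hcls : ∀ v ∈ B, ∀ w ∈ F v, F w = F v := by
    intro v hv w hw
    have hw' := (hmem v w).1 hw
    apply Finset.eq_of_subset_of_card_le
    · intro x hx
      rw [hmem] at hx ⊢
      exact ⟨hx.1, hw'.2.trans hx.2⟩
    · exact (hcard w hw'.1 v hv).le
  by_cases hne : B.Nonempty
  · obtain ⟨v0, hv0⟩ := hne
    by_cases hfull : F v0 = B
    · left
      intro G hGB hG hGne
      by_contra hcon
      push Not at hcon
      obtain ⟨p, hp⟩ := hG
      have hpB := hGB hp
      have hFp : F p = B := by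
        apply Finset.eq_of_subset_of_card_le (hFB p)
        rw [hcard v0 hv0 p hpB, hfull]
      apply hGne
      apply Finset.Subset.antisymm hGB
      intro x hx
      rw [← hFp, hmem] at hx
      have hr := hx.2
      clear hx
      induction hr with
      | refl => exact hp
      | tail _ hbc ih => exact hcon _ ih hbc
    · right
      refine ⟨F, (F v0).card, ?_, ?_, ?_, hcls, himg⟩
      · obtain ⟨h1, h2, w, hw⟩ := hN v0 hv0
        have hwF : w ∈ F v0 := (hmem v0 w).2 ⟨h1 hw, Relation.ReflTransGen.single hw⟩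
        have hlt : 1 < (F v0).card := by
          rw [Finset.one_lt_card]
          refine ⟨v0, hself v0 hv0, w, hwF, ?_⟩
          rintro rfl
          exact h2 hw
        exact hlt
      · exact Finset.card_lt_card (Finset.ssubset_iff_subset_ne.2 ⟨hFB v0, hfull⟩)
      · intro v hv
        exact ⟨hself v hv, hFB v, hcard v0 hv0 v hv⟩
  · left
    intro G hGB hG
    exact absurd (hG.mono hGB) hne

end Pool.Agent.Lib.MP_c6e9f4_al.Exp
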