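import Pool.Agent.Lib.MP_c6e9f4_al.Exp.A5
import Pool.Agent.Lib.MP_c6e9f4_al.Exp.N1

/-!
O3. The connected case. By induction on `|B| - |F|`: if `F ≠ B`, take `v ∈ F` with `N v` not inside `F`,
`S = N v \ F` is invariant under the pointwise stabiliser of `F` (it fixes `v` and `F`),
`1 ≤ |S| ≤ c/2`, `D(fixS H F) ≤ D(|S|) D(fixS H (F ∪ S)) ≤ C^(lam c |S|) ...` (`DB.of_fix`, `E_le_lam`).
-/

set_option autoImplicit false

namespace Pool.Agent.Lib.MP_c6e9f4_al.Exp

open Equiv (Perm)

theorem o3_fixS_fixS {α : Type} [DecidableEq α] (H : Subgroup (Perm α)) (F S : Finset α) :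
    fixS (fixS H F) S = fixS H (F ∪ S) := by
  ext g
  constructor
  · rintro ⟨⟨h1, h2⟩, h3⟩
    refine ⟨h1, fun x hx => ?_⟩
    rcases Finset.mem_union.mp hx with hx | hx
    · exact h2 x hx
    · exact h3 x hx
  · rintro ⟨h1, h2⟩
    exact ⟨⟨h1, fun x hx => h2 x (Finset.mem_union_left _ hx)⟩,
      fun x hx => h2 x (Finset.mem_union_right _ hx)⟩

theorem bfs_bound {C : ℝ} (hC : 1 ≤ C) {c : ℕ} (hc : 2 ≤ c) (ih : IH C c) {α : Type} [Fintype α]
    [DecidableEq α] (H : Subgroup (Perm α)) (B : Finset α) (hBc : B.card = c)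
    (hS : SuppIn (H : Set (Perm α)) B) (N : α → Finset α)
    (hN : ∀ v ∈ B, N v ⊆ B ∧ 2 * (N v).card ≤ c)
    (hNe : ∀ h ∈ H, ∀ v ∈ B, N (h v) = (N v).image h)
    (hconn : ∀ F ⊆ B, F.Nonempty → F ≠ B → ∃ v ∈ F, ¬ N v ⊆ F)
    (F : Finset α) (hF : F ⊆ B) (hne : F.Nonempty) :
    DB (fixS H F : Set (Perm α)) (C ^ (lam c * ((c : ℝ) - F.card))) := by
  obtain ⟨k, hk⟩ : ∃ k, k = B.card - F.card := ⟨_, rfl⟩
  induction k using Nat.strong_induction_on generalizing F with
  | _ k ihk =>
    by_cases hFB : F = B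
    · subst hFB
      have h1 : lam c * ((c : ℝ) - F.card) = 0 := by
        rw [hBc]; ring
      rw [h1, Real.rpow_zero]
      apply DB.trivial
      intro g hg
      ext x
      by_cases hx : x ∈ F
      · rw [hg.2 x hx]; rfl
      · rw [hS g hg.1 x hx]; rfl
    · obtain ⟨v, hvF, hv⟩ := hconn F hF hne hFB
      have hvB : v ∈ B := hF hvF
      obtain ⟨S, hSdef⟩ : ∃ S, S = N v \ F := ⟨_, rfl⟩
      have hSne : S.Nonempty := by
        rw [Finset.nonempty_iff_ne_empty]
        intro h
        apply hv
        rw [hSdef, Finset.sdiff_eq_empty_iff_subset] at h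
        exact h
      have hSB : S ⊆ B := by
        rw [hSdef]
        exact Finset.sdiff_subset.trans (hN v hvB).1
      have hdisj : Disjoint F S := by
        rw [hSdef]
        exact Finset.disjoint_sdiff
      have hcard : (F ∪ S).card = F.card + S.card := Finset.card_union_of_disjoint hdisj
      have hS1 : 1 ≤ S.card := hSne.card_pos
      have hS2 : 2 * S.card ≤ c := by
        have h1 : S.card ≤ (N v).card := by
          rw [hSdef]
          exact Finset.card_le_card Finset.sdiff_subset
        have h2 := (hN v hvB).2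
        omega
      have hFS : F ∪ S ⊆ B := Finset.union_subset hF hSB
      have hle := Finset.card_le_card hFS
      -- invariance
      have hinv : ∀ g ∈ fixS H F, ∀ x ∈ S, g x ∈ S := by
        intro g hg x hx
        rw [hSdef, Finset.mem_sdiff] at hx ⊢
        constructor
        · have h1 := hNe g hg.1 v hvB
          rw [hg.2 v hvF] at h1
          rw [h1]
          exact Finset.mem_image_of_mem _ hx.1
        · intro hgx
          apply hx.2
          have h1 : g (g x) = g x := hg.2 _ hgx
          have h2 : g x = x := g.injective h1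
          rwa [h2] at hgx
      have h1 : DN S.card (C ^ (lam c * (S.card : ℝ))) := by
        apply (ih S.card (by omega)).mono
        exact Real.rpow_le_rpow_of_exponent_le hC (E_le_lam hS1 hS2)
      have h2 : DB (fixS H (F ∪ S) : Set (Perm α)) (C ^ (lam c * ((c : ℝ) - (F ∪ S).card))) :=
        ihk (B.card - (F ∪ S).card) (by omega) (F ∪ S) hFS (hne.mono Finset.subset_union_left) rfl
      rw [← o3_fixS_fixS] at h2
      have h3 := DB.of_fix (fixS H F) S hinv h1 h2
      have hC0 : 0 < C := by linarith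
      have h4 : C ^ (lam c * (S.card : ℝ)) * C ^ (lam c * ((c : ℝ) - (F ∪ S).card)) =
          C ^ (lam c * ((c : ℝ) - F.card)) := by
        rw [← Real.rpow_add hC0, hcard]
        congr 1
        push_cast
        ring
      rw [h4] at h3
      exact h3

end Pool.Agent.Lib.MP_c6e9f4_al.Exp
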