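import Pool.Agent.Lib.MP_c6e9f4_al.Exp.A5
import Pool.Agent.Lib.MP_c6e9f4_al.Exp.N1

/-!
O4. The imprimitive case. `s = c/t` classes of size `t`. First `derive` with `Q` = permutations
preserving every class, cost `D(s)`: the map `H → Perm (classes)` (a type with `s` elements, e.g. the
subtype of the `Finset` `B.image cl`). Then kill the classes one by one (`DB.of_fix`), cost `D(t)` each.
Total `D(s) D(t)^s ≤ C^(E s + s E t)`, use `E_block`.
-/

set_option autoImplicit false

namespace Pool.Agent.Lib.MP_c6e9f4_al.Exp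

open Equiv (Perm)

theorem O4_mem_image {α : Type} [DecidableEq α] (H : Subgroup (Perm α)) (B : Finset α)
    (hS : SuppIn (H : Set (Perm α)) B) (cl : α → Finset α)
    (heq : ∀ h ∈ H, ∀ v ∈ B, cl (h v) = (cl v).image h) (h : Perm α) (hh : h ∈ H)
    (A : Finset α) (hA : A ∈ B.image cl) : A.image h ∈ B.image cl := by
  rw [Finset.mem_image] at hA ⊢
  obtain ⟨v, hv, rfl⟩ := hA
  refine ⟨h v, ?_, heq h hh v hv⟩
  by_contra hn
  have h1 := hS h hh (h v) hn
  have h2 : h v = v := h.injective h1
  exact hn (by rw [h2]; exact hv)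

/-- The action of `H` on the classes. -/
noncomputable def O4_hom {α : Type} [DecidableEq α] (H : Subgroup (Perm α)) (B : Finset α)
    (hS : SuppIn (H : Set (Perm α)) B) (cl : α → Finset α)
    (heq : ∀ h ∈ H, ∀ v ∈ B, cl (h v) = (cl v).image h) : H →* Perm (B.image cl) where
  toFun h :=
    { toFun := fun A => ⟨A.1.image h.1, O4_mem_image H B hS cl heq h.1 h.2 A.1 A.2⟩
      invFun := fun A => ⟨A.1.image (h⁻¹).1, O4_mem_image H B hS cl heq _ (h⁻¹).2 A.1 A.2⟩
      left_inv := by
        intro A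
        apply Subtype.ext
        simp only [Finset.image_image]
        have : ((h⁻¹).1 : α → α) ∘ (h.1 : α → α) = id := by
          funext x
          simp
        rw [this, Finset.image_id]
      right_inv := by
        intro A
        apply Subtype.ext
        simp only [Finset.image_image]
        have : (h.1 : α → α) ∘ ((h⁻¹).1 : α → α) = id := by
          funext x
          simp
        rw [this, Finset.image_id] }
  map_one' := by
    apply Equiv.ext
    intro A
    apply Subtype.ext
    show A.1.image ((1 : H).1 : α → α) = A.1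
    have : (((1 : H).1 : Perm α) : α → α) = id := by
      funext x
      simp
    rw [this, Finset.image_id]
  map_mul' := by
    intro g h
    apply Equiv.ext
    intro A
    apply Subtype.ext
    show A.1.image ((g * h).1 : α → α) = (A.1.image (h.1 : α → α)).image (g.1 : α → α)
    rw [Finset.image_image]
    rfl

theorem O4_step1 {C : ℝ} {c : ℕ} (ih : IH C c) {α : Type} [Fintype α]
    [DecidableEq α] (H : Subgroup (Perm α)) (B : Finset α)
    (hS : SuppIn (H : Set (Perm α)) B) (cl : α → Finset α)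
    (hcard : (B.image cl).card < c)
    (heq : ∀ h ∈ H, ∀ v ∈ B, cl (h v) = (cl v).image h)
    (l : List (Perm α)) (hl : ∀ g ∈ l, g ∈ H) :
    ∃ z : List (Perm α), Der z l ∧ (∀ g ∈ z, g ∈ H ∧ ∀ v ∈ B, cl (g v) = cl v) ∧
      (l.length : ℝ) + 1 ≤ C ^ E ((B.image cl).card : ℝ) * ((z.length : ℝ) + 1) := by
  refine derive H {g | ∀ v ∈ B, cl (g v) = cl v} _ ?_ l hl
  intro p hp hbad
  lift p to List H using hp
  have hDN := ih _ hcard (B.image cl) (Fintype.card_coe _)
    (p.map (O4_hom H B hS cl heq)) (fun g _ => Set.mem_univ g) ?_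
  · simpa using hDN
  intro s hs hne hprod
  obtain ⟨s', hs', rfl⟩ := List.sublist_map_iff.mp hs
  rw [← map_list_prod] at hprod
  refine hbad (s'.map (fun x : H => (x : Perm α))) ?_ ?_ ?_
  · exact hs'.map _
  · intro h0
    apply hne
    rw [List.map_eq_nil_iff] at h0
    rw [h0]
    rfl
  · have hval : (s'.map (fun x : H => (x : Perm α))).prod = ((s'.prod : H) : Perm α) := by
      have := map_list_prod H.subtype s'
      simpa using this.symm
    rw [hval]
    intro v hv
    have h1 : ((O4_hom H B hS cl heq s'.prod) ⟨cl v, Finset.mem_image_of_mem cl hv⟩).1 = cl v := by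
      rw [hprod]
      rfl
    have h2 : ((O4_hom H B hS cl heq s'.prod) ⟨cl v, Finset.mem_image_of_mem cl hv⟩).1
        = (cl v).image ((s'.prod : H) : Perm α) := rfl
    rw [heq _ s'.prod.2 v hv, ← h2, h1]

theorem O4_step2 {C : ℝ} {c : ℕ} (ih : IH C c) {α : Type} [Fintype α]
    [DecidableEq α] (B : Finset α) (cl : α → Finset α) (t : ℕ) (htc : t < c)
    (hcl : ∀ v ∈ B, v ∈ cl v ∧ cl v ⊆ B ∧ (cl v).card = t)
    (hpart : ∀ v ∈ B, ∀ w ∈ cl v, cl w = cl v) (K : Finset (Finset α)) :
    K ⊆ B.image cl → ∀ H : Subgroup (Perm α), SuppIn (H : Set (Perm α)) B →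
      (∀ g ∈ H, ∀ v ∈ B, cl (g v) = cl v) →
      (∀ g ∈ H, ∀ v ∈ B, cl v ∉ K → g v = v) →
      DB (H : Set (Perm α)) ((C ^ E (t : ℝ)) ^ K.card) := by
  classical
  induction K using Finset.induction_on with
  | empty =>
    intro _ H hS _ hfix
    rw [Finset.card_empty, pow_zero]
    apply DB.trivial
    intro g hg
    apply Equiv.ext
    intro x
    by_cases hx : x ∈ B
    · exact hfix g hg x hx (Finset.notMem_empty _)
    · exact hS g hg x hx
  | insert A K hAK hind =>
    intro hK H hS hpres hfix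
    have hA : A ∈ B.image cl := hK (Finset.mem_insert_self _ _)
    obtain ⟨v, hv, rfl⟩ := Finset.mem_image.mp hA
    have hcardA : (cl v).card = t := (hcl v hv).2.2
    have hmem : ∀ g ∈ H, ∀ x ∈ cl v, g x ∈ cl v := by
      intro g hg x hx
      have hxB : x ∈ B := (hcl v hv).2.1 hx
      have hgx : g x ∈ B := by
        by_contra hn
        have h1 := hS g hg (g x) hn
        have h2 : g x = x := g.injective h1
        exact hn (by rw [h2]; exact hxB)
      have h3 := (hcl (g x) hgx).1
      rw [hpres g hg x hxB, hpart v hv x hx] at h3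
      exact h3
    have hsub := hind (fun a ha => hK (Finset.mem_insert_of_mem ha)) (fixS H (cl v))
      (fun g hg => hS g hg.1) (fun g hg => hpres g hg.1) (by
        intro g hg w hw hwK
        by_cases hwA : cl w = cl v
        · apply hg.2
          rw [← hwA]
          exact (hcl w hw).1
        · exact hfix g hg.1 w hw (by
            rw [Finset.mem_insert]
            rintro (h | h)
            · exact hwA h
            · exact hwK h))
    have hd : DN (cl v).card (C ^ E (t : ℝ)) := by
      rw [hcardA]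
      exact ih t htc
    have := DB.of_fix H (cl v) hmem hd hsub
    rw [Finset.card_insert_of_notMem hAK, pow_succ, mul_comm]
    exact this

theorem O4_card {α : Type} [DecidableEq α] (B : Finset α) (cl : α → Finset α) (t : ℕ)
    (hcl : ∀ v ∈ B, v ∈ cl v ∧ cl v ⊆ B ∧ (cl v).card = t)
    (hpart : ∀ v ∈ B, ∀ w ∈ cl v, cl w = cl v) : B.card = (B.image cl).card * t := by
  classical
  rw [Finset.card_eq_sum_card_image cl B]
  rw [Finset.sum_const_nat]
  intro A hA
  obtain ⟨v, hv, rfl⟩ := Finset.mem_image.mp hA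
  have : (B.filter (fun a => cl a = cl v)) = cl v := by
    ext x
    rw [Finset.mem_filter]
    constructor
    · rintro ⟨hx, hxv⟩
      rw [← hxv]
      exact (hcl x hx).1
    · intro hx
      exact ⟨(hcl v hv).2.1 hx, hpart v hv x hx⟩
  rw [this]
  exact (hcl v hv).2.2

theorem block_bound {C : ℝ} (hC : 1 ≤ C) {c : ℕ} (ih : IH C c) {α : Type} [Fintype α]
    [DecidableEq α] (H : Subgroup (Perm α)) (B : Finset α) (hBc : B.card = c)
    (hS : SuppIn (H : Set (Perm α)) B) (cl : α → Finset α) (t : ℕ) (ht2 : 2 ≤ t) (htc : t < c)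
    (hcl : ∀ v ∈ B, v ∈ cl v ∧ cl v ⊆ B ∧ (cl v).card = t)
    (hpart : ∀ v ∈ B, ∀ w ∈ cl v, cl w = cl v)
    (heq : ∀ h ∈ H, ∀ v ∈ B, cl (h v) = (cl v).image h) :
    DB (H : Set (Perm α)) (C ^ (E c - c3 * (c : ℝ) ^ (4 / 5 : ℝ))) := by
  classical
  have hct : c = (B.image cl).card * t := by
    rw [← hBc]
    exact O4_card B cl t hcl hpart
  set s := (B.image cl).card with hs
  have hs2 : 2 ≤ s := by
    by_contra hlt
    have h1 : s ≤ 1 := by omega
    have h2 : s * t ≤ 1 * t := Nat.mul_le_mul_right t h1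
    omega
  have hsc : s < c := by
    have h1 : s * 2 ≤ s * t := Nat.mul_le_mul_left s ht2
    omega
  have hC0 : 0 < C := by linarith
  intro l hl hbad
  obtain ⟨z, hz, hzQ, hlen⟩ := O4_step1 ih H B hS cl hsc heq l hl
  let H' : Subgroup (Perm α) :=
    { carrier := {g | g ∈ H ∧ ∀ v ∈ B, cl (g v) = cl v}
      mul_mem' := by
        rintro a b ⟨ha, ha'⟩ ⟨hb, hb'⟩
        refine ⟨H.mul_mem ha hb, fun v hv => ?_⟩
        have hbv : b v ∈ B := by
          by_contra hn
          have h1 := hS b hb (b v) hn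
          have h2 : b v = v := b.injective h1
          exact hn (by rw [h2]; exact hv)
        rw [Equiv.Perm.mul_apply, ha' _ hbv, hb' v hv]
      one_mem' := ⟨H.one_mem, fun v _ => rfl⟩
      inv_mem' := by
        rintro a ⟨ha, ha'⟩
        refine ⟨H.inv_mem ha, fun v hv => ?_⟩
        have hbv : a⁻¹ v ∈ B := by
          by_contra hn
          have h1 := hS a⁻¹ (H.inv_mem ha) (a⁻¹ v) hn
          have h2 : a⁻¹ v = v := (a⁻¹).injective h1
          exact hn (by rw [h2]; exact hv)
        have h3 := ha' _ hbv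
        have h4 : a (a⁻¹ v) = v := by simp
        rw [h4] at h3
        exact h3.symm }
  have hDB := O4_step2 ih B cl t htc hcl hpart (B.image cl) (Finset.Subset.refl _) H'
    (fun g hg => hS g hg.1) (fun g hg => hg.2)
    (fun g _ v hv hn => absurd (Finset.mem_image_of_mem cl hv) hn)
  have hz1 : (z.length : ℝ) + 1 ≤ (C ^ E (t : ℝ)) ^ s :=
    hDB z (fun g hg => hzQ g hg) (hz.bad hbad)
  have hpos : (0 : ℝ) ≤ C ^ E (s : ℝ) := Real.rpow_nonneg hC0.le _
  calc (l.length : ℝ) + 1 ≤ C ^ E (s : ℝ) * ((z.length : ℝ) + 1) := hlen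
    _ ≤ C ^ E (s : ℝ) * (C ^ E (t : ℝ)) ^ s := mul_le_mul_of_nonneg_left hz1 hpos
    _ = C ^ (E (s : ℝ) + s * E (t : ℝ)) := by
        rw [Real.rpow_add hC0, ← Real.rpow_natCast (C ^ E (t : ℝ)) s, ← Real.rpow_mul hC0.le,
          mul_comm (s : ℝ) (E (t : ℝ))]
    _ ≤ C ^ (E (c : ℝ) - c3 * (c : ℝ) ^ (4 / 5 : ℝ)) := by
        apply Real.rpow_le_rpow_of_exponent_le hC
        have := E_block hs2 ht2
        rw [hct]
        exact this

end Pool.Agent.Lib.MP_c6e9f4_al.Exp
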