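import Pool.Agent.Lib.MP_c6e9f4_al.Exp.O1
import Pool.Agent.Lib.MP_c6e9f4_al.Exp.O2
import Pool.Agent.Lib.MP_c6e9f4_al.Exp.O3
import Pool.Agent.Lib.MP_c6e9f4_al.Exp.O4

/-!
O5. The orbital lemma: assembly of O1 - O4 (`DB.of_point` and `lam_le` in the connected case).
-/

set_option autoImplicit false

namespace Pool.Agent.Lib.MP_c6e9f4_al.Exp

open Equiv (Perm)

theorem orbital {C : ℝ} (hC : 1 ≤ C) {c : ℕ} (ih : IH C c) {α : Type} [Fintype α]
    [DecidableEq α] (H : Subgroup (Perm α)) (B : Finset α) (hBc : B.card = c)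
    (hS : SuppIn (H : Set (Perm α)) B) (hT : TransOn H B) (p : α) (hp : p ∈ B)
    (h2 : ¬ TransOn (fixS H {p}) (B.erase p)) :
    DB (H : Set (Perm α)) ((c : ℝ) * C ^ (E c - c3 * (c : ℝ) ^ (4 / 5 : ℝ))) := by
  have hC0 : (0 : ℝ) < C := lt_of_lt_of_le one_pos hC
  have hB : ∀ g ∈ H, ∀ x ∈ B, g x ∈ B := by
    intro g hg x hx
    by_contra hn
    have h1 := hS g hg (g x) hn
    have h3 : g x = x := g.injective h1
    exact hn (by rw [h3]; exact hx)
  have hc2 : 2 ≤ c := by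
    by_contra hlt
    have hlt' : c ≤ 1 := by omega
    apply h2
    have hempty : B.erase p = ∅ := by
      rw [← Finset.card_eq_zero, Finset.card_erase_of_mem hp]
      omega
    intro x hx
    rw [hempty] at hx
    simp at hx
  obtain ⟨N, hN1, hN2⟩ := exists_nbhd H B hS hT p hp h2
  rcases reach_dichotomy H B hS hT N (fun v hv => ⟨(hN1 v hv).1, (hN1 v hv).2.1, (hN1 v hv).2.2.1⟩)
      hN2 with hconn | ⟨cl, t, ht2, htc, hcl, hpart, heq⟩
  · have h3 := bfs_bound hC hc2 ih H B hBc hS N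
      (fun v hv => ⟨(hN1 v hv).1, by have := (hN1 v hv).2.2.2; omega⟩) hN2 hconn {p}
      (Finset.singleton_subset_iff.mpr hp) (Finset.singleton_nonempty p)
    have h4 := DB.of_point H B hB p hp h3
    refine DB.mono h4 ?_
    rw [hBc]
    refine mul_le_mul_of_nonneg_left ?_ (Nat.cast_nonneg c)
    refine Real.rpow_le_rpow_of_exponent_le hC ?_
    have h5 := lam_le hc2
    simpa using h5
  · have h3 := block_bound hC ih H B hBc hS cl t ht2 (by omega) hcl hpart heq
    refine DB.mono h3 ?_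
    have h6 : (1 : ℝ) ≤ (c : ℝ) := by
      have : 1 ≤ c := by omega
      exact_mod_cast this
    have h7 : (0 : ℝ) ≤ C ^ (E c - c3 * (c : ℝ) ^ (4 / 5 : ℝ)) := Real.rpow_nonneg hC0.le _
    nlinarith

end Pool.Agent.Lib.MP_c6e9f4_al.Exp
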