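import Pool.Agent.Lib.MP_c6e9f4_al.Exp.K1
import Pool.Agent.Lib.MP_c6e9f4_al.Exp.O5

/-!
K2. Groups transitive but not `k`-transitive on `B`. By K1 there is `F ⊆ B`, `|F| < k`, with
`fixS H F` not transitive on `B - F`; take `|F|` minimal, `F ≠ ∅`, `F = insert p F₀`. Then
`H' = fixS H F₀` is transitive on `B' = B - F₀` and `fixS H' {p}` is not transitive on `B' - p`: apply
`orbital` to `H', B'`, and `DB.of_point` `|F₀|` times.
-/

set_option autoImplicit false

namespace Pool.Agent.Lib.MP_c6e9f4_al.Exp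

open Equiv (Perm)

theorem K2_fix_insert {α : Type} [DecidableEq α] (H : Subgroup (Perm α)) (F : Finset α) (p : α) :
    fixS (fixS H F) {p} = fixS H (insert p F) := by
  ext g
  constructor
  · rintro ⟨⟨h1, h2⟩, h3⟩
    refine ⟨h1, fun x hx => ?_⟩
    rcases Finset.mem_insert.1 hx with h | h
    · exact h3 x (Finset.mem_singleton.2 h)
    · exact h2 x h
  · rintro ⟨h1, h2⟩
    exact ⟨⟨h1, fun x hx => h2 x (Finset.mem_insert_of_mem hx)⟩,
      fun x hx => h2 x (by rw [Finset.mem_singleton.1 hx]; exact Finset.mem_insert_self p F)⟩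

theorem K2_iter {α : Type} [Fintype α] [DecidableEq α] (H : Subgroup (Perm α)) (B : Finset α)
    (hB : ∀ g ∈ H, ∀ x ∈ B, g x ∈ B) (F : Finset α) :
    F ⊆ B → ∀ d : ℝ, DB (fixS H F : Set (Perm α)) d →
      DB (H : Set (Perm α)) ((B.card : ℝ) ^ F.card * d) := by
  induction F using Finset.induction_on with
  | empty =>
    intro _ d hd
    rw [Finset.card_empty, pow_zero, one_mul]
    intro l hl hb
    exact hd l (fun g hg => ⟨hl g hg, fun x hx => absurd hx (Finset.notMem_empty x)⟩) hb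
  | insert a s has ih =>
    intro hs d hd
    have haB : a ∈ B := hs (Finset.mem_insert_self a s)
    have hsB : s ⊆ B := fun x hx => hs (Finset.mem_insert_of_mem hx)
    rw [← K2_fix_insert] at hd
    have h1 := DB.of_point (fixS H s) B (fun g hg x hx => hB g hg.1 x hx) a haB hd
    have h2 := ih hsB _ h1
    rw [Finset.card_insert_of_notMem has, pow_succ, mul_assoc]
    exact h2

theorem not_KT_bound {C : ℝ} (hC : 1 ≤ C) {n : ℕ} (ih : IH C n) {α : Type} [Fintype α]
    [DecidableEq α] (H : Subgroup (Perm α)) (B : Finset α) (hBn : B.card ≤ n)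
    (hS : SuppIn (H : Set (Perm α)) B) (hT : TransOn H B) (k : ℕ) (hk : ¬ KT H B k) :
    ∃ c : ℕ, c ≤ B.card ∧ B.card ≤ c + k ∧
      DB (H : Set (Perm α)) ((n : ℝ) ^ k * ((c : ℝ) * C ^ (E c - c3 * (c : ℝ) ^ (4 / 5 : ℝ)))) := by
  classical
  have hC0 : (0 : ℝ) < C := lt_of_lt_of_le one_pos hC
  have hB : ∀ g ∈ H, ∀ x ∈ B, g x ∈ B := by
    intro g hg x hx
    by_contra hn
    have h1 := hS g hg (g x) hn
    have h3 : g x = x := g.injective h1
    exact hn (by rw [h3]; exact hx)
  have hex : ∃ m : ℕ, ∃ F : Finset α, F ⊆ B ∧ F.card = m ∧ m < k ∧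
      ¬ TransOn (fixS H F) (B \ F) := by
    by_contra hcon
    apply hk
    refine KT_of_trans H B hS k (fun F hF hFk => ?_)
    by_contra hnt
    exact hcon ⟨F.card, F, hF, rfl, hFk, hnt⟩
  obtain ⟨F, hFB, hFm, hmk, hFn⟩ := Nat.find_spec hex
  have hmin : ∀ F' : Finset α, F' ⊆ B → F'.card < F.card → TransOn (fixS H F') (B \ F') := by
    intro F' hF' hc
    by_contra hnt
    have h1 : F'.card < Nat.find hex := by rw [← hFm]; exact hc
    exact Nat.find_min hex h1 ⟨F', hF', rfl, by omega, hnt⟩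
  have hFne : F.Nonempty := by
    rw [Finset.nonempty_iff_ne_empty]
    intro h0
    apply hFn
    rw [h0]
    intro x hx y hy
    rw [Finset.sdiff_empty] at hx hy
    obtain ⟨h, hh, hxy⟩ := hT x hx y hy
    exact ⟨h, ⟨hh, fun z hz => absurd hz (Finset.notMem_empty z)⟩, hxy⟩
  obtain ⟨p, hp⟩ := hFne
  have hins : insert p (F.erase p) = F := Finset.insert_erase hp
  have hcard : (F.erase p).card + 1 = F.card := Finset.card_erase_add_one hp
  have hF0B : F.erase p ⊆ B := (Finset.erase_subset p F).trans hFB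
  have hT' : TransOn (fixS H (F.erase p)) (B \ F.erase p) := hmin _ hF0B (by omega)
  have hpB' : p ∈ B \ F.erase p :=
    Finset.mem_sdiff.2 ⟨hFB hp, Finset.notMem_erase p F⟩
  have hset : (B \ F.erase p).erase p = B \ F := by
    ext x
    simp only [Finset.mem_erase, Finset.mem_sdiff]
    constructor
    · rintro ⟨h1, h2, h3⟩
      exact ⟨h2, fun hx => h3 ⟨h1, hx⟩⟩
    · rintro ⟨h1, h2⟩
      refine ⟨fun hxp => h2 (by rw [hxp]; exact hp), h1, fun hx => h2 hx.2⟩
  have hn2 : ¬ TransOn (fixS (fixS H (F.erase p)) {p}) ((B \ F.erase p).erase p) := by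
    rw [K2_fix_insert, hins, hset]
    exact hFn
  have hS' : SuppIn (fixS H (F.erase p) : Set (Perm α)) (B \ F.erase p) := by
    intro g hg x hx
    by_cases hxB : x ∈ B
    · have hxF : x ∈ F.erase p := by
        by_contra hc
        exact hx (Finset.mem_sdiff.2 ⟨hxB, hc⟩)
      exact hg.2 x hxF
    · exact hS g hg.1 x hxB
  have hcB : (B \ F.erase p).card + (F.erase p).card = B.card :=
    Finset.card_sdiff_add_card_eq_card hF0B
  have horb := orbital hC (c := (B \ F.erase p).card) (ih.mono (by omega)) (fixS H (F.erase p))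
    (B \ F.erase p) rfl hS' hT' p hpB' hn2
  have hfin := K2_iter H B hB (F.erase p) hF0B _ horb
  refine ⟨(B \ F.erase p).card, by omega, by omega, hfin.mono ?_⟩
  refine mul_le_mul_of_nonneg_right ?_ ?_
  · have hB1 : 1 ≤ B.card := Finset.card_pos.2 ⟨p, hFB hp⟩
    have hn1 : (1 : ℝ) ≤ n := by
      have : 1 ≤ n := hB1.trans hBn
      exact_mod_cast this
    calc (B.card : ℝ) ^ (F.erase p).card ≤ (n : ℝ) ^ (F.erase p).card :=
          pow_le_pow_left₀ (Nat.cast_nonneg _) (by exact_mod_cast hBn) _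
      _ ≤ (n : ℝ) ^ k := pow_le_pow_right₀ hn1 (by omega)
  · exact mul_nonneg (Nat.cast_nonneg _) (Real.rpow_nonneg hC0.le _)

end Pool.Agent.Lib.MP_c6e9f4_al.Exp
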