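import Pool.Agent.Lib.MP_c6e9f4_al.Exp.A6

/-!
K3. Every critical bad list has a derived list generating a transitive group. Among all pairs `(z, B)`,
`Der z l`, `z` supported in `B`, `C^(E |B| - r + κ (n-|B|)^(4/5)) ≤ |z| + 1`, take `|B|` minimal (the
pair `(l, univ)` is one). If the closure of `z` is not transitive on `B` there is an invariant `Γ ⊆ B`,
`1 ≤ |Γ| ≤ |B|/2` (an orbit or its complement in `B`): `derive_fix` gives a pair with `B \ Γ`
(`E_room`, `rpow_add_le`), contradiction. Finally `|z| + 1 ≤ C^(E |B|)` (`DN.supp`) if `|B| < n`.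
-/

set_option autoImplicit false

namespace Pool.Agent.Lib.MP_c6e9f4_al.Exp

open Equiv (Perm)

/-- The elements of a group generated by permutations supported in `B` are supported in `B`. -/
theorem k3_closure_supp {α : Type} {z : List (Perm α)} {B : Finset α}
    (hz : ∀ g ∈ z, ∀ x, x ∉ B → g x = x) :
    ∀ h ∈ Subgroup.closure {g | g ∈ z}, ∀ x, x ∉ B → h x = x := by
  intro h hh
  induction hh using Subgroup.closure_induction with
  | mem g hg => exact hz g hg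
  | one => intro x _; rfl
  | mul a b _ _ ha hb =>
    intro x hx
    rw [Equiv.Perm.mul_apply, hb x hx, ha x hx]
  | inv a _ ha =>
    intro x hx
    rw [Equiv.Perm.inv_eq_iff_eq]
    exact (ha x hx).symm

/-- A group supported in `B` which is not transitive has a small invariant subset. -/
theorem k3_invariant {α : Type} [DecidableEq α] {H : Subgroup (Perm α)} {B : Finset α}
    (hH : ∀ h ∈ H, ∀ x, x ∉ B → h x = x) (hT : ¬TransOn H B) :
    ∃ Γ : Finset α, Γ ⊆ B ∧ 1 ≤ Γ.card ∧ 2 * Γ.card ≤ B.card ∧ ∀ g ∈ H, ∀ x ∈ Γ, g x ∈ Γ := by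
  classical
  have hB : ∀ h ∈ H, ∀ x ∈ B, h x ∈ B := by
    intro h hh x hx
    by_contra hc
    have h1 := hH h⁻¹ (H.inv_mem hh) (h x) hc
    rw [← Equiv.Perm.mul_apply, inv_mul_cancel, Equiv.Perm.one_apply] at h1
    rw [← h1] at hc
    exact hc hx
  unfold TransOn at hT
  push Not at hT
  obtain ⟨x, hx, y, hy, hxy⟩ := hT
  set O : Finset α := B.filter fun w => ∃ h ∈ H, h x = w with hO
  have hOinv : ∀ g ∈ H, ∀ w ∈ O, g w ∈ O := by
    intro g hg w hw
    obtain ⟨hw1, h, hh, rfl⟩ := Finset.mem_filter.1 hw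
    exact Finset.mem_filter.2 ⟨hB g hg _ hw1, g * h, H.mul_mem hg hh, rfl⟩
  have hCinv : ∀ g ∈ H, ∀ w ∈ B \ O, g w ∈ B \ O := by
    intro g hg w hw
    obtain ⟨hw1, hw2⟩ := Finset.mem_sdiff.1 hw
    refine Finset.mem_sdiff.2 ⟨hB g hg w hw1, fun hc => hw2 ?_⟩
    have := hOinv g⁻¹ (H.inv_mem hg) _ hc
    rwa [← Equiv.Perm.mul_apply, inv_mul_cancel, Equiv.Perm.one_apply] at this
  have hxO : x ∈ O := Finset.mem_filter.2 ⟨hx, 1, H.one_mem, rfl⟩
  have hyO : y ∈ B \ O := by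
    refine Finset.mem_sdiff.2 ⟨hy, fun hc => ?_⟩
    obtain ⟨-, h, hh, he⟩ := Finset.mem_filter.1 hc
    exact hxy h hh he
  have hcard : (B \ O).card + O.card = B.card :=
    Finset.card_sdiff_add_card_eq_card (Finset.filter_subset _ _)
  have h1 : 1 ≤ O.card := Finset.card_pos.2 ⟨x, hxO⟩
  have h2 : 1 ≤ (B \ O).card := Finset.card_pos.2 ⟨y, hyO⟩
  rcases Nat.le_total (2 * O.card) B.card with h3 | h3
  · exact ⟨O, Finset.filter_subset _ _, h1, h3, hOinv⟩
  · exact ⟨B \ O, Finset.sdiff_subset, h2, by omega, hCinv⟩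

theorem derived_transitive {C : ℝ} (hC : 1 < C) {n : ℕ} (ih : IH C n) {α : Type} [Fintype α]
    [DecidableEq α] (hα : Fintype.card α = n) (l : List (Perm α)) (hl : Bad l) (r : ℝ)
    (hr : 0 ≤ r) (hlen : C ^ (E n - r) ≤ (l.length : ℝ) + 1) :
    ∃ (z : List (Perm α)) (B : Finset α), Der z l ∧ (∀ g ∈ z, ∀ x, x ∉ B → g x = x) ∧
      TransOn (Subgroup.closure {g | g ∈ z}) B ∧
      C ^ (E B.card - r) ≤ (z.length : ℝ) + 1 ∧
      kap * ((n : ℝ) - B.card) ^ (4 / 5 : ℝ) ≤ r := by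
  classical
  have hC0 : 0 < C := by linarith
  have hk : 0 ≤ kap := kap_pos.le
  let P : ℕ → Prop := fun b => ∃ (z : List (Perm α)) (B : Finset α), B.card = b ∧ Der z l ∧
    (∀ g ∈ z, ∀ x, x ∉ B → g x = x) ∧
    C ^ (E b - r + kap * ((n : ℝ) - b) ^ (4 / 5 : ℝ)) ≤ (z.length : ℝ) + 1
  have hPn : P n := by
    refine ⟨l, Finset.univ, by rw [Finset.card_univ, hα], Der.refl l,
      fun g _ x hx => absurd (Finset.mem_univ x) hx, ?_⟩
    rw [sub_self, Real.zero_rpow (by norm_num), mul_zero, add_zero]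
    exact hlen
  have hex : ∃ b, P b := ⟨n, hPn⟩
  obtain ⟨z, B, hBc, hz, hzB, hzl⟩ := Nat.find_spec hex
  set b := Nat.find hex with hb
  have hmin : ∀ b' < b, ¬P b' := fun b' hb' => Nat.find_min hex hb'
  have hbn : b ≤ n := Nat.find_min' hex hPn
  have hsupp := k3_closure_supp hzB
  have hbad : Bad z := hz.bad hl
  refine ⟨z, B, hz, hzB, ?_, ?_, ?_⟩
  · by_contra hT
    obtain ⟨Γ, hΓB, hΓ1, hΓ2, hΓinv⟩ := k3_invariant hsupp hT
    have hΓn : Γ.card < n := by omega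
    obtain ⟨z', hz', hz'H, hz'l⟩ := derive_fix (Subgroup.closure {g | g ∈ z}) Γ hΓinv
      (ih Γ.card hΓn) z (fun g hg => Subgroup.subset_closure hg)
    refine hmin (b - Γ.card) (by omega) ⟨z', B \ Γ, ?_, hz'.trans hz, ?_, ?_⟩
    · rw [Finset.card_sdiff_of_subset hΓB, hBc]
    · intro g hg x hx
      obtain ⟨h1, h2⟩ := hz'H g hg
      by_cases hxΓ : x ∈ Γ
      · exact h2 x hxΓ
      · exact hsupp g h1 x fun hxB => hx (Finset.mem_sdiff.2 ⟨hxB, hxΓ⟩)
    · have e1 : ((b - Γ.card : ℕ) : ℝ) = (b : ℝ) - Γ.card := by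
        rw [Nat.cast_sub (by omega)]
      have h3 := E_room (m := Γ.card) (n := b) hΓ1 (by omega)
      have h4 : ((n : ℝ) - (b - Γ.card : ℕ)) ^ (4 / 5 : ℝ) ≤
          ((n : ℝ) - b) ^ (4 / 5 : ℝ) + (Γ.card : ℝ) ^ (4 / 5 : ℝ) := by
        have h5 : (0 : ℝ) ≤ (n : ℝ) - b := by
          have : (b : ℝ) ≤ n := by exact_mod_cast hbn
          linarith
        have h6 := rpow_add_le h5 (Nat.cast_nonneg Γ.card : (0 : ℝ) ≤ (Γ.card : ℝ))
        rwa [e1, show (n : ℝ) - (b - Γ.card) = (n : ℝ) - b + Γ.card by ring]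
      have h5 : E (b - Γ.card : ℕ) - r + kap * ((n : ℝ) - (b - Γ.card : ℕ)) ^ (4 / 5 : ℝ) ≤
          (E b - r + kap * ((n : ℝ) - b) ^ (4 / 5 : ℝ)) - E Γ.card := by
        have := mul_le_mul_of_nonneg_left h4 hk
        linarith
      have h6 : C ^ (E (b - Γ.card : ℕ) - r + kap * ((n : ℝ) - (b - Γ.card : ℕ)) ^ (4 / 5 : ℝ)) ≤
          C ^ ((E b - r + kap * ((n : ℝ) - b) ^ (4 / 5 : ℝ)) - E Γ.card) :=
        Real.rpow_le_rpow_of_exponent_le hC.le h5
      rw [Real.rpow_sub hC0] at h6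
      have h7 : 0 < C ^ E Γ.card := Real.rpow_pos_of_pos hC0 _
      refine h6.trans ?_
      rw [div_le_iff₀ h7]
      calc C ^ (E b - r + kap * ((n : ℝ) - b) ^ (4 / 5 : ℝ)) ≤ (z.length : ℝ) + 1 := hzl
        _ ≤ C ^ E Γ.card * ((z'.length : ℝ) + 1) := hz'l
        _ = _ := mul_comm _ _
  · rw [hBc]
    refine le_trans (Real.rpow_le_rpow_of_exponent_le hC.le ?_) hzl
    have h1 : 0 ≤ kap * ((n : ℝ) - b) ^ (4 / 5 : ℝ) := by
      refine mul_nonneg hk (Real.rpow_nonneg ?_ _)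
      have : (b : ℝ) ≤ n := by exact_mod_cast hbn
      linarith
    linarith
  · rw [hBc]
    rcases Nat.eq_or_lt_of_le hbn with h1 | h1
    · have h2 : (n : ℝ) - b = 0 := by rw [h1, sub_self]
      rw [h2, Real.zero_rpow (by norm_num), mul_zero]
      exact hr
    · have h2 : DN B.card (C ^ E b) := by
        rw [hBc]
        exact ih b h1
      have h3 := h2.supp B z hzB hbad
      have h4 := (Real.rpow_le_rpow_left_iff hC).1 (hzl.trans h3)
      linarith

end Pool.Agent.Lib.MP_c6e9f4_al.Exp
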