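import Pool.Agent.Lib.MP_c6e9f4_al.Exp.K2
import Pool.Agent.Lib.MP_c6e9f4_al.Exp.K3

/-!
K4. Critical windows (assembly of K2, K3). From K3 with `r = rr n`: `(n-|B|)^(4/5) ≤ (n/20)^(4/5)`, so
`20 (n-|B|) ≤ n`. If not `kk n`-transitive then K2 gives `c` with `0.9 n ≤ c ≤ |B|` and
`C^(E |B| - rr n) ≤ n^(kk n) c C^(E c - c3 c^(4/5))`; as `E c ≤ E |B|`, `C ≥ e`, this means
`c3 (0.9 n)^(4/5) - κ (n/20)^(4/5) ≤ (kk n + 1) log n`, false for large `n`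
(`c3 ≥ 0.06`, `κ ≤ 0.26`, `0.06 * 0.9^(4/5) > 0.26 / 20^(4/5)`).
-/

set_option autoImplicit false

namespace Pool.Agent.Lib.MP_c6e9f4_al.Exp

open Equiv (Perm)

theorem K4_twenty : ((1 : ℝ) / 20) ^ (4 / 5 : ℝ) ≤ 1 / 10 := by
  have h : (((1 : ℝ) / 20) ^ (4 / 5 : ℝ)) ^ (5 : ℕ) = (1 / 20) ^ (4 : ℕ) := by
    rw [← Real.rpow_natCast, ← Real.rpow_mul (by norm_num)]
    rw [← Real.rpow_natCast]
    norm_num
  have h0 : (0 : ℝ) ≤ ((1 : ℝ) / 20) ^ (4 / 5 : ℝ) := Real.rpow_nonneg (by norm_num) _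
  by_contra hlt
  push Not at hlt
  have h2 : ((1 : ℝ) / 10) ^ 5 < (((1 : ℝ) / 20) ^ (4 / 5 : ℝ)) ^ 5 :=
    pow_lt_pow_left₀ hlt (by norm_num) (by norm_num)
  rw [h] at h2
  norm_num at h2

theorem K4_ninety : (0.9 : ℝ) ≤ (0.9 : ℝ) ^ (4 / 5 : ℝ) := by
  have h := Real.rpow_le_rpow_of_exponent_ge (x := (0.9 : ℝ)) (by norm_num) (by norm_num)
    (show (4 / 5 : ℝ) ≤ 1 by norm_num)
  rwa [Real.rpow_one] at h

/-- The final numerical contradiction. -/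
theorem K4_num {n c : ℕ} (hn : 160000 ≤ n) (hlog : Real.log n ≤ 0.01 * (n : ℝ) ^ (1 / 20 : ℝ))
    (hc : 0.9 * (n : ℝ) ≤ c) :
    ((kk n : ℝ) + 1) * Real.log n < c3 * (c : ℝ) ^ (4 / 5 : ℝ) - rr n ∧
      0 ≤ c3 * (c : ℝ) ^ (4 / 5 : ℝ) - rr n := by
  have hn' : (160000 : ℝ) ≤ (n : ℝ) := by exact_mod_cast hn
  have hnpos : (0 : ℝ) < (n : ℝ) := by linarith
  have hA : 0 < (n : ℝ) ^ (4 / 5 : ℝ) := Real.rpow_pos_of_pos hnpos _
  have hc1 : (0.9 : ℝ) * (n : ℝ) ^ (4 / 5 : ℝ) ≤ (c : ℝ) ^ (4 / 5 : ℝ) := by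
    calc (0.9 : ℝ) * (n : ℝ) ^ (4 / 5 : ℝ) ≤ (0.9 : ℝ) ^ (4 / 5 : ℝ) * (n : ℝ) ^ (4 / 5 : ℝ) :=
          mul_le_mul_of_nonneg_right K4_ninety hA.le
      _ = (0.9 * (n : ℝ)) ^ (4 / 5 : ℝ) := by
          rw [Real.mul_rpow (by norm_num) hnpos.le]
      _ ≤ (c : ℝ) ^ (4 / 5 : ℝ) := Real.rpow_le_rpow (by positivity) hc (by norm_num)
  have hrr : rr n ≤ 0.026 * (n : ℝ) ^ (4 / 5 : ℝ) := by
    unfold rr
    have h1 : ((n : ℝ) / 20) ^ (4 / 5 : ℝ) = (n : ℝ) ^ (4 / 5 : ℝ) * (1 / 20) ^ (4 / 5 : ℝ) := by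
      rw [← Real.mul_rpow hnpos.le (by norm_num)]
      congr 1
      ring
    rw [h1]
    have h2 := K4_twenty
    have h3 := kap_le
    have h4 := kap_pos
    have h5 : (n : ℝ) ^ (4 / 5 : ℝ) * (1 / 20) ^ (4 / 5 : ℝ) ≤ (n : ℝ) ^ (4 / 5 : ℝ) * (1 / 10) :=
      mul_le_mul_of_nonneg_left h2 hA.le
    calc kap * ((n : ℝ) ^ (4 / 5 : ℝ) * (1 / 20) ^ (4 / 5 : ℝ))
        ≤ kap * ((n : ℝ) ^ (4 / 5 : ℝ) * (1 / 10)) := mul_le_mul_of_nonneg_left h5 h4.le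
      _ ≤ 0.26 * ((n : ℝ) ^ (4 / 5 : ℝ) * (1 / 10)) :=
          mul_le_mul_of_nonneg_right h3 (by positivity)
      _ = 0.026 * (n : ℝ) ^ (4 / 5 : ℝ) := by ring
  have hc3 : 0.054 * (n : ℝ) ^ (4 / 5 : ℝ) ≤ c3 * (c : ℝ) ^ (4 / 5 : ℝ) := by
    calc 0.054 * (n : ℝ) ^ (4 / 5 : ℝ) = 0.06 * (0.9 * (n : ℝ) ^ (4 / 5 : ℝ)) := by ring
      _ ≤ c3 * (0.9 * (n : ℝ) ^ (4 / 5 : ℝ)) :=
          mul_le_mul_of_nonneg_right c3_ge (by positivity)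
      _ ≤ c3 * (c : ℝ) ^ (4 / 5 : ℝ) := mul_le_mul_of_nonneg_left hc1 c3_pos.le
  have hkk : (kk n : ℝ) ≤ (n : ℝ) ^ (3 / 4 : ℝ) := Nat.floor_le (Real.rpow_nonneg hnpos.le _)
  have h34 : (1 : ℝ) ≤ (n : ℝ) ^ (3 / 4 : ℝ) :=
    Real.one_le_rpow (by linarith) (by norm_num)
  have hlog0 : 0 ≤ Real.log n := Real.log_nonneg (by linarith)
  have hprod : (n : ℝ) ^ (3 / 4 : ℝ) * (n : ℝ) ^ (1 / 20 : ℝ) = (n : ℝ) ^ (4 / 5 : ℝ) := by
    rw [← Real.rpow_add hnpos]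
    norm_num
  have hmain : ((kk n : ℝ) + 1) * Real.log n ≤ 0.02 * (n : ℝ) ^ (4 / 5 : ℝ) := by
    calc ((kk n : ℝ) + 1) * Real.log n ≤ (2 * (n : ℝ) ^ (3 / 4 : ℝ)) * Real.log n :=
          mul_le_mul_of_nonneg_right (by linarith) hlog0
      _ ≤ (2 * (n : ℝ) ^ (3 / 4 : ℝ)) * (0.01 * (n : ℝ) ^ (1 / 20 : ℝ)) :=
          mul_le_mul_of_nonneg_left hlog (by positivity)
      _ = 0.02 * ((n : ℝ) ^ (3 / 4 : ℝ) * (n : ℝ) ^ (1 / 20 : ℝ)) := by ring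
      _ = 0.02 * (n : ℝ) ^ (4 / 5 : ℝ) := by rw [hprod]
  constructor <;> nlinarith

theorem critical : ∃ n0 : ℕ, ∀ n : ℕ, n0 ≤ n → ∀ C : ℝ, Real.exp 1 ≤ C → IH C n →
    ∀ (α : Type) [Fintype α] [DecidableEq α], Fintype.card α = n → ∀ l : List (Perm α), Bad l →
    C ^ (E n - rr n) ≤ (l.length : ℝ) + 1 →
    ∃ (z : List (Perm α)) (B : Finset α), Der z l ∧ (∀ g ∈ z, ∀ x, x ∉ B → g x = x) ∧
      20 * (n - B.card) ≤ n ∧ KT (Subgroup.closure {g | g ∈ z}) B (kk n) := by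
  have h1 : ∀ᶠ x : ℝ in Filter.atTop, Real.log x ≤ 0.01 * x ^ (1 / 20 : ℝ) := by
    have h := (isLittleO_log_rpow_atTop (show (0 : ℝ) < 1 / 20 by norm_num)).bound
      (show (0 : ℝ) < 0.01 by norm_num)
    filter_upwards [h, Filter.eventually_ge_atTop (1 : ℝ)] with x hx hx1
    rw [Real.norm_of_nonneg (Real.log_nonneg hx1),
      Real.norm_of_nonneg (Real.rpow_nonneg (by linarith) _)] at hx
    exact hx
  obtain ⟨N, hN⟩ := Filter.eventually_atTop.mp h1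
  obtain ⟨n1, hn1⟩ := exists_nat_ge N
  refine ⟨max n1 160000, ?_⟩
  intro n hn C hC ih α _ _ hα l hl hlen
  have hn1' : n1 ≤ n := le_trans (le_max_left _ _) hn
  have hnb : 160000 ≤ n := le_trans (le_max_right _ _) hn
  have hnR : (160000 : ℝ) ≤ (n : ℝ) := by exact_mod_cast hnb
  have hnpos : (0 : ℝ) < (n : ℝ) := by linarith
  have hlog : Real.log n ≤ 0.01 * (n : ℝ) ^ (1 / 20 : ℝ) :=
    hN n (le_trans hn1 (by exact_mod_cast hn1'))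
  have he : (1 : ℝ) < Real.exp 1 := by
    have := Real.add_one_lt_exp (show (1 : ℝ) ≠ 0 by norm_num)
    linarith
  have hC1 : 1 < C := lt_of_lt_of_le he hC
  have hC0 : 0 < C := by linarith
  have hrr0 : 0 ≤ rr n := mul_nonneg kap_pos.le (Real.rpow_nonneg (by positivity) _)
  obtain ⟨z, B, hz, hzB, hT, hzlen, hk⟩ := derived_transitive hC1 ih hα l hl (rr n) hrr0 hlen
  have hBn : B.card ≤ n := hα ▸ Finset.card_le_univ B
  have hBnR : (B.card : ℝ) ≤ (n : ℝ) := by exact_mod_cast hBn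
  -- the complement is small
  have hsmall : (n : ℝ) - B.card ≤ (n : ℝ) / 20 := by
    have h2 : ((n : ℝ) - B.card) ^ (4 / 5 : ℝ) ≤ ((n : ℝ) / 20) ^ (4 / 5 : ℝ) := by
      unfold rr at hk
      exact le_of_mul_le_mul_left hk kap_pos
    exact (Real.rpow_le_rpow_iff (by linarith) (by positivity) (by norm_num)).mp h2
  have hsmall' : 20 * (n - B.card) ≤ n := by
    have h3 : (20 : ℝ) * ((n : ℝ) - B.card) ≤ n := by linarith
    have h4 : ((20 * (n - B.card) : ℕ) : ℝ) ≤ (n : ℝ) := by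
      push_cast [Nat.cast_sub hBn]
      exact h3
    exact_mod_cast h4
  refine ⟨z, B, hz, hzB, hsmall', ?_⟩
  by_contra hKT
  have hS : SuppIn ((Subgroup.closure {g | g ∈ z} : Subgroup (Perm α)) : Set (Perm α)) B := by
    intro g hg x hx
    have hg' : g ∈ Subgroup.closure {g | g ∈ z} := hg
    induction hg' using Subgroup.closure_induction with
    | mem y hy => exact hzB y hy x hx
    | one => rfl
    | mul a b ha hb iha ihb =>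
      rw [Equiv.Perm.mul_apply, ihb hb, iha ha]
    | inv a ha iha =>
      rw [Equiv.Perm.inv_eq_iff_eq]
      exact (iha ha).symm
  obtain ⟨c, hcB, hBc, hDB⟩ := not_KT_bound hC1.le ih (Subgroup.closure {g | g ∈ z}) B hBn hS hT
    (kk n) hKT
  have hzbad : Bad z := hz.bad hl
  have hlenz := hDB z (fun g hg => Subgroup.subset_closure hg) hzbad
  -- size of c
  have hkk : (kk n : ℝ) ≤ (n : ℝ) ^ (3 / 4 : ℝ) := Nat.floor_le (Real.rpow_nonneg hnpos.le _)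
  have hquarter : (20 : ℝ) ≤ (n : ℝ) ^ (1 / 4 : ℝ) := by
    have h5 : ((160000 : ℝ)) ^ (1 / 4 : ℝ) = 20 := by
      rw [show (160000 : ℝ) = 20 ^ (4 : ℕ) by norm_num, ← Real.rpow_natCast,
        ← Real.rpow_mul (by norm_num)]
      norm_num
    rw [← h5]
    exact Real.rpow_le_rpow (by norm_num) hnR (by norm_num)
  have h34 : (n : ℝ) ^ (3 / 4 : ℝ) * 20 ≤ n := by
    calc (n : ℝ) ^ (3 / 4 : ℝ) * 20 ≤ (n : ℝ) ^ (3 / 4 : ℝ) * (n : ℝ) ^ (1 / 4 : ℝ) :=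
          mul_le_mul_of_nonneg_left hquarter (Real.rpow_nonneg hnpos.le _)
      _ = (n : ℝ) := by
          rw [← Real.rpow_add hnpos]
          norm_num
  have hBcR : (B.card : ℝ) ≤ (c : ℝ) + kk n := by exact_mod_cast hBc
  have hc9 : 0.9 * (n : ℝ) ≤ c := by linarith
  obtain ⟨hnum, hD0⟩ := K4_num hnb hlog hc9
  -- logarithms
  have hcpos : (0 : ℝ) < (c : ℝ) := by linarith
  have hcn : (c : ℝ) ≤ n := by
    have : (c : ℝ) ≤ (B.card : ℝ) := by exact_mod_cast hcB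
    linarith
  have hchain : C ^ (E B.card - rr n) ≤
      (n : ℝ) ^ (kk n) * ((c : ℝ) * C ^ (E c - c3 * (c : ℝ) ^ (4 / 5 : ℝ))) :=
    le_trans hzlen hlenz
  have hlogineq := Real.log_le_log (Real.rpow_pos_of_pos hC0 _) hchain
  rw [Real.log_rpow hC0, Real.log_mul (by positivity)
    (mul_pos hcpos (Real.rpow_pos_of_pos hC0 _)).ne', Real.log_mul hcpos.ne'
    (Real.rpow_pos_of_pos hC0 _).ne', Real.log_rpow hC0, Real.log_pow] at hlogineq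
  have hL1 : 1 ≤ Real.log C := by
    rw [Real.le_log_iff_exp_le hC0]
    exact hC
  have hlogc : Real.log c ≤ Real.log n := Real.log_le_log hcpos hcn
  have hE : E c ≤ E B.card := E_mono hcB
  have hfin : (c3 * (c : ℝ) ^ (4 / 5 : ℝ) - rr n) * Real.log C ≤
      ((kk n : ℝ) + 1) * Real.log n := by
    have h6 : E c * Real.log C ≤ E B.card * Real.log C :=
      mul_le_mul_of_nonneg_right hE (by linarith)
    nlinarith
  have hge : c3 * (c : ℝ) ^ (4 / 5 : ℝ) - rr n ≤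
      (c3 * (c : ℝ) ^ (4 / 5 : ℝ) - rr n) * Real.log C := le_mul_of_one_le_right hD0 hL1
  linarith

end Pool.Agent.Lib.MP_c6e9f4_al.Exp
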