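import Pool.Agent.Lib.MP_c6e9f4_al.Exp.A1

/-!
M1. Growth: cut a prefix of `J` into `M` blocks of length `L`; the cardinalities of
`Pi (first j blocks)` go from 1 to at most `|G| < (1+η)^M`, so some step has ratio at most `1+η`.
-/

set_option autoImplicit false

namespace Pool.Agent.Lib.MP_c6e9f4_al.Exp

open Equiv (Perm)

theorem growth {G : Type*} [Group G] [Fintype G] (η : ℝ) (hη : 0 < η) (M L : ℕ)
    (hM : (Fintype.card G : ℝ) < (1 + η) ^ M) (J : List G) (hJ : M * L ≤ J.length) :
    ∃ J1 I J2 : List G, J = J1 ++ I ++ J2 ∧ I.length = L ∧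
      ((Pi (J1 ++ I)).ncard : ℝ) ≤ (1 + η) * ((Pi J1).ncard : ℝ) := by
  by_contra hcon
  push Not at hcon
  have hstep : ∀ j : ℕ, j < M →
      (1 + η) * ((Pi (J.take (j * L))).ncard : ℝ) < ((Pi (J.take ((j + 1) * L))).ncard : ℝ) := by
    intro j hj
    have hjl : (j + 1) * L ≤ J.length :=
      le_trans (Nat.mul_le_mul_right L (by omega)) hJ
    have h1 : J.take ((j + 1) * L) = J.take (j * L) ++ (J.drop (j * L)).take L := by
      rw [Nat.add_mul, Nat.one_mul, List.take_add]
    have h2 : J = J.take (j * L) ++ (J.drop (j * L)).take L ++ J.drop ((j + 1) * L) := by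
      rw [← h1, List.take_append_drop]
    have h3 : ((J.drop (j * L)).take L).length = L := by
      rw [List.length_take, List.length_drop]
      rw [Nat.add_mul, Nat.one_mul] at hjl
      omega
    have h4 := hcon _ _ _ h2 h3
    rw [h1]
    exact h4
  have hpow : ∀ j : ℕ, j ≤ M → (1 + η) ^ j ≤ ((Pi (J.take (j * L))).ncard : ℝ) := by
    intro j
    induction j with
    | zero =>
      intro _
      have h1 : (1 : G) ∈ Pi (J.take (0 * L)) := one_mem_Pi _
      have h2 : 0 < (Pi (J.take (0 * L))).ncard :=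
        (Set.ncard_pos (Set.toFinite _)).mpr ⟨1, h1⟩
      rw [pow_zero]
      exact_mod_cast h2
    | succ j ih =>
      intro hj
      have h1 := ih (by omega)
      have h2 := hstep j (by omega)
      have h3 : (1 + η) ^ (j + 1) ≤ (1 + η) * ((Pi (J.take (j * L))).ncard : ℝ) := by
        rw [pow_succ, mul_comm]
        exact mul_le_mul_of_nonneg_left h1 (by linarith)
      linarith
  have h1 := hpow M le_rfl
  have h2 : ((Pi (J.take (M * L))).ncard : ℝ) ≤ (Fintype.card G : ℝ) := by
    have h3 := Set.ncard_le_card (Pi (J.take (M * L)))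
    rw [Nat.card_eq_fintype_card] at h3
    exact_mod_cast h3
  linarith

end Pool.Agent.Lib.MP_c6e9f4_al.Exp
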