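import Pool.Agent.Lib.MP_c6e9f4_al.Exp.Defs

/-!
M2. The length function of a finite set `A`, `ρ g = |A g \ A| / |A|`, and averaging over a subgroup.
`|A g h \ A| ≤ |(A g \ A) h| + |A h \ A|`; `|A g⁻¹ \ A| = |A \ A g| = |A g \ A|`. Averaging:
`∑_{h ∈ K} |A h \ A| = ∑_{a ∈ A} (|K| - |A ∩ a K|)`.
-/

set_option autoImplicit false

namespace Pool.Agent.Lib.MP_c6e9f4_al.Exp

open Equiv (Perm)

theorem M2_card_image {G : Type*} [Group G] [DecidableEq G] (S : Finset G) (g : G) :
    (S.image (fun x => x * g)).card = S.card :=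
  Finset.card_image_of_injective _ (mul_left_injective g)

theorem lenFun_set {G : Type*} [Group G] [DecidableEq G] (A : Finset G) (hA : A.Nonempty) :
    LenFun (fun g : G => (((A.image (fun x => x * g)) \ A).card : ℝ) / (A.card : ℝ)) := by
  have hpos : (0 : ℝ) < A.card := by exact_mod_cast hA.card_pos
  refine ⟨fun g => by positivity, ?_, ?_, ?_⟩
  · simp
  · intro g h
    rw [← add_div]
    refine div_le_div_of_nonneg_right ?_ hpos.le
    have h1 : (A.image (fun x => x * (g * h))) \ A ⊆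
        (((A.image (fun x => x * g)) \ A).image (fun x => x * h)) ∪
          ((A.image (fun x => x * h)) \ A) := by
      intro y hy
      rw [Finset.mem_sdiff, Finset.mem_image] at hy
      obtain ⟨⟨x, hx, rfl⟩, hy2⟩ := hy
      rw [Finset.mem_union]
      by_cases hc : x * g ∈ A
      · right
        rw [Finset.mem_sdiff, Finset.mem_image]
        exact ⟨⟨x * g, hc, by group⟩, hy2⟩
      · left
        rw [Finset.mem_image]
        refine ⟨x * g, ?_, by group⟩
        rw [Finset.mem_sdiff, Finset.mem_image]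
        exact ⟨⟨x, hx, rfl⟩, hc⟩
    have h2 := (Finset.card_le_card h1).trans (Finset.card_union_le _ _)
    rw [M2_card_image] at h2
    exact_mod_cast h2
  · intro g
    congr 1
    have h1 : ((A.image (fun x => x * g⁻¹)) \ A).image (fun x => x * g) =
        A \ A.image (fun x => x * g) := by
      ext y
      simp only [Finset.mem_image, Finset.mem_sdiff]
      constructor
      · rintro ⟨z, ⟨⟨x, hx, rfl⟩, hz⟩, rfl⟩
        refine ⟨by simpa using hx, ?_⟩
        rintro ⟨x', hx', he⟩
        apply hz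
        have : x' = x * g⁻¹ := mul_right_cancel he
        rwa [← this]
      · rintro ⟨hy, hn⟩
        refine ⟨y * g⁻¹, ⟨⟨y, hy, rfl⟩, fun hc => hn ⟨y * g⁻¹, hc, by group⟩⟩, by group⟩
    have h2 := congrArg Finset.card h1
    rw [M2_card_image] at h2
    rw [h2]
    have h3 := Finset.card_sdiff_comm (M2_card_image A g)
    rw [h3]

theorem averaging {G : Type*} [Group G] [Fintype G] [DecidableEq G] (A : Finset G)
    (hA : A.Nonempty) (K : Finset G) (hK1 : 1 ∈ K) (hKm : ∀ a ∈ K, ∀ b ∈ K, a * b ∈ K)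
    (hKi : ∀ a ∈ K, a⁻¹ ∈ K)
    (hK : ∀ h ∈ K, (((A.image (fun x => x * h)) \ A).card : ℝ) ≤ 1 / 10 * (A.card : ℝ)) :
    ∃ a ∈ A, 9 / 10 * (K.card : ℝ) ≤ ((A.filter fun g => a⁻¹ * g ∈ K).card : ℝ) := by
  have h1 : ∀ h ∈ K, ((A.filter fun a => a * h ∉ A).card : ℝ) ≤ 1 / 10 * (A.card : ℝ) := by
    intro h hh
    refine le_trans ?_ (hK h hh)
    have : (A.filter fun a => a * h ∉ A).image (fun x => x * h) ⊆
        (A.image (fun x => x * h)) \ A := by
      intro y hy
      rw [Finset.mem_image] at hy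
      obtain ⟨x, hx, rfl⟩ := hy
      rw [Finset.mem_filter] at hx
      rw [Finset.mem_sdiff, Finset.mem_image]
      exact ⟨⟨x, hx.1, rfl⟩, hx.2⟩
    have h2 := Finset.card_le_card this
    rw [M2_card_image] at h2
    exact_mod_cast h2
  have h2 : ∑ a ∈ A, ((K.filter fun h => a * h ∉ A).card : ℝ) =
      ∑ h ∈ K, ((A.filter fun a => a * h ∉ A).card : ℝ) := by
    have : ∑ a ∈ A, (K.filter fun h => a * h ∉ A).card =
        ∑ h ∈ K, (A.filter fun a => a * h ∉ A).card := by
      simp only [Finset.card_filter]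
      exact Finset.sum_comm
    exact_mod_cast this
  have h3 : ∑ a ∈ A, ((K.filter fun h => a * h ∉ A).card : ℝ) ≤
      ∑ a ∈ A, (1 / 10 * (K.card : ℝ)) := by
    rw [h2]
    refine (Finset.sum_le_sum h1).trans ?_
    rw [Finset.sum_const, Finset.sum_const, nsmul_eq_mul, nsmul_eq_mul]
    exact le_of_eq (by ring)
  obtain ⟨a, ha, h4⟩ := Finset.exists_le_of_sum_le hA h3
  refine ⟨a, ha, ?_⟩
  have h5 : ((K.filter fun h => a * h ∈ A).card : ℝ) +
      ((K.filter fun h => a * h ∉ A).card : ℝ) = K.card := by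
    exact_mod_cast Finset.card_filter_add_card_filter_not (s := K) (fun h => a * h ∈ A)
  have h6 : (K.filter fun h => a * h ∈ A).card ≤ (A.filter fun g => a⁻¹ * g ∈ K).card := by
    rw [← Finset.card_image_of_injective (K.filter fun h => a * h ∈ A) (mul_right_injective a)]
    refine Finset.card_le_card fun y hy => ?_
    rw [Finset.mem_image] at hy
    obtain ⟨h, hh, rfl⟩ := hy
    rw [Finset.mem_filter] at hh ⊢
    refine ⟨hh.2, ?_⟩
    simpa using hh.1
  have h7 : ((K.filter fun h => a * h ∈ A).card : ℝ) ≤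
      ((A.filter fun g => a⁻¹ * g ∈ K).card : ℝ) := by exact_mod_cast h6
  linarith


end Pool.Agent.Lib.MP_c6e9f4_al.Exp
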