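import Pool.Agent.Lib.MP_c6e9f4_al.Exp.K4
import Pool.Agent.Lib.MP_c6e9f4_al.Exp.G9
import Pool.Agent.Lib.MP_c6e9f4_al.Exp.M1
import Pool.Agent.Lib.MP_c6e9f4_al.Exp.M2

/-!
M3. Mixing. `growth` with `η = exp(-n^0.77)/10`; `critical` for the block `I` (length `L`) gives a
derived list `z` in `B`; every entry of `z` is in `Pi I`, so has `ρ ≤ η` for `A = Pi J1`; `gen` gives
`ρ ≤ 1/10` on `AltB B`; `averaging`.
-/

set_option autoImplicit false

namespace Pool.Agent.Lib.MP_c6e9f4_al.Exp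

open Equiv (Perm)

theorem m3_small {G : Type*} [Group G] [Fintype G] [DecidableEq G] (J1 I : List G) (η : ℝ)
    (A : Finset G) (hA : ∀ x, x ∈ A ↔ x ∈ Pi J1)
    (hg : ((Pi (J1 ++ I)).ncard : ℝ) ≤ (1 + η) * ((Pi J1).ncard : ℝ)) (g : G) (hgI : g ∈ Pi I) :
    (((A.image (fun x => x * g)) \ A).card : ℝ) / (A.card : ℝ) ≤ η := by
  classical
  have hAn : A.Nonempty := ⟨1, (hA 1).mpr (one_mem_Pi J1)⟩
  have hApos : (0 : ℝ) < A.card := by exact_mod_cast Finset.card_pos.mpr hAn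
  obtain ⟨D, hD⟩ : ∃ D : Finset G, ∀ x, x ∈ D ↔ x ∈ Pi (J1 ++ I) :=
    ⟨(Set.toFinite (Pi (J1 ++ I))).toFinset, fun x => by simp⟩
  have hAc : (Pi J1).ncard = A.card := by
    have : Pi J1 = (A : Set G) := by
      ext x
      rw [Finset.mem_coe, hA]
    rw [this, Set.ncard_coe_finset]
  have hDc : (Pi (J1 ++ I)).ncard = D.card := by
    have : Pi (J1 ++ I) = (D : Set G) := by
      ext x
      rw [Finset.mem_coe, hD]
    rw [this, Set.ncard_coe_finset]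
  rw [hAc, hDc] at hg
  have h1 : A ⊆ D := by
    intro x hx
    rw [hD, mem_Pi_append]
    exact ⟨x, (hA x).mp hx, 1, one_mem_Pi I, mul_one x⟩
  have h2 : A.image (fun x => x * g) ⊆ D := by
    intro y hy
    rw [Finset.mem_image] at hy
    obtain ⟨x, hx, rfl⟩ := hy
    rw [hD, mem_Pi_append]
    exact ⟨x, (hA x).mp hx, g, hgI, rfl⟩
  have h3 : (A.image (fun x => x * g)) \ A ⊆ D \ A := Finset.sdiff_subset_sdiff h2 le_rfl
  have h4 : ((A.image (fun x => x * g)) \ A).card + A.card ≤ D.card := by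
    have := Finset.card_le_card h3
    have h5 := Finset.card_sdiff_add_card_eq_card h1
    omega
  have h6 : ((((A.image (fun x => x * g)) \ A).card : ℕ) : ℝ) + (A.card : ℝ) ≤ (D.card : ℝ) := by
    exact_mod_cast h4
  rw [div_le_iff₀ hApos]
  linarith

theorem mixing : ∃ n0 : ℕ, ∀ n : ℕ, n0 ≤ n → ∀ C : ℝ, Real.exp 1 ≤ C → IH C n →
    ∀ (α : Type) [Fintype α] [DecidableEq α], Fintype.card α = n →
    ∀ M L : ℕ, C ^ (E n - rr n) ≤ (L : ℝ) + 1 →
    (n.factorial : ℝ) < (1 + Real.exp (-(n : ℝ) ^ (0.77 : ℝ)) / 10) ^ M →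
    ∀ J : List (Perm α), Bad J → M * L ≤ J.length →
    ∃ (B : Finset α) (ξ : Perm α), 20 * (n - B.card) ≤ n ∧
      9 / 10 * ((AltB B).ncard : ℝ) ≤ (({h | h ∈ AltB B ∧ ξ * h ∈ Pi J} : Set (Perm α)).ncard : ℝ)
      := by
  classical
  obtain ⟨n1, hcrit⟩ := critical
  obtain ⟨n2, hgen⟩ := gen
  refine ⟨max n1 n2, ?_⟩
  intro n hn C hC ih α _ _ hα M L hL hM J hJ hlen
  have hn1 : n1 ≤ n := (le_max_left _ _).trans hn
  have hn2 : n2 ≤ n := (le_max_right _ _).trans hn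
  set η : ℝ := Real.exp (-(n : ℝ) ^ (0.77 : ℝ)) / 10 with hη
  have hη0 : 0 < η := by positivity
  have hcard : (Fintype.card (Perm α) : ℝ) < (1 + η) ^ M := by
    rw [Fintype.card_perm, hα]
    exact hM
  obtain ⟨J1, I, J2, hJe, hIl, hgr⟩ := growth η hη0 M L hcard J hlen
  have hIs : I.Sublist J := by
    rw [hJe]
    exact (List.sublist_append_right J1 I).trans (List.sublist_append_left (J1 ++ I) J2)
  have hJ1s : J1.Sublist J := by
    rw [hJe]
    exact (List.sublist_append_left J1 I).trans (List.sublist_append_left (J1 ++ I) J2)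
  have hIbad : Bad I := hJ.sublist hIs
  obtain ⟨z, B, hder, hsupp, hB, hKT⟩ := hcrit n hn1 C hC ih α hα I hIbad (by rw [hIl]; exact hL)
  obtain ⟨A, hA⟩ : ∃ A : Finset (Perm α), ∀ x, x ∈ A ↔ x ∈ Pi J1 :=
    ⟨(Set.toFinite (Pi J1)).toFinset, fun x => by simp⟩
  have hAn : A.Nonempty := ⟨1, (hA 1).mpr (one_mem_Pi J1)⟩
  have hApos : (0 : ℝ) < A.card := by exact_mod_cast Finset.card_pos.mpr hAn
  have hρ := lenFun_set A hAn
  have hBle : B.card ≤ n := by
    rw [← hα]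
    exact Finset.card_le_univ B
  have hgen1 := hgen n hn2 α hα {g | g ∈ z} B (fun g hg x hx => hsupp g hg x hx) (by omega) hKT
    _ hρ η hη0.le (fun g hg => m3_small J1 I η A hA hgr g (hder.mem_Pi hg))
  obtain ⟨K, hK⟩ : ∃ K : Finset (Perm α), ∀ x, x ∈ K ↔ x ∈ AltB B :=
    ⟨(Set.toFinite (AltB B)).toFinset, fun x => by simp⟩
  have hmem : ∀ x : Perm α, x ∈ K ↔ (Equiv.Perm.sign x = 1 ∧ ∀ y, y ∉ B → x y = y) := hK
  have hone : (1 : Perm α) ∈ K := by
    rw [hmem]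
    exact ⟨Equiv.Perm.sign_one, fun y _ => rfl⟩
  have hmul : ∀ a ∈ K, ∀ b ∈ K, a * b ∈ K := by
    intro a ha b hb
    rw [hmem] at ha hb ⊢
    refine ⟨by rw [Equiv.Perm.sign_mul, ha.1, hb.1, mul_one], fun y hy => ?_⟩
    rw [Equiv.Perm.mul_apply, hb.2 y hy, ha.2 y hy]
  have hinv : ∀ a ∈ K, a⁻¹ ∈ K := by
    intro a ha
    rw [hmem] at ha ⊢
    refine ⟨by rw [Equiv.Perm.sign_inv, ha.1], fun y hy => ?_⟩
    rw [Equiv.Perm.inv_eq_iff_eq]
    exact (ha.2 y hy).symm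
  have hexp : Real.exp ((n : ℝ) ^ (0.77 : ℝ)) * η = 1 / 10 := by
    rw [hη, mul_div_assoc', ← Real.exp_add]
    simp
  have hK10 : ∀ h ∈ K, (((A.image (fun x => x * h)) \ A).card : ℝ) ≤ 1 / 10 * (A.card : ℝ) := by
    intro h hh
    have h1 := hgen1 h ((hK h).mp hh)
    rw [hexp] at h1
    rwa [div_le_iff₀ hApos] at h1
  obtain ⟨a, haA, ha⟩ := averaging A hAn K hone hmul hinv hK10
  refine ⟨B, a, hB, ?_⟩
  have hKc : (AltB B).ncard = K.card := by
    have : AltB B = (K : Set (Perm α)) := by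
      ext x
      rw [Finset.mem_coe, hK]
    rw [this, Set.ncard_coe_finset]
  rw [hKc]
  refine ha.trans ?_
  have hle : (A.filter fun g => a⁻¹ * g ∈ K).card ≤
      ({h | h ∈ AltB B ∧ a * h ∈ Pi J} : Set (Perm α)).ncard := by
    have himg : ((((A.filter fun g => a⁻¹ * g ∈ K).image fun g => a⁻¹ * g) : Finset (Perm α)) :
        Set (Perm α)) ⊆ {h | h ∈ AltB B ∧ a * h ∈ Pi J} := by
      intro h hh
      rw [Finset.mem_coe, Finset.mem_image] at hh
      obtain ⟨g, hg, rfl⟩ := hh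
      rw [Finset.mem_filter] at hg
      refine ⟨(hK _).mp hg.2, ?_⟩
      rw [mul_inv_cancel_left]
      exact Pi_mono hJ1s ((hA g).mp hg.1)
    have hc := Set.ncard_le_ncard himg (Set.toFinite _)
    rw [Set.ncard_coe_finset, Finset.card_image_of_injective _ (mul_right_injective a⁻¹)] at hc
    exact hc
  exact_mod_cast hle

end Pool.Agent.Lib.MP_c6e9f4_al.Exp
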