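import Pool.Agent.Lib.MP_c6e9f4_al.Exp.M3

/-!
M4. Full cosets: split `J = J' ++ J''` in halves, `mixing` for `J'` and for the reversed inverse list
of `J''` (`mem_Pi_reverse_inv`, `Bad.reverse_inv`): `ξ h ∈ Pi J'` for 9/10 of `h ∈ AltB B'`,
`h ζ ∈ Pi J''` for 9/10 of `h ∈ AltB B''`. With `B = B' ∩ B''` there are cosets of `AltB B` in `AltB B'`
(left) and in `AltB B''` (right) where the density is still 9/10; the product of the two sets contains
`ξ₁ (AltB B) ζ₁ = ξ₁ ζ₁ AltB (ζ₁⁻¹ B)`.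
-/

set_option autoImplicit false

namespace Pool.Agent.Lib.MP_c6e9f4_al.Exp

open Equiv (Perm)

/-- Averaging over the left cosets `h K` of `K` in `H`. -/
theorem m4_avg {G : Type*} [Group G] [Finite G] (H K X : Set G)
    (h2 : ∀ h ∈ H, ∀ k ∈ K, h * k⁻¹ ∈ H)
    (hne : H.Nonempty) (hX : X ⊆ H)
    (hd : 9 / 10 * (H.ncard : ℝ) ≤ (X.ncard : ℝ)) :
    ∃ h ∈ H, 9 / 10 * (K.ncard : ℝ) ≤ (({k | k ∈ K ∧ h * k ∈ X} : Set G).ncard : ℝ) := by
  classical
  have := Fintype.ofFinite G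
  by_contra hcon
  push Not at hcon
  let Hf : Finset G := Finset.univ.filter fun h => h ∈ H
  let Kf : Finset G := Finset.univ.filter fun h => h ∈ K
  let Xf : Finset G := Finset.univ.filter fun h => h ∈ X
  have cH : H.ncard = Hf.card := by
    rw [← Set.ncard_coe_finset]; congr 1; ext x; simp [Hf]
  have cK : K.ncard = Kf.card := by
    rw [← Set.ncard_coe_finset]; congr 1; ext x; simp [Kf]
  have cX : X.ncard = Xf.card := by
    rw [← Set.ncard_coe_finset]; congr 1; ext x; simp [Xf]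
  have cY : ∀ h, ({k | k ∈ K ∧ h * k ∈ X} : Set G).ncard =
      (Kf.filter fun k => h * k ∈ X).card := by
    intro h
    rw [← Set.ncard_coe_finset]; congr 1; ext x; simp [Kf]
  have cZ : ∀ k ∈ K, (Hf.filter fun h => h * k ∈ X).card = Xf.card := by
    intro k hk
    apply Finset.card_bij (fun h _ => h * k)
    · intro a ha
      rw [Finset.mem_filter] at ha
      simpa [Xf] using ha.2
    · intro a _ b _ hab
      exact mul_right_cancel hab
    · intro x hx
      have hx' : x ∈ X := by simpa [Xf] using hx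
      refine ⟨x * k⁻¹, ?_, by simp⟩
      rw [Finset.mem_filter]
      refine ⟨?_, by simpa using hx'⟩
      simp only [Hf, Finset.mem_filter, Finset.mem_univ, true_and]
      exact h2 x (hX hx') k hk
  have hsum : ∑ h ∈ Hf, (Kf.filter fun k => h * k ∈ X).card = Kf.card * Xf.card := by
    simp only [Finset.card_filter]
    rw [Finset.sum_comm]
    have : ∀ k ∈ Kf, ∑ h ∈ Hf, (if h * k ∈ X then 1 else 0) = Xf.card := by
      intro k hk
      rw [← Finset.card_filter]
      exact cZ k (by simpa [Kf] using hk)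
    rw [Finset.sum_congr rfl this, Finset.sum_const, smul_eq_mul]
  have hHne : Hf.Nonempty := by
    obtain ⟨h, hh⟩ := hne
    exact ⟨h, by simpa [Hf] using hh⟩
  have hlt : ∑ h ∈ Hf, ((Kf.filter fun k => h * k ∈ X).card : ℝ) <
      ∑ h ∈ Hf, 9 / 10 * (Kf.card : ℝ) := by
    apply Finset.sum_lt_sum_of_nonempty hHne
    intro h hh
    have := hcon h (by simpa [Hf] using hh)
    rw [cY h, cK] at this
    exact this
  have hsum' : ∑ h ∈ Hf, ((Kf.filter fun k => h * k ∈ X).card : ℝ) = Kf.card * Xf.card := by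
    exact_mod_cast hsum
  rw [hsum', Finset.sum_const, nsmul_eq_mul] at hlt
  rw [cH, cX] at hd
  have hK : (0 : ℝ) ≤ Kf.card := Nat.cast_nonneg _
  nlinarith

theorem m4_mul_mem {α : Type} [Fintype α] [DecidableEq α] {B : Finset α} {a b : Perm α}
    (ha : a ∈ AltB B) (hb : b ∈ AltB B) : a * b ∈ AltB B := by
  refine ⟨?_, fun x hx => ?_⟩
  · rw [Equiv.Perm.sign_mul, ha.1, hb.1]; rfl
  · rw [Equiv.Perm.mul_apply, hb.2 x hx, ha.2 x hx]

theorem m4_inv_mem {α : Type} [Fintype α] [DecidableEq α] {B : Finset α} {a : Perm α}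
    (ha : a ∈ AltB B) : a⁻¹ ∈ AltB B := by
  refine ⟨?_, fun x hx => ?_⟩
  · rw [Equiv.Perm.sign_inv, ha.1]
  · rw [Equiv.Perm.inv_eq_iff_eq]; exact (ha.2 x hx).symm

theorem m4_one_mem {α : Type} [Fintype α] [DecidableEq α] (B : Finset α) :
    (1 : Perm α) ∈ AltB B := ⟨Equiv.Perm.sign_one, fun _ _ => rfl⟩

theorem m4_mono {α : Type} [Fintype α] [DecidableEq α] {B B' : Finset α} (h : B ⊆ B')
    {a : Perm α} (ha : a ∈ AltB B) : a ∈ AltB B' :=
  ⟨ha.1, fun x hx => ha.2 x (fun hx' => hx (h hx'))⟩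

/-- Two subsets of density `> 1/2` of a finite subgroup: every element is `a b⁻¹`. -/
theorem m4_quot {G : Type*} [Group G] [Finite G] (K X Y : Set G)
    (hK1 : ∀ h ∈ K, ∀ k ∈ K, h * k ∈ K) (hne : K.Nonempty)
    (hX : X ⊆ K) (hY : Y ⊆ K)
    (hdX : 9 / 10 * (K.ncard : ℝ) ≤ (X.ncard : ℝ)) (hdY : 9 / 10 * (K.ncard : ℝ) ≤ (Y.ncard : ℝ))
    (k : G) (hk : k ∈ K) : ∃ a ∈ X, ∃ b ∈ Y, a = k * b := by
  classical
  by_contra hcon
  push Not at hcon
  have hdisj : Disjoint X ((fun b => k * b) '' Y) := by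
    rw [Set.disjoint_left]
    rintro a ha ⟨b, hb, rfl⟩
    exact hcon _ ha b hb rfl
  have hsub : X ∪ ((fun b => k * b) '' Y) ⊆ K := by
    rintro a (ha | ⟨b, hb, rfl⟩)
    · exact hX ha
    · exact hK1 k hk b (hY hb)
  have hc := Set.ncard_le_ncard hsub (Set.toFinite _)
  rw [Set.ncard_union_eq hdisj (Set.toFinite _) (Set.toFinite _),
    Set.ncard_image_of_injective _ (mul_right_injective k)] at hc
  have hpos : 0 < K.ncard := (Set.ncard_pos (Set.toFinite _)).2 hne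
  have hc' : (X.ncard : ℝ) + Y.ncard ≤ K.ncard := by exact_mod_cast hc
  have hpos' : (0 : ℝ) < K.ncard := by exact_mod_cast hpos
  linarith

theorem full_coset : ∃ n0 : ℕ, ∀ n : ℕ, n0 ≤ n → ∀ C : ℝ, Real.exp 1 ≤ C → IH C n →
    ∀ (α : Type) [Fintype α] [DecidableEq α], Fintype.card α = n →
    ∀ M L : ℕ, C ^ (E n - rr n) ≤ (L : ℝ) + 1 →
    (n.factorial : ℝ) < (1 + Real.exp (-(n : ℝ) ^ (0.77 : ℝ)) / 10) ^ M →
    ∀ J : List (Perm α), Bad J → 2 * (M * L) ≤ J.length →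
    ∃ (B : Finset α) (θ : Perm α), 10 * (n - B.card) ≤ n ∧ ∀ h ∈ AltB B, θ * h ∈ Pi J := by
  obtain ⟨n0, hmix⟩ := mixing
  refine ⟨n0, fun n hn C hC hIH α _ _ hcard M L hL hM J hJ hlen => ?_⟩
  have hJ1 : Bad (J.take (M * L)) := hJ.sublist (List.take_sublist _ _)
  have hJ2 : Bad (J.drop (M * L)) := hJ.sublist (List.drop_sublist _ _)
  obtain ⟨B', ξ, hB', hd'⟩ := hmix n hn C hC hIH α hcard M L hL hM _ hJ1
    (by rw [List.length_take]; omega)
  obtain ⟨B'', ζ', hB'', hd''⟩ := hmix n hn C hC hIH α hcard M L hL hM _ hJ2.reverse_inv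
    (by rw [List.length_reverse, List.length_map, List.length_drop]; omega)
  set B := B' ∩ B'' with hB
  have hsub' : B ⊆ B' := Finset.inter_subset_left
  have hsub'' : B ⊆ B'' := Finset.inter_subset_right
  have avg : ∀ (D : Finset α) (X : Set (Perm α)), B ⊆ D → X ⊆ AltB D →
      9 / 10 * ((AltB D).ncard : ℝ) ≤ (X.ncard : ℝ) →
      ∃ h ∈ AltB D, 9 / 10 * ((AltB B).ncard : ℝ) ≤
        (({k | k ∈ AltB B ∧ h * k ∈ X} : Set (Perm α)).ncard : ℝ) := by
    intro D X hBD hX hd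
    exact m4_avg (AltB D) (AltB B) X
      (fun h hh k hk => m4_mul_mem hh (m4_inv_mem (m4_mono hBD hk))) ⟨1, m4_one_mem D⟩ hX hd
  obtain ⟨a, ha, had⟩ := avg B' _ hsub' (fun x hx => hx.1) hd'
  obtain ⟨b, hb, hbd⟩ := avg B'' _ hsub'' (fun x hx => hx.1) hd''
  have key := m4_quot (AltB B) _ _ (fun h hh k hk => m4_mul_mem hh hk) ⟨1, m4_one_mem B⟩
    (fun x hx => hx.1) (fun x hx => hx.1) had hbd
  -- the set `ξ a K (ζ' b)⁻¹`
  set ω : Perm α := (ζ' * b)⁻¹ with hω
  refine ⟨B.map (Equiv.toEmbedding ω⁻¹), ξ * a * ω, ?_, ?_⟩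
  · rw [Finset.card_map]
    have h1 : Fintype.card α = n := hcard
    have h2 := Finset.card_union_add_card_inter B' B''
    have h3 : (B' ∪ B'').card ≤ n := by
      rw [← hcard]; exact Finset.card_le_univ _
    have h4 : B'.card ≤ n := by rw [← hcard]; exact Finset.card_le_univ _
    have h5 : B''.card ≤ n := by rw [← hcard]; exact Finset.card_le_univ _
    have h6 : B.card = (B' ∩ B'').card := rfl
    omega
  · intro h hh
    set k : Perm α := ω * h * ω⁻¹ with hk
    have hkK : k ∈ AltB B := by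
      refine ⟨?_, fun x hx => ?_⟩
      · rw [hk, Equiv.Perm.sign_mul, Equiv.Perm.sign_mul, Equiv.Perm.sign_inv, hh.1, mul_one]
        exact Int.units_mul_self _
      · rw [hk, Equiv.Perm.mul_apply, Equiv.Perm.mul_apply, hh.2 (ω⁻¹ x)]
        · simp
        · intro hm
          rw [Finset.mem_map] at hm
          obtain ⟨y, hy, hyx⟩ := hm
          have : y = x := ω⁻¹.injective (by simpa using hyx)
          rw [this] at hy
          exact hx hy
    obtain ⟨x, hx, y, hy, hxy⟩ := key k hkK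
    have e1 : ξ * a * ω * h = (ξ * (a * x)) * (ζ' * (b * y))⁻¹ := by
      rw [hxy, hk]
      have : (ζ' * (b * y))⁻¹ = y⁻¹ * ω := by
        rw [hω]; group
      rw [this]
      group
    rw [e1]
    have e2 : J = J.take (M * L) ++ J.drop (M * L) := (List.take_append_drop _ _).symm
    rw [e2, mem_Pi_append]
    refine ⟨_, hx.2.2, _, mem_Pi_reverse_inv.1 hy.2.2, rfl⟩


end Pool.Agent.Lib.MP_c6e9f4_al.Exp
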