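import Pool.Agent.Lib.MP_c6e9f4_al.Exp.Defs

/-!
O1. Equivariant neighbourhoods from a small suborbit. `H` is transitive on `B` but the stabiliser of
`p` is not transitive on `B - p`: there are `x, y` in `B - p` in different `H_p`-orbits, one of them, say
the one of `q`, has at most `(|B|-1)/2` points. Put `N v = {h q : h ∈ H, h p = v}` (as a `Finset.filter`
of `univ`).
-/

set_option autoImplicit false

namespace Pool.Agent.Lib.MP_c6e9f4_al.Exp

open Equiv (Perm)

theorem O1_mem {α : Type} {H : Subgroup (Perm α)} {B : Finset α}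
    (hS : SuppIn (H : Set (Perm α)) B) {g : Perm α} (hg : g ∈ H) {x : α} (hx : x ∈ B) :
    g x ∈ B := by
  by_contra hc
  have h1 := hS g hg _ hc
  have h2 := g.injective h1
  rw [h2] at hc
  exact hc hx

theorem exists_nbhd {α : Type} [Fintype α] [DecidableEq α] (H : Subgroup (Perm α))
    (B : Finset α) (hS : SuppIn (H : Set (Perm α)) B) (hT : TransOn H B) (p : α) (hp : p ∈ B)
    (h2 : ¬ TransOn (fixS H {p}) (B.erase p)) :
    ∃ N : α → Finset α,
      (∀ v ∈ B, N v ⊆ B ∧ v ∉ N v ∧ (N v).Nonempty ∧ 2 * (N v).card + 1 ≤ B.card) ∧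
      ∀ h ∈ H, ∀ v ∈ B, N (h v) = (N v).image h := by
  classical
  unfold TransOn at h2
  push Not at h2
  obtain ⟨x, hx, y, hy, hxy⟩ := h2
  -- the orbits of the stabiliser
  set O : α → Finset α := fun q => Finset.univ.filter (fun z => ∃ h ∈ H, h p = p ∧ h q = z) with hO
  have hOsub : ∀ q ∈ B.erase p, O q ⊆ B.erase p := by
    intro q hq z hz
    obtain ⟨h, hh, hhp, hhq⟩ := (Finset.mem_filter.1 hz).2
    rw [Finset.mem_erase] at hq ⊢
    rw [← hhq]
    refine ⟨fun hc => ?_, O1_mem hS hh hq.2⟩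
    rw [← hhp] at hc
    exact hq.1 (h.injective hc)
  have hdisj : Disjoint (O x) (O y) := by
    rw [Finset.disjoint_left]
    intro z hz1 hz2
    obtain ⟨h, hh, hhp, hhx⟩ := (Finset.mem_filter.1 hz1).2
    obtain ⟨g, hg, hgp, hgy⟩ := (Finset.mem_filter.1 hz2).2
    refine hxy (g⁻¹ * h) ⟨H.mul_mem (H.inv_mem hg) hh, ?_⟩ ?_
    · intro a ha
      rw [Finset.mem_singleton] at ha
      subst ha
      rw [Equiv.Perm.mul_apply, hhp, Equiv.Perm.inv_eq_iff_eq, hgp]
    · rw [Equiv.Perm.mul_apply, hhx, Equiv.Perm.inv_eq_iff_eq, hgy]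
  have hsum : (O x).card + (O y).card + 1 ≤ B.card := by
    rw [← Finset.card_union_of_disjoint hdisj]
    have h1 := Finset.card_le_card (Finset.union_subset (hOsub x hx) (hOsub y hy))
    rw [Finset.card_erase_of_mem hp] at h1
    have h2 : 0 < B.card := Finset.card_pos.2 ⟨p, hp⟩
    omega
  obtain ⟨q, hq, hqc⟩ : ∃ q ∈ B.erase p, 2 * (O q).card + 1 ≤ B.card := by
    rcases le_total (O x).card (O y).card with h | h
    · exact ⟨x, hx, by omega⟩
    · exact ⟨y, hy, by omega⟩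
  rw [Finset.mem_erase] at hq
  refine ⟨fun v => Finset.univ.filter (fun z => ∃ h ∈ H, h p = v ∧ h q = z), ?_, ?_⟩
  · intro v hv
    obtain ⟨h0, hh0, h0p⟩ := hT p hp v hv
    refine ⟨?_, ?_, ⟨h0 q, Finset.mem_filter.2 ⟨Finset.mem_univ _, h0, hh0, h0p, rfl⟩⟩, ?_⟩
    · intro z hz
      obtain ⟨h, hh, _, hhq⟩ := (Finset.mem_filter.1 hz).2
      rw [← hhq]
      exact O1_mem hS hh hq.2
    · intro hc
      obtain ⟨h, hh, hhp, hhq⟩ := (Finset.mem_filter.1 hc).2
      rw [← hhp] at hhq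
      exact hq.1 (h.injective hhq)
    · have h1 : (Finset.univ.filter (fun z => ∃ h ∈ H, h p = v ∧ h q = z)).card ≤
          (O q).card := by
        have h2 : Finset.univ.filter (fun z => ∃ h ∈ H, h p = v ∧ h q = z) ⊆
            (O q).image h0 := by
          intro z hz
          obtain ⟨h, hh, hhp, hhq⟩ := (Finset.mem_filter.1 hz).2
          refine Finset.mem_image.2 ⟨h0⁻¹ z, Finset.mem_filter.2 ⟨Finset.mem_univ _, h0⁻¹ * h,
            H.mul_mem (H.inv_mem hh0) hh, ?_, ?_⟩, ?_⟩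
          · rw [Equiv.Perm.mul_apply, hhp, Equiv.Perm.inv_eq_iff_eq, h0p]
          · rw [Equiv.Perm.mul_apply, hhq]
          · rw [← Equiv.Perm.mul_apply, mul_inv_cancel, Equiv.Perm.one_apply]
        exact (Finset.card_le_card h2).trans Finset.card_image_le
      show 2 * (Finset.univ.filter (fun z => ∃ h ∈ H, h p = v ∧ h q = z)).card + 1 ≤ B.card
      omega
  · intro h hh v _
    ext z
    show z ∈ Finset.univ.filter (fun z => ∃ g ∈ H, g p = h v ∧ g q = z) ↔
      z ∈ (Finset.univ.filter (fun z => ∃ g ∈ H, g p = v ∧ g q = z)).image h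
    constructor
    · intro hz
      obtain ⟨g, hg, hgp, hgq⟩ := (Finset.mem_filter.1 hz).2
      refine Finset.mem_image.2 ⟨h⁻¹ z, Finset.mem_filter.2 ⟨Finset.mem_univ _, h⁻¹ * g,
        H.mul_mem (H.inv_mem hh) hg, ?_, ?_⟩, ?_⟩
      · rw [Equiv.Perm.mul_apply, hgp, ← Equiv.Perm.mul_apply, inv_mul_cancel,
          Equiv.Perm.one_apply]
      · rw [Equiv.Perm.mul_apply, hgq]
      · rw [← Equiv.Perm.mul_apply, mul_inv_cancel, Equiv.Perm.one_apply]
    · intro hz
      obtain ⟨z', hz', rfl⟩ := Finset.mem_image.1 hz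
      obtain ⟨g, hg, hgp, hgq⟩ := (Finset.mem_filter.1 hz').2
      refine Finset.mem_filter.2 ⟨Finset.mem_univ _, h * g, H.mul_mem hh hg, ?_, ?_⟩
      · rw [Equiv.Perm.mul_apply, hgp]
      · rw [Equiv.Perm.mul_apply, hgq]

end Pool.Agent.Lib.MP_c6e9f4_al.Exp
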