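import Pool.Agent.Lib.MP_c6e9f4_al.Exp.N1

/-!
Z1. Choice of the constant: `C^(-κ m^(4/5)) ≤ 1/(16 m^3)` for all `m ≥ 1` if `κ log C ≥ 4`
(`m^(4/5) ≥ 1 + (4/5) log m`), and the final numerical inequality: with
`a m = ⌈C^(E n) / (16 m^3)⌉₊`, `L = ⌈C^(E n - rr n)⌉₊`, a suitable `M ≤ exp(n^0.78)`, and
`l1 = 2 M L`, three intervals fit into a list of length at least `C^(E n) - 1`:
`∑_z ∑_(m ≥ z) C^(E n)/(16 m^3) ≤ C^(E n) (π²/6)/16 ≤ 0.11 C^(E n)`, everything else is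
`≤ n² + (n + 1) l1`, tiny because `rr n ≥ 0.02 n^(4/5)` beats `n^0.78` (`C ≥ e`).
-/

set_option autoImplicit false

namespace Pool.Agent.Lib.MP_c6e9f4_al.Exp

open Equiv (Perm)

theorem choose_C : ∃ C1 : ℝ, Real.exp 1 ≤ C1 ∧ ∀ C : ℝ, C1 ≤ C → ∀ m : ℕ, 1 ≤ m →
    C ^ (-(kap * (m : ℝ) ^ (4 / 5 : ℝ))) ≤ 1 / (16 * (m : ℝ) ^ 3) := by
  have hk := kap_pos
  have hk2 := kap_le
  refine ⟨Real.exp (4 / kap), ?_, ?_⟩
  · apply Real.exp_le_exp.2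
    rw [le_div_iff₀ hk]
    linarith
  · intro C hC m hm
    have hC0 : 0 < C := lt_of_lt_of_le (Real.exp_pos _) hC
    have hm1 : (1 : ℝ) ≤ m := by exact_mod_cast hm
    have hm0 : (0 : ℝ) < m := by linarith
    have hlogC : 4 / kap ≤ Real.log C := by
      rw [Real.le_log_iff_exp_le hC0]; exact hC
    have hkC : 4 ≤ kap * Real.log C := by
      have := mul_le_mul_of_nonneg_left hlogC hk.le
      rwa [mul_div_cancel₀ _ hk.ne'] at this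
    have hlog16 : Real.log 16 ≤ 4 := by
      have h2 : Real.log 16 = 4 * Real.log 2 := by
        rw [show (16 : ℝ) = 2 ^ (4 : ℕ) by norm_num, Real.log_pow]; norm_num
      have := Real.log_two_lt_d9
      rw [h2]; linarith
    have hrp : 1 + 4 / 5 * Real.log m ≤ (m : ℝ) ^ (4 / 5 : ℝ) := by
      rw [Real.rpow_def_of_pos hm0]
      have := Real.add_one_le_exp (Real.log m * (4 / 5))
      linarith
    have hlogm : 0 ≤ Real.log m := Real.log_nonneg hm1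
    rw [Real.rpow_def_of_pos hC0]
    rw [show (1 : ℝ) / (16 * (m : ℝ) ^ 3) = Real.exp (-(Real.log 16 + 3 * Real.log m)) by
      rw [Real.exp_neg, Real.exp_add, Real.exp_log (by norm_num),
        show (3 : ℝ) * Real.log m = ((3 : ℕ) : ℝ) * Real.log m by norm_num, Real.exp_nat_mul,
        Real.exp_log hm0, one_div]]
    apply Real.exp_le_exp.2
    have h5 : 4 * (m : ℝ) ^ (4 / 5 : ℝ) ≤ kap * Real.log C * (m : ℝ) ^ (4 / 5 : ℝ) :=
      mul_le_mul_of_nonneg_right hkC (Real.rpow_nonneg hm0.le _)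
    nlinarith

theorem z1_sum_sq (K : ℕ) : ∑ m ∈ Finset.Icc 1 K, 1 / (m : ℝ) ^ 2 ≤ 2 := by
  rcases Nat.eq_zero_or_pos K with rfl | hK
  · simp
  · have key : ∀ K : ℕ, 1 ≤ K → ∑ m ∈ Finset.Icc 1 K, 1 / (m : ℝ) ^ 2 ≤ 2 - 1 / (K : ℝ) := by
      intro K hK
      induction K, hK using Nat.le_induction with
      | base => norm_num
      | succ K hK ih =>
        rw [Finset.sum_Icc_succ_top (by omega)]
        have h1 : (0 : ℝ) < K := by exact_mod_cast hK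
        have h2 : 1 / ((K + 1 : ℕ) : ℝ) ^ 2 ≤ 1 / (K : ℝ) - 1 / ((K + 1 : ℕ) : ℝ) := by
          push_cast
          rw [div_sub_div _ _ h1.ne' (by positivity), div_le_div_iff₀ (by positivity) (by positivity)]
          nlinarith
        linarith
    have := key K hK
    have h1 : (0 : ℝ) ≤ 1 / (K : ℝ) := by positivity
    linarith

theorem z1_double (N : ℝ) (hN : 0 ≤ N) (K : ℕ) :
    ∑ z ∈ Finset.Icc 1 K, ∑ m ∈ Finset.Icc z K, (⌈N / (16 * (m : ℝ) ^ 3)⌉₊ : ℝ) ≤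
      N / 8 + (K : ℝ) ^ 2 := by
  have hle : ∀ m : ℕ, (⌈N / (16 * (m : ℝ) ^ 3)⌉₊ : ℝ) ≤ N / (16 * (m : ℝ) ^ 3) + 1 := by
    intro m
    exact (Nat.ceil_lt_add_one (by positivity)).le
  calc ∑ z ∈ Finset.Icc 1 K, ∑ m ∈ Finset.Icc z K, (⌈N / (16 * (m : ℝ) ^ 3)⌉₊ : ℝ)
      ≤ ∑ z ∈ Finset.Icc 1 K, ∑ m ∈ Finset.Icc z K, (N / (16 * (m : ℝ) ^ 3) + 1) :=
        Finset.sum_le_sum fun z _ => Finset.sum_le_sum fun m _ => hle m
    _ = ∑ m ∈ Finset.Icc 1 K, ∑ _z ∈ Finset.Icc 1 m, (N / (16 * (m : ℝ) ^ 3) + 1) := by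
        apply Finset.sum_comm'
        intro x y
        simp only [Finset.mem_Icc]
        omega
    _ = ∑ m ∈ Finset.Icc 1 K, (N / 16 * (1 / (m : ℝ) ^ 2) + m) := by
        apply Finset.sum_congr rfl
        intro m hm
        have hm1 : 1 ≤ m := (Finset.mem_Icc.1 hm).1
        have hm0 : (0 : ℝ) < m := by exact_mod_cast hm1
        rw [Finset.sum_const, Nat.card_Icc, nsmul_eq_mul, Nat.add_sub_cancel]
        field_simp
    _ = N / 16 * ∑ m ∈ Finset.Icc 1 K, (1 / (m : ℝ) ^ 2) + ∑ m ∈ Finset.Icc 1 K, (m : ℝ) := by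
        rw [Finset.sum_add_distrib, Finset.mul_sum]
    _ ≤ N / 16 * 2 + (K : ℝ) ^ 2 := by
        apply add_le_add
        · exact mul_le_mul_of_nonneg_left (z1_sum_sq K) (by positivity)
        · calc ∑ m ∈ Finset.Icc 1 K, (m : ℝ) ≤ ∑ m ∈ Finset.Icc 1 K, (K : ℝ) :=
                Finset.sum_le_sum fun m hm => by exact_mod_cast (Finset.mem_Icc.1 hm).2
            _ = (K : ℝ) ^ 2 := by
                rw [Finset.sum_const, Nat.card_Icc, nsmul_eq_mul, Nat.add_sub_cancel]; ring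
    _ = N / 8 + (K : ℝ) ^ 2 := by ring

theorem z1_asymp (c : ℝ) (hc : 0 < c) : ∃ n0 : ℕ, ∀ n : ℕ, n0 ≤ n → 32 ≤ n ∧
    300 * (n : ℝ) ^ 3 * Real.exp ((n : ℝ) ^ (0.77 : ℝ)) ≤
      Real.exp (c * (n : ℝ) ^ (4 / 5 : ℝ)) := by
  have h1 := (isLittleO_log_rpow_atTop (r := (0.77 : ℝ)) (by norm_num)).bound
    (show (0 : ℝ) < 1 by norm_num)
  have h2 := (tendsto_rpow_atTop (y := (0.77 : ℝ)) (by norm_num)).eventually_ge_atTop
    (Real.log 300)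
  have h3 := (tendsto_rpow_atTop (y := (0.03 : ℝ)) (by norm_num)).eventually_ge_atTop (5 / c)
  have h4 := tendsto_natCast_atTop_atTop (R := ℝ) |>.eventually (h1.and (h2.and h3))
  obtain ⟨n1, hn1⟩ := Filter.eventually_atTop.1 h4
  refine ⟨max n1 32, fun n hn => ⟨le_trans (le_max_right _ _) hn, ?_⟩⟩
  obtain ⟨g1, g2, g3⟩ := hn1 n (le_trans (le_max_left _ _) hn)
  have hn32 : 32 ≤ n := le_trans (le_max_right _ _) hn
  have h32 : (32 : ℝ) ≤ n := by exact_mod_cast hn32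
  have hn0 : (0 : ℝ) < n := by linarith
  rw [Real.norm_of_nonneg (Real.log_nonneg (by linarith)),
    Real.norm_of_nonneg (Real.rpow_nonneg hn0.le _), one_mul] at g1
  have e1 : 300 * (n : ℝ) ^ 3 * Real.exp ((n : ℝ) ^ (0.77 : ℝ)) =
      Real.exp (Real.log 300 + 3 * Real.log n + (n : ℝ) ^ (0.77 : ℝ)) := by
    rw [Real.exp_add, Real.exp_add, Real.exp_log (by norm_num),
      show (3 : ℝ) * Real.log n = ((3 : ℕ) : ℝ) * Real.log n by norm_num, Real.exp_nat_mul,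
      Real.exp_log hn0]
  rw [e1]
  apply Real.exp_le_exp.2
  have e2 : (n : ℝ) ^ (4 / 5 : ℝ) = (n : ℝ) ^ (0.77 : ℝ) * (n : ℝ) ^ (0.03 : ℝ) := by
    rw [← Real.rpow_add hn0]; norm_num
  have e3 : 5 ≤ c * (n : ℝ) ^ (0.03 : ℝ) := by
    have := mul_le_mul_of_nonneg_left g3 hc.le
    rwa [mul_div_cancel₀ _ hc.ne'] at this
  have hT : 0 ≤ (n : ℝ) ^ (0.77 : ℝ) := Real.rpow_nonneg hn0.le _
  have e4 := mul_le_mul_of_nonneg_right e3 hT
  calc Real.log 300 + 3 * Real.log n + (n : ℝ) ^ (0.77 : ℝ) ≤ 5 * (n : ℝ) ^ (0.77 : ℝ) := by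
        linarith
    _ ≤ c * (n : ℝ) ^ (0.03 : ℝ) * (n : ℝ) ^ (0.77 : ℝ) := e4
    _ = c * (n : ℝ) ^ (4 / 5 : ℝ) := by rw [e2]; ring

theorem z1_rr (n : ℕ) : rr n = kap / 20 ^ (4 / 5 : ℝ) * (n : ℝ) ^ (4 / 5 : ℝ) := by
  unfold rr
  rw [Real.div_rpow (Nat.cast_nonneg n) (by norm_num)]
  ring

theorem z1_E_rr (n : ℕ) (hn : 32 ≤ n) : 0 ≤ E n - rr n := by
  have h32 : (32 : ℝ) ≤ n := by exact_mod_cast hn
  have hn0 : (0 : ℝ) < n := by linarith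
  have h2 : (2 : ℝ) ≤ (n : ℝ) ^ (1 / 5 : ℝ) := by
    have h : (2 : ℝ) = (32 : ℝ) ^ (1 / 5 : ℝ) := by
      rw [show (32 : ℝ) = (2 : ℝ) ^ (5 : ℝ) by norm_num,
        ← Real.rpow_mul (show (0 : ℝ) ≤ 2 by norm_num)]
      norm_num
    exact h.le.trans (Real.rpow_le_rpow (by norm_num) h32 (by norm_num))
  have h3 : (n : ℝ) ^ (4 / 5 : ℝ) * (n : ℝ) ^ (1 / 5 : ℝ) = n := by
    rw [← Real.rpow_add hn0]; norm_num
  have h4 : (0 : ℝ) ≤ (n : ℝ) ^ (4 / 5 : ℝ) := Real.rpow_nonneg hn0.le _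
  have h5 : ((n : ℝ) / 20) ^ (4 / 5 : ℝ) ≤ (n : ℝ) ^ (4 / 5 : ℝ) :=
    Real.rpow_le_rpow (by positivity) (by linarith) (by norm_num)
  have h6 : 0 ≤ ((n : ℝ) / 20) ^ (4 / 5 : ℝ) := by positivity
  have h7 := kap_le
  have h8 := kap_pos
  have h9 : rr n ≤ 0.26 * (n : ℝ) ^ (4 / 5 : ℝ) := by
    unfold rr
    exact mul_le_mul h7 h5 h6 (by norm_num)
  unfold E
  nlinarith

theorem choose_ML : ∃ n0 : ℕ, ∀ n : ℕ, n0 ≤ n → ∀ C : ℝ, Real.exp 1 ≤ C →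
    ∃ M L : ℕ, C ^ (E n - rr n) ≤ (L : ℝ) + 1 ∧
      (n.factorial : ℝ) < (1 + Real.exp (-(n : ℝ) ^ (0.77 : ℝ)) / 10) ^ M ∧
      3 * (((∑ z ∈ Finset.Icc 1 (n / 10),
        ((∑ m ∈ Finset.Icc z (n / 10), (⌈C ^ (E n) / (16 * (m : ℝ) ^ 3)⌉₊ : ℝ)) +
          2 * (M * L))) + 2 * (M * L) : ℝ)) + 1 ≤ C ^ (E n) := by
  have hk := kap_pos
  obtain ⟨n0, hn0⟩ := z1_asymp (kap / 20 ^ (4 / 5 : ℝ)) (by positivity)
  refine ⟨n0, fun n hn C hC => ?_⟩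
  obtain ⟨hn32, hbig⟩ := hn0 n hn
  have h32 : (32 : ℝ) ≤ n := by exact_mod_cast hn32
  have hnpos : (0 : ℝ) < n := by linarith
  have he1 : 1 ≤ Real.exp 1 := Real.one_le_exp (by norm_num)
  have hC1 : 1 ≤ C := he1.trans hC
  have hC0 : 0 < C := by linarith
  set T := Real.exp ((n : ℝ) ^ (0.77 : ℝ)) with hT
  have hT1 : 1 ≤ T := Real.one_le_exp (Real.rpow_nonneg hnpos.le _)
  set δ := Real.exp (-(n : ℝ) ^ (0.77 : ℝ)) / 10 with hδ
  have hδ0 : 0 < δ := by positivity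
  have hδT : δ * (10 * T) = 1 := by
    rw [hδ, hT, div_mul_eq_mul_div, div_eq_iff (by norm_num), one_mul, mul_left_comm,
      ← Real.exp_add]
    simp
  set X := C ^ (E n - rr n) with hX
  have hX1 : 1 ≤ X := Real.one_le_rpow hC1 (z1_E_rr n hn32)
  set Q := ⌈10 * T⌉₊ with hQ
  have hQ1 : 10 * T ≤ Q := Nat.le_ceil _
  have hQ2 : (Q : ℝ) ≤ 11 * T := by
    have := (Nat.ceil_lt_add_one (show (0 : ℝ) ≤ 10 * T by positivity)).le
    rw [← hQ] at this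
    linarith
  set L := ⌈X⌉₊ with hL
  have hL1 : X ≤ L := Nat.le_ceil _
  have hL2 : (L : ℝ) ≤ 2 * X := by
    have := (Nat.ceil_lt_add_one (show (0 : ℝ) ≤ X by positivity)).le
    rw [← hL] at this
    linarith
  refine ⟨Q * n ^ 2, L, by linarith, ?_, ?_⟩
  · -- the number of blocks
    have h1 : (2 : ℝ) ≤ (1 + δ) ^ Q := by
      have hb := one_add_mul_le_pow (show (-2 : ℝ) ≤ δ by linarith) Q
      have h2 : 1 ≤ (Q : ℝ) * δ := by
        calc (1 : ℝ) = δ * (10 * T) := hδT.symm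
          _ = 10 * T * δ := by ring
          _ ≤ Q * δ := mul_le_mul_of_nonneg_right hQ1 hδ0.le
      linarith
    have h3 : ((n.factorial : ℕ) : ℝ) < (2 : ℝ) ^ (n ^ 2) := by
      have h4 : n.factorial ≤ n ^ n := Nat.factorial_le_pow n
      have h5 : n ^ n < 2 ^ (n ^ 2) := by
        rw [pow_two, pow_mul]
        exact Nat.pow_lt_pow_left Nat.lt_two_pow_self (by omega)
      exact_mod_cast lt_of_le_of_lt h4 h5
    rw [pow_mul]
    exact lt_of_lt_of_le h3 (pow_le_pow_left₀ (by norm_num) h1 _)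
  · have hN0 : 0 < C ^ (E n) := Real.rpow_pos_of_pos hC0 _
    set N := C ^ (E n) with hN
    have hNX : N = X * C ^ (rr n) := by
      rw [hN, hX, ← Real.rpow_add hC0]; ring_nf
    have hrr0 : 0 ≤ rr n := by
      unfold rr; positivity
    have hCr : 300 * (n : ℝ) ^ 3 * T ≤ C ^ (rr n) := by
      refine hbig.trans ?_
      rw [← z1_rr, show Real.exp (rr n) = (Real.exp 1) ^ (rr n) by
        rw [← Real.exp_mul, one_mul]]
      exact Real.rpow_le_rpow (by positivity) hC hrr0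
    have hNbig : 300 * (n : ℝ) ^ 3 * T * X ≤ N := by
      rw [hNX, mul_comm X]
      exact mul_le_mul_of_nonneg_right hCr (by linarith)
    rw [Finset.sum_add_distrib]
    have hd := z1_double N hN0.le (n / 10)
    have hK : ((n / 10 : ℕ) : ℝ) ≤ n / 10 := by
      have := @Nat.cast_div_le ℝ _ _ _ n 10
      simpa using this
    have hK0 : (0 : ℝ) ≤ ((n / 10 : ℕ) : ℝ) := Nat.cast_nonneg _
    rw [Finset.sum_const, Nat.card_Icc, nsmul_eq_mul, Nat.add_sub_cancel]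
    have hML : ((Q * n ^ 2 : ℕ) : ℝ) * (L : ℝ) ≤ 22 * (n : ℝ) ^ 2 * T * X := by
      push_cast
      calc (Q : ℝ) * (n : ℝ) ^ 2 * L ≤ (11 * T) * (n : ℝ) ^ 2 * (2 * X) := by
            gcongr
        _ = 22 * (n : ℝ) ^ 2 * T * X := by ring
    have hML0 : 0 ≤ ((Q * n ^ 2 : ℕ) : ℝ) * (L : ℝ) := by positivity
    have hK2 : ((n / 10 : ℕ) : ℝ) ^ 2 ≤ (n : ℝ) ^ 2 := by
      apply pow_le_pow_left₀ hK0; linarith
    have hY1 : 1 ≤ T * X := by nlinarith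
    have hfin : ((n / 10 : ℕ) : ℝ) * (2 * (((Q * n ^ 2 : ℕ) : ℝ) * (L : ℝ))) +
        2 * (((Q * n ^ 2 : ℕ) : ℝ) * (L : ℝ)) ≤ 8 * (n : ℝ) ^ 3 * (T * X) := by
      have : ((n / 10 : ℕ) : ℝ) * (2 * (((Q * n ^ 2 : ℕ) : ℝ) * (L : ℝ))) +
        2 * (((Q * n ^ 2 : ℕ) : ℝ) * (L : ℝ)) =
          2 * (((n / 10 : ℕ) : ℝ) + 1) * (((Q * n ^ 2 : ℕ) : ℝ) * (L : ℝ)) := by ring
      rw [this]
      calc 2 * (((n / 10 : ℕ) : ℝ) + 1) * (((Q * n ^ 2 : ℕ) : ℝ) * (L : ℝ))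
          ≤ 2 * ((n : ℝ) * (8 / 44)) * (22 * (n : ℝ) ^ 2 * T * X) := by
            apply mul_le_mul _ hML hML0 (by positivity)
            nlinarith
        _ = 8 * (n : ℝ) ^ 3 * (T * X) := by ring
    have hN8 : 3 * (N / 8 + (n : ℝ) ^ 2 + 8 * (n : ℝ) ^ 3 * (T * X)) + 1 ≤ N := by
      have a1 : 300 * (n : ℝ) ^ 3 * (T * X) ≤ N := by linarith
      have a2 : (n : ℝ) ^ 2 ≤ (n : ℝ) ^ 3 * (T * X) := by
        have : (n : ℝ) ^ 2 ≤ (n : ℝ) ^ 3 := pow_le_pow_right₀ (by linarith) (by norm_num)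
        have h0 : 0 ≤ (n : ℝ) ^ 3 := by positivity
        nlinarith
      have a3 : (1 : ℝ) ≤ (n : ℝ) ^ 2 := by nlinarith
      linarith
    linarith


end Pool.Agent.Lib.MP_c6e9f4_al.Exp
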