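import Pool.Agent.Lib.MP_c6e9f4_al.Exp.A6
import Pool.Agent.Lib.MP_c6e9f4_al.Exp.M4
import Pool.Agent.Lib.MP_c6e9f4_al.Exp.F4
import Pool.Agent.Lib.MP_c6e9f4_al.Exp.F5
import Pool.Agent.Lib.MP_c6e9f4_al.Exp.Z1

/-!
Z2. The induction step. Suppose a bad list `x` has `C^(E n) < |x| + 1`. `hIL` of `freeing` from
`interval_lemma` and `choose_C` (a list of length at least `a m` preserving `R` would have
`|p| + 1 ≤ C^(E n) / (16 m^3) ≤ a m`), `hFL` from `full_coset` with `l1 = 2 (M L)`. Three consecutive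
intervals of the length required by `freeing` fit; two of the three signs agree; `two_parts` (for two
parts with another part in between use that their concatenation is a sublist of `x`).
-/

set_option autoImplicit false

namespace Pool.Agent.Lib.MP_c6e9f4_al.Exp

open Equiv (Perm)

/-- A permutation whose inverse maps the finite set `R` into itself maps `R` into itself. -/
theorem Z2.maps_of_inv_maps {α : Type} [Fintype α] [DecidableEq α] (g : Perm α) (R : Finset α)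
    (h : ∀ y ∈ R, g⁻¹ y ∈ R) : ∀ y ∈ R, g y ∈ R := by
  have h1 : R.image (fun y => g⁻¹ y) ⊆ R := by
    intro z hz
    obtain ⟨y, hy, rfl⟩ := Finset.mem_image.1 hz
    exact h y hy
  have h2 : R.image (fun y => g⁻¹ y) = R := by
    apply Finset.eq_of_subset_of_card_le h1
    rw [Finset.card_image_of_injective _ (Equiv.injective g⁻¹)]
  intro y hy
  rw [← h2] at hy
  obtain ⟨z, hz, hzy⟩ := Finset.mem_image.1 hy
  have : g y = z := by
    rw [← hzy]
    simp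
  rw [this]
  exact hz

theorem step : ∃ (n0 : ℕ) (C1 : ℝ), Real.exp 1 ≤ C1 ∧ ∀ n : ℕ, n0 ≤ n → ∀ C : ℝ, C1 ≤ C →
    IH C n → DN n (C ^ E n) := by
  obtain ⟨C1, hC1, hCm⟩ := choose_C
  obtain ⟨n1, hn1⟩ := choose_ML
  obtain ⟨n2, hn2⟩ := full_coset
  refine ⟨max 30 (max n1 n2), C1, hC1, ?_⟩
  intro n hn C hC ih
  have hn30 : 30 ≤ n := le_trans (le_max_left _ _) hn
  have hnn1 : n1 ≤ n := le_trans (le_trans (le_max_left _ _) (le_max_right _ _)) hn
  have hnn2 : n2 ≤ n := le_trans (le_trans (le_max_right _ _) (le_max_right _ _)) hn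
  have hCe : Real.exp 1 ≤ C := hC1.trans hC
  have hC1' : 1 ≤ C := by
    have : (1 : ℝ) ≤ Real.exp 1 := by
      have := Real.add_one_le_exp (1 : ℝ)
      linarith
    linarith
  have hC0 : 0 < C := by linarith
  obtain ⟨M, L, hL, hM, hT⟩ := hn1 n hnn1 C hCe
  intro α _ _ hα x hx hbad
  by_contra hlong
  push Not at hlong
  -- block lengths
  set N : ℝ := C ^ E n with hN
  have hN0 : 0 < N := Real.rpow_pos_of_pos hC0 _
  let a : ℕ → ℕ := fun m => ⌈N / (16 * (m : ℝ) ^ 3)⌉₊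
  have hIL : ∀ p : List (Perm α), p <:+: x → ∀ R : Finset α, 1 ≤ R.card → 10 * R.card ≤ n →
      a R.card ≤ p.length → ∃ g ∈ p, ∃ y ∈ R, g⁻¹ y ∉ R := by
    intro p hp R hR1 hR2 hlen
    by_contra hcon
    push Not at hcon
    have hpres : ∀ g ∈ p, ∀ y ∈ R, g y ∈ R := fun g hg => Z2.maps_of_inv_maps g R (hcon g hg)
    have hb : Bad p := hbad.sublist hp.sublist
    have h := interval_lemma hC1' ih hα p hb R hpres hR1 (by omega)
    have h3 := hCm C hC R.card hR1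
    have h4 : C ^ (E n - kap * (R.card : ℝ) ^ (4 / 5 : ℝ)) =
        N * C ^ (-(kap * (R.card : ℝ) ^ (4 / 5 : ℝ))) := by
      rw [hN, ← Real.rpow_add hC0]
      congr 1
    rw [h4] at h
    have h5 : N * C ^ (-(kap * (R.card : ℝ) ^ (4 / 5 : ℝ))) ≤ N * (1 / (16 * (R.card : ℝ) ^ 3)) :=
      mul_le_mul_of_nonneg_left h3 hN0.le
    have h6 : N / (16 * (R.card : ℝ) ^ 3) ≤ (a R.card : ℝ) := Nat.le_ceil _
    have h7 : (a R.card : ℝ) ≤ (p.length : ℝ) := by exact_mod_cast hlen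
    have h8 : N * (1 / (16 * (R.card : ℝ) ^ 3)) = N / (16 * (R.card : ℝ) ^ 3) := by ring
    linarith
  have hFL : ∀ J : List (Perm α), J <:+: x → 2 * (M * L) ≤ J.length →
      ∃ (B : Finset α) (θ : Perm α), 10 * (n - B.card) ≤ n ∧ ∀ h ∈ AltB B, θ * h ∈ Pi J := by
    intro J hJ hlen
    exact hn2 n hnn2 C hCe ih α hα M L hL hM J (hbad.sublist hJ.sublist) hlen
  set T : ℕ := (∑ z ∈ Finset.Icc 1 (n / 10), ((∑ m ∈ Finset.Icc z (n / 10), a m) + 2 * (M * L))) +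
    2 * (M * L) with hTdef
  have hT' : 3 * T ≤ x.length := by
    have h1 : (3 : ℝ) * (T : ℝ) + 1 ≤ N := by
      rw [hTdef]
      push_cast
      exact hT
    have h2 : ((3 * T : ℕ) : ℝ) < ((x.length + 0 : ℕ) : ℝ) := by
      push_cast
      linarith
    have : 3 * T < x.length + 0 := by exact_mod_cast h2
    omega
  -- the three parts
  set y1 := x.take T with hy1
  set y2 := (x.drop T).take T with hy2
  set y3 := (x.drop (2 * T)) with hy3
  have hy1l : y1.length = T := by rw [hy1, List.length_take]; omega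
  have hy2l : y2.length = T := by rw [hy2, List.length_take, List.length_drop]; omega
  have hy3l : T ≤ y3.length := by rw [hy3, List.length_drop]; omega
  have hx3 : x = y1 ++ (y2 ++ y3) := by
    have e : x.drop (2 * T) = (x.drop T).drop T := by
      rw [List.drop_drop, two_mul]
    rw [hy1, hy2, hy3, e, List.take_append_drop, List.take_append_drop]
  have hi1 : y1 <:+: x := ⟨[], y2 ++ y3, by rw [hx3]; simp⟩
  have hi2 : y2 <:+: x := ⟨y1, y3, by rw [hx3]; simp⟩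
  have hi3 : y3 <:+: x := ⟨y1 ++ y2, [], by rw [hx3]; simp⟩
  obtain ⟨Γ1, F1, ε1, hΓ1, hF1, h1⟩ := freeing hα (by omega) a (2 * (M * L)) x hIL hFL y1 hi1
    (by rw [hy1l])
  obtain ⟨Γ2, F2, ε2, hΓ2, hF2, h2⟩ := freeing hα (by omega) a (2 * (M * L)) x hIL hFL y2 hi2
    (by rw [hy2l])
  obtain ⟨Γ3, F3, ε3, hΓ3, hF3, h3⟩ := freeing hα (by omega) a (2 * (M * L)) x hIL hFL y3 hi3
    hy3l
  have hs12 : (y1 ++ y2).Sublist x := by
    rw [hx3, ← List.append_assoc]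
    exact List.sublist_append_left _ _
  have hs13 : (y1 ++ y3).Sublist x := by
    rw [hx3]
    exact (List.Sublist.refl y1).append (List.sublist_append_right y2 y3)
  have hs23 : (y2 ++ y3).Sublist x := by
    rw [hx3]
    exact List.sublist_append_right _ _
  rcases Int.units_eq_one_or ε1 with e1 | e1 <;> rcases Int.units_eq_one_or ε2 with e2 | e2 <;>
    rcases Int.units_eq_one_or ε3 with e3 | e3 <;> subst e1 <;> subst e2 <;> subst e3
  · exact two_parts hα hn30 y1 y2 Γ1 F1 Γ2 F2 1 hΓ1 hF1 hΓ2 hF2 h1 h2 (hbad.sublist hs12)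
  · exact two_parts hα hn30 y1 y2 Γ1 F1 Γ2 F2 1 hΓ1 hF1 hΓ2 hF2 h1 h2 (hbad.sublist hs12)
  · exact two_parts hα hn30 y1 y3 Γ1 F1 Γ3 F3 1 hΓ1 hF1 hΓ3 hF3 h1 h3 (hbad.sublist hs13)
  · exact two_parts hα hn30 y2 y3 Γ2 F2 Γ3 F3 (-1) hΓ2 hF2 hΓ3 hF3 h2 h3 (hbad.sublist hs23)
  · exact two_parts hα hn30 y2 y3 Γ2 F2 Γ3 F3 1 hΓ2 hF2 hΓ3 hF3 h2 h3 (hbad.sublist hs23)
  · exact two_parts hα hn30 y1 y3 Γ1 F1 Γ3 F3 (-1) hΓ1 hF1 hΓ3 hF3 h1 h3 (hbad.sublist hs13)
  · exact two_parts hα hn30 y1 y2 Γ1 F1 Γ2 F2 (-1) hΓ1 hF1 hΓ2 hF2 h1 h2 (hbad.sublist hs12)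
  · exact two_parts hα hn30 y1 y2 Γ1 F1 Γ2 F2 (-1) hΓ1 hF1 hΓ2 hF2 h1 h2 (hbad.sublist hs12)

end Pool.Agent.Lib.MP_c6e9f4_al.Exp
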