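import Pool.Agent.Lib.MP_c6e9f4_al.Exp.Z2

/-!
Z3. `D(n) ≤ C^(E n) ≤ C^n` for all `n`: take `C ≥ C1` with `C^κ ≥ n0!` (`E n ≥ E 2 = κ` for `n ≥ 2`;
`DN_factorial`), strong induction. The case `n ≤ 1`: `n! = 1 ≤ C^(E n)`.
-/

set_option autoImplicit false

namespace Pool.Agent.Lib.MP_c6e9f4_al.Exp

open Equiv (Perm)

theorem DN_exp : ∃ C : ℕ, ∀ n : ℕ, DN n ((C : ℝ) ^ n) := by
  obtain ⟨n0, C1, hC1, hstep⟩ := step
  have hk := kap_pos
  -- the constant
  obtain ⟨C, hC⟩ : ∃ C : ℕ, max C1 (((n0.factorial : ℝ)) ^ (1 / kap)) ≤ (C : ℝ) :=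
    ⟨⌈max C1 (((n0.factorial : ℝ)) ^ (1 / kap))⌉₊, Nat.le_ceil _⟩
  have hCC1 : C1 ≤ (C : ℝ) := (le_max_left _ _).trans hC
  have hCf : ((n0.factorial : ℝ)) ^ (1 / kap) ≤ (C : ℝ) := (le_max_right _ _).trans hC
  have he : (1 : ℝ) ≤ Real.exp 1 := by
    have := Real.add_one_le_exp (1 : ℝ)
    linarith
  have hC1' : (1 : ℝ) ≤ (C : ℝ) := by linarith
  have hC0 : (0 : ℝ) ≤ (C : ℝ) := by linarith
  have hfac : (n0.factorial : ℝ) ≤ (C : ℝ) ^ kap := by
    have h1 : ((n0.factorial : ℝ) ^ (1 / kap)) ^ kap ≤ (C : ℝ) ^ kap :=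
      Real.rpow_le_rpow (by positivity) hCf hk.le
    rwa [← Real.rpow_mul (by positivity), one_div, inv_mul_cancel₀ hk.ne', Real.rpow_one] at h1
  have main : ∀ n : ℕ, DN n ((C : ℝ) ^ E n) := by
    intro n
    induction n using Nat.strong_induction_on with
    | _ n ih =>
      by_cases hn : n0 ≤ n
      · exact hstep n hn C hCC1 ih
      · push Not at hn
        refine (DN_factorial n).mono ?_
        by_cases h2 : 2 ≤ n
        · have h3 : kap ≤ E n := by
            rw [← E_two]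
            exact E_mono h2
          calc (n.factorial : ℝ) ≤ (n0.factorial : ℝ) := by
                exact_mod_cast Nat.factorial_le hn.le
            _ ≤ (C : ℝ) ^ kap := hfac
            _ ≤ (C : ℝ) ^ E n := Real.rpow_le_rpow_of_exponent_le hC1' h3
        · have h4 : n.factorial = 1 := by
            rw [Nat.factorial_eq_one]
            omega
          rw [h4, Nat.cast_one]
          exact Real.one_le_rpow hC1' (E_nonneg n)
  refine ⟨C, fun n => (main n).mono ?_⟩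
  calc (C : ℝ) ^ E n ≤ (C : ℝ) ^ (n : ℝ) := Real.rpow_le_rpow_of_exponent_le hC1' (E_le n)
    _ = (C : ℝ) ^ n := Real.rpow_natCast _ _

end Pool.Agent.Lib.MP_c6e9f4_al.Exp
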